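import Pool.Agent.KRc.Jst
import Pool.Agent.KRb.Gen

/-!
Row DEC of the board KRc: the decomposition of the products of symbols of polynomials, over `F`.
-/

set_option autoImplicit false

namespace Pool.Agent.KRc

open Finsupp Pool.Agent.KMil Pool.Agent.KRat Pool.Agent.KRb Polynomial

universe u

variable {K : Type u} [Field K] {F : Type u} [Field F] [Algebra (RatFunc K) F]

theorem dec_psymF_bad_mem (p : ℕ) (hD : DichF p K F) (d e : ℕ) (π : Pl K e)
    (hb : ¬ GoodPl F π.1) : psymF p F (π.1 : K[X]) ∈ VF p K F d := by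
  have h1 : ∃ (c : K) (h : F), jF F (π.1 : K[X]) = jF F (C c) * h ^ p := by
    rcases hD π.1 π.2.1 π.2.2.1 with h | h
    · exact absurd h hb
    · exact h
  obtain ⟨c, hc, h2⟩ := psymF_bad p (π.1 : K[X]) π.2.1.ne_zero h1
  rw [h2]
  refine Submodule.subset_span ⟨C c, ?_, ?_, rfl⟩
  · simpa using hc
  · simp

theorem dec_gen (p : ℕ) (hD : DichF p K F) (d n : ℕ)
    (hdec : ∀ x ∈ VV p K (d + 1) ^ (n + 1), ∃ x0 ∈ VV p K d ^ (n + 1),
      ∃ c : Pl K (d + 1) →₀ KM p (RatFunc K), (∀ π, c π ∈ VV p K d ^ n) ∧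
        x = x0 + c.sum (fun π a => psym p K π.1 * a)) :
    ∀ x ∈ VF p K F (d + 1) ^ (n + 1), ∃ x0 ∈ VF p K F d ^ (n + 1),
      ∃ c : GP K F (d + 1) →₀ KM p F, (∀ π, c π ∈ VF p K F d ^ n) ∧
        x = x0 + c.sum (fun (π : GP K F (d + 1)) a => psymF p F (π.1.1 : K[X]) * a) := by
  classical
  intro x hx
  obtain ⟨J, hJ, hJV, hJs⟩ := exists_J p K F
  obtain ⟨x', hx', rfl⟩ := hJs (d + 1) (n + 1) x hx
  obtain ⟨x0, hx0, c, hc, hxe⟩ := hdec x' hx'
  set P : Pl K (d + 1) → Prop := fun π => GoodPl F π.1 with hP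
  set c1 : Pl K (d + 1) →₀ KM p F := c.mapRange J (map_zero J) with hc1
  have hc1v : ∀ π, c1 π = J (c π) := fun π => by rw [hc1, Finsupp.mapRange_apply]
  have hc1m : ∀ π, c1 π ∈ VF p K F d ^ n := fun π => by
    rw [hc1v]
    exact hJV d n _ (hc π)
  set g : Pl K (d + 1) → KM p F → KM p F := fun π a => psymF p F (π.1 : K[X]) * a with hg
  have hg0 : ∀ π, g π 0 = 0 := fun π => by rw [hg]; exact mul_zero _
  have hga : ∀ π a b, g π (a + b) = g π a + g π b := fun π a b => by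
    rw [hg]; exact mul_add _ _ _
  have h1 : J (c.sum (fun π a => psym p K π.1 * a)) = c1.sum g := by
    rw [hc1, Finsupp.sum_mapRange_index hg0]
    unfold Finsupp.sum
    rw [map_sum]
    refine Finset.sum_congr rfl (fun π _ => ?_)
    rw [map_mul, hJ]
  have h2 : c1.sum g = (c1.filter P).sum g + (c1.filter (fun π => ¬ P π)).sum g := by
    rw [← Finsupp.sum_add_index' hg0 hga, Finsupp.filter_add_filter_not]
  refine ⟨J x0 + (c1.filter (fun π => ¬ P π)).sum g, ?_, (c1.filter P).subtypeDomain P, ?_, ?_⟩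
  · refine Submodule.add_mem _ (hJV d (n + 1) _ hx0) ?_
    refine Submodule.sum_mem _ (fun π hπ => ?_)
    have hb : ¬ P π := by
      have := (Finsupp.mem_support_iff.1 hπ)
      by_contra hcon
      exact this (Finsupp.filter_apply_neg _ _ (fun h => h hcon))
    rw [Finsupp.filter_apply_pos (fun π => ¬ P π) c1 hb]
    rw [pow_succ']
    exact Submodule.mul_mem_mul (dec_psymF_bad_mem p hD d (d + 1) π hb) (hc1m π)
  · intro π
    rw [Finsupp.subtypeDomain_apply, Finsupp.filter_apply_pos P c1 π.2]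
    exact hc1m π.1
  · rw [hxe, map_add, h1, h2]
    have h3 : ((c1.filter P).subtypeDomain P).sum
        (fun (π : GP K F (d + 1)) a => psymF p F (π.1.1 : K[X]) * a) = (c1.filter P).sum g := by
      refine Finsupp.sum_subtypeDomain_index (h := g) ?_
      intro π hπ
      by_contra hcon
      exact (Finsupp.mem_support_iff.1 hπ) (Finsupp.filter_apply_neg _ _ hcon)
    rw [h3]
    abel

theorem decO (p : ℕ) [Fact p.Prime] (h1 : ∃ c : K, c ^ p = -1) (hD : DichF p K F) (d n : ℕ) :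
    ∀ x ∈ VF p K F (d + 1) ^ (n + 1), ∃ x0 ∈ VF p K F d ^ (n + 1),
      ∃ c : GP K F (d + 1) →₀ KM p F, (∀ π, c π ∈ VF p K F d ^ n) ∧
        x = x0 + c.sum (fun (π : GP K F (d + 1)) a => psymF p F (π.1.1 : K[X]) * a) :=
  dec_gen p hD d n (dec p K h1 d n)

theorem decT (hD : DichF 2 K F) (d n : ℕ) :
    ∀ x ∈ VF 2 K F (d + 1) ^ (n + 1), ∃ x0 ∈ VF 2 K F d ^ (n + 1),
      ∃ c : GP K F (d + 1) →₀ KM 2 F, (∀ π, c π ∈ VF 2 K F d ^ n) ∧
        x = x0 + c.sum (fun (π : GP K F (d + 1)) a => psymF 2 F (π.1.1 : K[X]) * a) :=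
  dec_gen 2 hD d n (decM d n)

end Pool.Agent.KRc
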