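import Pool.Agent.KRc.Spc
import Pool.Agent.KRat.ResD

/-!
Row EVO of the board KRc (MP_da2a57_al): specialisation and residue at a good place, with values
in an exterior algebra.
-/

set_option autoImplicit false

namespace Pool.Agent.KRc

open Finsupp Pool.Agent.KMil Pool.Agent.KRat Pool.Agent.KRb Polynomial

universe u

variable {K : Type u} [Field K] {F : Type u} [Field F] [Algebra (RatFunc K) F]

theorem exists_ev_delO (p : ℕ) [Fact p.Prime] (h1 : ∃ c : K, c ^ p = -1) {d : ℕ} (π : GP K F d)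
    (hE : ExtF p (AdjoinRoot π.1.1)) :
    ∃ (ev : KM p F →ₐ[ZMod p] ExteriorAlgebra (ZMod p) (PW p (AdjoinRoot π.1.1)))
      (del : KM p F →ₗ[ZMod p] ExteriorAlgebra (ZMod p) (PW p (AdjoinRoot π.1.1))),
      (∀ q : K[X], ¬ π.1.1 ∣ q → ev (psymF p F q) = ExteriorAlgebra.ι (ZMod p) (rcls p π.1 q)) ∧
      del 1 = 0 ∧
      (∀ q : K[X], ¬ π.1.1 ∣ q → ∀ a, del (psymF p F q * a) = -(ev (psymF p F q) * del a)) ∧
      (∀ a, del (psymF p F π.1.1 * a) = ev a) := by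
  have hneg : cls p (-1 : (AdjoinRoot π.1.1)ˣ) = 0 := by
    apply cls_neg_one
    obtain ⟨c, hc⟩ := h1
    refine ⟨algebraMap K (AdjoinRoot π.1.1) c, ?_⟩
    rw [← map_pow, hc, map_neg, map_one]
  obtain ⟨S, hS1, hS2'⟩ := exists_specF p π.1.1 π.2
    (fun u => ExteriorAlgebra.ι (ZMod p) (inlZ p (AdjoinRoot π.1.1) (cls p u)))
    (ExteriorAlgebra.ι (ZMod p) (xiZ p (AdjoinRoot π.1.1)))
    (fun a b => by rw [cls_mul, map_add, map_add])
    (fun a b hab => wedge_zero p hE (inlZ p (AdjoinRoot π.1.1)) a b hab)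
    (fun a => eq_neg_of_add_eq_zero_left (ExteriorAlgebra.ι_add_mul_swap _ _))
    (by rw [ExteriorAlgebra.ι_sq_zero, hneg, map_zero, map_zero, mul_zero])
  have hS2 : ∀ q : K[X], ¬ π.1.1 ∣ q →
      S (psymF p F q) =
        ExteriorAlgebra.ι (ZMod p) (inlZ p (AdjoinRoot π.1.1) (rcls p π.1 q)) := by
    intro q hq
    rw [rcls_of_not_dvd p π.1 hq]
    exact hS2' q _ rfl
  have hd : ∀ a, ctr (sndZ p (AdjoinRoot π.1.1))
      (ExteriorAlgebra.ι (ZMod p) (xiZ p (AdjoinRoot π.1.1)) * a)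
      = a - ExteriorAlgebra.ι (ZMod p) (xiZ p (AdjoinRoot π.1.1)) *
          ctr (sndZ p (AdjoinRoot π.1.1)) a := by
    intro a
    have h2 : sndZ p (AdjoinRoot π.1.1) (xiZ p (AdjoinRoot π.1.1)) = 1 := rfl
    rw [ctr_ι_mul, h2, one_smul]
  have hd' : ∀ x a, ctr (sndZ p (AdjoinRoot π.1.1))
      (ExteriorAlgebra.ι (ZMod p) (inlZ p (AdjoinRoot π.1.1) x) * a)
      = -(ExteriorAlgebra.ι (ZMod p) (inlZ p (AdjoinRoot π.1.1) x) *
          ctr (sndZ p (AdjoinRoot π.1.1)) a) := by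
    intro x a
    have h2 : sndZ p (AdjoinRoot π.1.1) (inlZ p (AdjoinRoot π.1.1) x) = 0 := rfl
    rw [ctr_ι_mul, h2, zero_smul, zero_sub]
  refine ⟨(ExteriorAlgebra.map (fstZ p (AdjoinRoot π.1.1))).comp S,
    (ExteriorAlgebra.map (fstZ p (AdjoinRoot π.1.1))).toLinearMap ∘ₗ
      ctr (sndZ p (AdjoinRoot π.1.1)) ∘ₗ S.toLinearMap, ?_, ?_, ?_, ?_⟩
  · intro q hq
    rw [AlgHom.comp_apply, hS2 q hq, ExteriorAlgebra.map_apply_ι]
    rfl
  · rw [LinearMap.comp_apply, LinearMap.comp_apply, AlgHom.toLinearMap_apply,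
      AlgHom.toLinearMap_apply, map_one S, ctr_one, map_zero]
  · intro q hq a
    rw [LinearMap.comp_apply, LinearMap.comp_apply, LinearMap.comp_apply, LinearMap.comp_apply,
      AlgHom.toLinearMap_apply, AlgHom.toLinearMap_apply, AlgHom.toLinearMap_apply,
      AlgHom.toLinearMap_apply, AlgHom.comp_apply, map_mul, hS2 q hq, hd', map_neg, map_mul]
  · intro a
    rw [LinearMap.comp_apply, LinearMap.comp_apply, AlgHom.toLinearMap_apply,
      AlgHom.toLinearMap_apply, AlgHom.comp_apply, map_mul, hS1, hd, map_sub, map_mul,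
      ExteriorAlgebra.map_apply_ι]
    have h2 : fstZ p (AdjoinRoot π.1.1) (xiZ p (AdjoinRoot π.1.1)) = 0 := rfl
    rw [h2, map_zero, zero_mul, sub_zero]

end Pool.Agent.KRc
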