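import Pool.Agent.KRc.Jst
import Pool.Agent.KRat.Ker
import Pool.Agent.KRat.Zero
import Pool.Agent.KRb.Ker
import Pool.Agent.KRb.Inj

/-!
Row KEI: the kernel of the evaluation and its injectivity at the bottom.
-/

set_option autoImplicit false

namespace Pool.Agent.KRc

open Finsupp Pool.Agent.KMil Pool.Agent.KRat Pool.Agent.KRb Polynomial

universe u

variable {K : Type u} [Field K] {F : Type u} [Field F] [Algebra (RatFunc K) F]

theorem kerO (p : ℕ) [Fact p.Prime] (h1 : ∃ c : K, c ^ p = -1) (d : ℕ) (π : GP K F (d + 1))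
    (ev : KM p F →ₐ[ZMod p] ExteriorAlgebra (ZMod p) (PW p (AdjoinRoot π.1.1)))
    (hev : ∀ q : K[X], q ≠ 0 → q.natDegree ≤ d →
      ev (psymF p F q) = ExteriorAlgebra.ι (ZMod p) (rcls p π.1 q))
    (n : ℕ) (a : KM p F) (ha : a ∈ VF p K F d ^ n) (h0 : ev a = 0) :
    psymF p F π.1.1 * a ∈ VF p K F d ^ (n + 1) := by
  obtain ⟨J, hJ1, hJ2, hJ3⟩ := exists_J p K F
  obtain ⟨x, hx, rfl⟩ := hJ3 d n a ha
  have h2 := ker_ev p h1 d π.1 (ev.comp J) (fun q hq hqd => by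
    rw [AlgHom.comp_apply, hJ1]
    exact hev q hq hqd) n x hx (by rw [AlgHom.comp_apply]; exact h0)
  have h3 := hJ2 d (n + 1) _ h2
  rw [map_mul, hJ1] at h3
  exact h3

theorem injO (p : ℕ) [Fact p.Prime] (h1 : ∃ c : K, c ^ p = -1) (π : GP K F 1)
    (ev : KM p F →ₐ[ZMod p] ExteriorAlgebra (ZMod p) (PW p (AdjoinRoot π.1.1)))
    (hev : ∀ q : K[X], q ≠ 0 → q.natDegree ≤ 0 →
      ev (psymF p F q) = ExteriorAlgebra.ι (ZMod p) (rcls p π.1 q))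
    (n : ℕ) (a : KM p F) (ha : a ∈ VF p K F 0 ^ n) (h0 : ev a = 0) : a = 0 := by
  obtain ⟨J, hJ1, hJ2, hJ3⟩ := exists_J p K F
  obtain ⟨x, hx, rfl⟩ := hJ3 0 n a ha
  have h2 := zero_inj p h1 π.1 (ev.comp J) (fun q hq hqd => by
    rw [AlgHom.comp_apply, hJ1]
    exact hev q hq hqd) n x hx (by rw [AlgHom.comp_apply]; exact h0)
  rw [h2, map_zero]

theorem kerT (d : ℕ) (π : GP K F (d + 1)) (ev : KM 2 F →ₐ[ZMod 2] KM 2 (AdjoinRoot π.1.1))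
    (hev : ∀ q : K[X], q ≠ 0 → q.natDegree ≤ d → ev (psymF 2 F q) = rsig π.1 (sym 2) q)
    (n : ℕ) (a : KM 2 F) (ha : a ∈ VF 2 K F d ^ n) (h0 : ev a = 0) :
    psymF 2 F π.1.1 * a ∈ VF 2 K F d ^ (n + 1) := by
  obtain ⟨J, hJ1, hJ2, hJ3⟩ := exists_J 2 K F
  obtain ⟨x, hx, rfl⟩ := hJ3 d n a ha
  have h2 := ker_evM d π.1 (ev.comp J) (fun q hq hqd => by
    rw [AlgHom.comp_apply, hJ1]
    exact hev q hq hqd) n x hx (by rw [AlgHom.comp_apply]; exact h0)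
  have h3 := hJ2 d (n + 1) _ h2
  rw [map_mul, hJ1] at h3
  exact h3

theorem injT (π : GP K F 1) (ev : KM 2 F →ₐ[ZMod 2] KM 2 (AdjoinRoot π.1.1))
    (hev : ∀ q : K[X], q ≠ 0 → q.natDegree ≤ 0 → ev (psymF 2 F q) = rsig π.1 (sym 2) q)
    (n : ℕ) (a : KM 2 F) (ha : a ∈ VF 2 K F 0 ^ n) (h0 : ev a = 0) : a = 0 := by
  obtain ⟨J, hJ1, hJ2, hJ3⟩ := exists_J 2 K F
  obtain ⟨x, hx, rfl⟩ := hJ3 0 n a ha
  have h2 := zero_injM π.1 (ev.comp J) (fun q hq hqd => by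
    rw [AlgHom.comp_apply, hJ1]
    exact hev q hq hqd) n x hx (by rw [AlgHom.comp_apply]; exact h0)
  rw [h2, map_zero]

end Pool.Agent.KRc
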