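import Pool.Agent.KRc.Jst
import Pool.Agent.KRc.Evo
import Pool.Agent.KRc.Dec
import Pool.Agent.KRc.Kei
import Pool.Agent.KRat.Gen

/-!
Row RSO: the residue data for the fields `F`.
-/

set_option autoImplicit false

namespace Pool.Agent.KRc

open Finsupp Pool.Agent.KMil Pool.Agent.KRat Pool.Agent.KRb Polynomial

universe u

variable {K : Type u} [Field K] {F : Type u} [Field F] [Algebra (RatFunc K) F]

/-- a polynomial of small degree is prime to the place -/
theorem RSO_not_dvd {d : ℕ} (π : Pl K (d + 1)) {q : K[X]} (hq : q ≠ 0) (hd : q.natDegree ≤ d) :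
    ¬ π.1 ∣ q := by
  intro h
  have h1 := Polynomial.natDegree_le_of_dvd h hq
  rw [π.2.2.2] at h1
  omega

/-- different places are prime to each other -/
theorem RSO_not_dvd_pl {d : ℕ} (π ρ : Pl K d) (h : π ≠ ρ) : ¬ ρ.1 ∣ π.1 := by
  intro h1
  apply h
  have h2 : Associated ρ.1 π.1 := ρ.2.2.1.associated_of_dvd π.2.2.1 h1
  exact Subtype.ext (Polynomial.eq_of_monic_of_associated ρ.2.1 π.2.1 h2).symm

theorem exists_resO (p : ℕ) [Fact p.Prime] (h1 : ∃ c : K, c ^ p = -1) (hD : DichF p K F)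
    (hE : ∀ (d : ℕ) (π : Pl K d), ExtF p (AdjoinRoot π.1)) (d : ℕ) :
    Nonempty (Res (VF p K F d) (VF p K F (d + 1)) (GP K F (d + 1))
      (fun π => PW p (AdjoinRoot π.1.1))) := by
  choose ev del hev hdel1 hdel2 hdel3 using
    fun π : GP K F (d + 1) => exists_ev_delO p h1 π (hE (d + 1) π.1)
  have hdm : ∀ π, ∀ v ∈ VF p K F d, ∀ a, del π (v * a) = -(ev π v * del π a) := by
    intro π v hv a
    unfold VF at hv
    induction hv using Submodule.span_induction with
    | mem x hx =>
      obtain ⟨q, hq, hqd, rfl⟩ := hx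
      exact hdel2 π q (RSO_not_dvd π.1 hq hqd) a
    | zero => simp
    | add x y _ _ hx hy =>
      rw [add_mul, map_add, map_add, hx, hy, add_mul]
      abel
    | smul c x _ hx =>
      rw [smul_mul_assoc, map_smul, map_smul, hx, smul_mul_assoc, smul_neg]
  have hdz : ∀ π, ∀ n, ∀ a ∈ VF p K F d ^ n, del π a = 0 := by
    intro π n
    induction n with
    | zero =>
      intro a ha
      rw [pow_zero, Submodule.mem_one] at ha
      obtain ⟨c, rfl⟩ := ha
      rw [Algebra.algebraMap_eq_smul_one, map_smul, hdel1, smul_zero]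
    | succ n ih =>
      intro a ha
      rw [pow_succ'] at ha
      induction ha using Submodule.mul_induction_on' with
      | mem_mul_mem v hv b hb => rw [hdm π v hv, ih b hb, mul_zero, neg_zero]
      | add x _ y _ hx hy => rw [map_add, hx, hy, add_zero]
  refine ⟨{
    ev := ev
    del := del
    e := fun π => psymF p F π.1.1
    le := VF_mono p K F (Nat.le_succ d)
    e_mem := fun π => Submodule.subset_span
      ⟨π.1.1, π.1.2.2.1.ne_zero, π.1.2.2.2.le, rfl⟩
    del_mul := hdm
    del_one := hdel1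
    del_e := fun π n a _ => hdel3 π a
    del_e_ne := ?_
    ev_mem := ?_
    ev_surj := ?_
    dec := fun n x hx => decO p h1 hD d n x hx
    ker := ?_ }⟩
  · intro π ρ hπρ n a ha
    rw [hdel2 ρ π.1.1 (RSO_not_dvd_pl π.1 ρ.1 (fun h => hπρ (Subtype.ext h))) a,
      hdz ρ n a ha, mul_zero, neg_zero]
  · intro π v hv
    unfold VF at hv
    induction hv using Submodule.span_induction with
    | mem x hx =>
      obtain ⟨q, hq, hqd, rfl⟩ := hx
      exact ⟨_, hev π q (RSO_not_dvd π.1 hq hqd)⟩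
    | zero => exact ⟨0, by rw [map_zero, map_zero]⟩
    | add x y _ _ hx hy =>
      obtain ⟨a, ha⟩ := hx
      obtain ⟨b, hb⟩ := hy
      exact ⟨a + b, by rw [map_add, map_add, ha, hb]⟩
    | smul c x _ hx =>
      obtain ⟨a, ha⟩ := hx
      exact ⟨c • a, by rw [map_smul, map_smul, ha]⟩
  · intro π w
    obtain ⟨q, hq, hqd, rfl⟩ := rcls_surj p π.1 w
    exact ⟨psymF p F q, Submodule.subset_span ⟨q, hq, hqd, rfl⟩,
      hev π q (RSO_not_dvd π.1 hq hqd)⟩
  · intro π n a ha h0
    exact kerO p h1 d π (ev π) (fun q hq hqd => hev π q (RSO_not_dvd π.1 hq hqd)) n a ha h0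

end Pool.Agent.KRc
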