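import Pool.Agent.KRc.Jst
import Pool.Agent.KRc.Evo
import Pool.Agent.KRc.Kei
import Pool.Agent.KRat.Base
import Pool.Agent.KRat.Gen
import Pool.Agent.KRat.ResD

/-!
Row ZRO: the bottom of the filtration for the fields `F`.
-/

set_option autoImplicit false

namespace Pool.Agent.KRc

open Finsupp Pool.Agent.KMil Pool.Agent.KRat Pool.Agent.KRb Polynomial

universe u

variable {K : Type u} [Field K] {F : Type u} [Field F] [Algebra (RatFunc K) F]

theorem kos_zeroO (p : ℕ) [Fact p.Prime] (h1 : ∃ c : K, c ^ p = -1)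
    (hE : ∀ (d : ℕ) (π : Pl K d), ExtF p (AdjoinRoot π.1)) (hone : ∃ c : K, GoodPl F (X - C c))
    (B : Set (KM p F)) (hB : LinearIndependent (ZMod p) (Subtype.val : B → KM p F))
    (hs : Submodule.span (ZMod p) B = VF p K F 0) :
    Kos (ZMod p) (Subtype.val : B → KM p F) := by
  classical
  obtain ⟨c0, hc0⟩ := hone
  let ρ : Pl K 1 := ⟨X - C c0, monic_X_sub_C c0, irreducible_X_sub_C c0, natDegree_X_sub_C c0⟩
  let π : GP K F 1 := ⟨ρ, hc0⟩
  obtain ⟨ev, -, hev, -⟩ := exists_ev_delO p h1 (d := 1) π (hE 1 ρ)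
  have hsp : sp (ZMod p) (Subtype.val : B → KM p F) = VF p K F 0 := by
    unfold sp
    rw [Subtype.range_coe, hs]
  have hdvd : ∀ q : K[X], q ≠ 0 → q.natDegree ≤ 0 → ¬ π.1.1 ∣ q := by
    intro q hq hqd hdiv
    have h2 := Polynomial.natDegree_le_of_dvd hdiv hq
    have h3 : π.1.1.natDegree = 1 := π.1.2.2.2
    omega
  have hev0 : ∀ q : K[X], q ≠ 0 → q.natDegree ≤ 0 →
      ev (psymF p F q) = ExteriorAlgebra.ι (ZMod p) (rcls p π.1 q) := fun q hq hqd =>
    hev q (hdvd q hq hqd)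
  have hmem : ∀ x ∈ VF p K F 0, ∃ w, ev x = ExteriorAlgebra.ι (ZMod p) w := by
    intro x hx
    unfold VF at hx
    induction hx using Submodule.span_induction with
    | mem x hx =>
      obtain ⟨q, hq, hqd, rfl⟩ := hx
      exact ⟨_, hev0 q hq hqd⟩
    | zero => exact ⟨0, by rw [map_zero, map_zero]⟩
    | add x y _ _ ihx ihy =>
      obtain ⟨w, hw⟩ := ihx
      obtain ⟨w', hw'⟩ := ihy
      exact ⟨w + w', by rw [map_add, map_add, hw, hw']⟩
    | smul c x _ ih =>
      obtain ⟨w, hw⟩ := ih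
      exact ⟨c • w, by rw [map_smul, map_smul, hw]⟩
  have hω : ∀ i : B, ∃ w, ev (i : KM p F) = ExteriorAlgebra.ι (ZMod p) w := fun i =>
    hmem _ (by rw [← hs]; exact Submodule.subset_span i.2)
  choose ω hω' using hω
  refine base (f := ZMod p) (Subtype.val : B → KM p F) ?_ ev ω hω' ?_ ?_
  · rw [hsp]
    have h3 : Anti ((KMn p F 1 : Submodule (ZMod p) _) : Set (KM p F)) := by
      refine anti_KMF p ?_
      obtain ⟨c, hc⟩ := h1
      exact ⟨algebraMap (RatFunc K) F (algebraMap K (RatFunc K) c), by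
        rw [← map_pow, ← map_pow, hc, map_neg, map_neg, map_one, map_one]⟩
    have h4 := VF_le p K F 0
    exact ⟨fun x hx => h3.1 x (h4 hx), fun x hx y hy => h3.2 x (h4 hx) y (h4 hy)⟩
  · intro w
    obtain ⟨q, hq, hqd, rfl⟩ := rcls_surj p (d := 0) π.1 w
    have h5 : psymF p F q ∈ Submodule.span (ZMod p) (Set.range (Subtype.val : B → _)) := by
      rw [Subtype.range_coe, hs]
      exact Submodule.subset_span ⟨q, hq, hqd, rfl⟩
    obtain ⟨c, hc⟩ := Finsupp.mem_span_range_iff_exists_finsupp.1 h5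
    refine ⟨c, ?_⟩
    have h6 := hev0 q hq hqd
    rw [← hc] at h6
    apply (ExteriorAlgebra.ι_inj (R := ZMod p) _ _).1
    rw [← h6]
    simp only [Finsupp.sum, map_sum, map_smul, hω']
  · intro n a ha h0
    rw [hsp] at ha
    exact injO p h1 π ev hev0 n a ha h0

end Pool.Agent.KRc
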