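import Pool.Agent.KRc.Jst
import Pool.Agent.KRc.Rso
import Pool.Agent.KRc.Zro
import Pool.Agent.KRat.Main

/-!
Row ALO: the odd case (adapted from KRat/Main.lean).
-/

set_option autoImplicit false

namespace Pool.Agent.KRc

open Finsupp Pool.Agent.KMil Pool.Agent.KRat Pool.Agent.KRb Polynomial

universe u

variable {K : Type u} [Field K] {F : Type u} [Field F] [Algebra (RatFunc K) F]

theorem kos_allO (p : ℕ) [Fact p.Prime] (h1 : ∃ c : K, c ^ p = -1) (hD : DichF p K F)
    (hone : ∃ c : K, GoodPl F (X - C c))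
    (hE : ∀ (d : ℕ) (π : Pl K d), ExtF p (AdjoinRoot π.1)) (d : ℕ) :
    ∀ B : Set (KM p F), LinearIndependent (ZMod p) (Subtype.val : B → KM p F) →
      Submodule.span (ZMod p) B = VF p K F d → Kos (ZMod p) (Subtype.val : B → KM p F) := by
  have h1F : ∃ c : F, c ^ p = -1 := by
    obtain ⟨c, hc⟩ := h1
    refine ⟨algebraMap (RatFunc K) F (algebraMap K (RatFunc K) c), ?_⟩
    rw [← map_pow, ← map_pow, hc, map_neg, map_neg, map_one, map_one]
  induction d with
  | zero =>
    intro B hB hs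
    exact kos_zeroO p h1 hE hone B hB hs
  | succ d ih =>
    intro B hB hs
    obtain ⟨B0, hB0, hs0, hl0⟩ := exists_basis_set (VF p K F d)
    have hK := ih B0 hl0 hs0
    have e0 : sp (ZMod p) (Subtype.val : B0 → KM p F) = VF p K F d := by
      rw [sp, Subtype.range_coe, hs0]
    have e1 : sp (ZMod p) (Subtype.val : B → KM p F) = VF p K F (d + 1) := by
      rw [sp, Subtype.range_coe, hs]
    have hA := anti_KMF (F := F) p h1F
    have hle : ∀ i : B0, (i : KM p F) ∈ KMn p F 1 :=
      fun i => VF_le p K F d (hB0 i.2)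
    refine zigzag (f := ZMod p) (Subtype.val : B0 → KM p F) Subtype.val hB ?_ ?_ ?_
    · intro i
      rw [e1]
      exact VF_mono p K F (Nat.le_succ d) (hB0 i.2)
    · intro i j
      exact hA.2 _ (hle i) _ (hle j)
    · intro j
      obtain ⟨R⟩ := exists_resO (F := F) p h1 hD hE d
      rw [← e0, ← e1] at R
      refine columns (f := ZMod p) _ _ R ⟨fun x hx => hA.1 x ?_, fun x hx y hy => hA.2 x ?_ y ?_⟩ hK j
      · rw [e1] at hx
        exact VF_le p K F _ hx
      · rw [e1] at hx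
        exact VF_le p K F _ hx
      · rw [e1] at hy
        exact VF_le p K F _ hy

/-! ## Row ALO -/
theorem koszulO (p : ℕ) [Fact p.Prime] (h1 : ∃ c : K, c ^ p = -1) (hF : GenF p K F)
    (hD : DichF p K F) (hone : ∃ c : K, GoodPl F (X - C c))
    (hE : ∀ (E : Type u) [Field E] [Algebra K E] [FiniteDimensional K E] (a : E), a ≠ 0 → a ≠ 1 →
      ∃ i j : ℕ, ¬ (p ∣ i ∧ p ∣ j) ∧ ∃ c : E, a ^ i * (1 - a) ^ j = c ^ p) :
    IsKoszul (KMn p F) := by
  have hE' : ∀ (d : ℕ) (π : Pl K d), ExtF p (AdjoinRoot π.1) := by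
    intro d π
    have : FiniteDimensional K (AdjoinRoot π.1) :=
      (AdjoinRoot.powerBasis π.2.2.1.ne_zero).finite
    exact hE (AdjoinRoot π.1)
  obtain ⟨B, hB, hs, hK⟩ := union (VF p K F) (VF_mono p K F) (kos_allO p h1 hD hone hE')
  rw [iSup_VF p K F hF] at hs
  refine koszul_of_kos ⟨one_ne p, KM_zero p, fun m n x hx y hy => SetLike.GradedMul.mul_mem hx hy,
    DirectSum.Decomposition.isInternal _⟩ (KMn_powF p F) B hB hs hK

end Pool.Agent.KRc
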