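import Pool.Agent.KRc.Defs
import Pool.Agent.KRb.Step
import Pool.Agent.KRb.GoodK
import Pool.Agent.KRb.DetK
import Pool.Agent.KRb.Kmt

/-!
Row EXT of the board KRc (MP_da2a57_al): exactness of the Koszul complex with coefficients for a
basis of the span of the symbols in `F` of the polynomials of bounded degree.
-/

set_option autoImplicit false

namespace Pool.Agent.KRc

open Finsupp Pool.Agent.KMil Pool.Agent.KRat Pool.Agent.KRb Polynomial

universe u

private theorem ext_lc {I : Type*} {A : Type*} [Ring A] [Algebra (ZMod 2) A] {B : Type*} [Ring B]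
    [Algebra (ZMod 2) B] (ev : A →ₐ[ZMod 2] B) (v : I → A) (x : I →₀ ZMod 2) :
    lc (fun i => ev (v i)) x = ev (lc v x) := by
  unfold lc
  rw [Finsupp.sum, Finsupp.sum, map_sum]
  exact Finset.sum_congr rfl fun i _ => (map_smul ev _ _).symm

private theorem ext_ex {A : Type*} [Ring A] [Algebra (ZMod 2) A] (B0 : Set A) (x : A)
    (hx : x ∈ Submodule.span (ZMod 2) B0) :
    ∃ c : B0 →₀ ZMod 2, lc (Subtype.val : B0 → A) c = x := by
  rw [← Subtype.range_coe (s := B0), Finsupp.mem_span_range_iff_exists_finsupp] at hx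
  obtain ⟨c, hc⟩ := hx
  exact ⟨c, hc⟩

private theorem ext_mem {A : Type*} [Ring A] [Algebra (ZMod 2) A] (B0 : Set A)
    (c : B0 →₀ ZMod 2) : lc (Subtype.val : B0 → A) c ∈ Submodule.span (ZMod 2) B0 := by
  unfold lc
  exact Submodule.sum_mem _ fun i _ =>
    Submodule.smul_mem _ _ (Submodule.subset_span i.2)

variable {K : Type u} [Field K] {F : Type u} [Field F] [Algebra (RatFunc K) F]

private theorem ext_VF_le (d : ℕ) : VF 2 K F d ≤ KMn 2 F 1 := by
  unfold VF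
  refine Submodule.span_le.2 ?_
  rintro x ⟨q, _, _, rfl⟩
  unfold psymF
  split_ifs with h
  · exact Submodule.zero_mem _
  · exact sym_mem 2 _

private theorem ext_neg_one : psymF 2 F (-1 : K[X]) = rm F := by
  have hj : jF F (-1 : K[X]) = -1 := by
    unfold jF
    rw [map_neg, map_one, map_neg, map_one]
  have h0 : ¬ jF F (-1 : K[X]) = 0 := by
    rw [hj]
    exact neg_ne_zero.mpr one_ne_zero
  unfold psymF
  rw [dif_neg h0]
  unfold rm
  congr 1
  apply Units.ext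
  rw [Units.val_mk0, Units.val_neg, Units.val_one, hj]

private theorem ext_rm_rm (h : ∃ s t : K, s ^ 2 + t ^ 2 = -1) :
    psymF 2 F (-1 : K[X]) * psymF 2 F (-1 : K[X]) = 0 := by
  obtain ⟨s, t, hst⟩ := h
  rw [ext_neg_one]
  refine rm_rm (-(jF F (C s)) ^ 2) (-(jF F (C t)) ^ 2) (jF F (C s)) (jF F (C t)) rfl rfl ?_
  unfold jF
  rw [← neg_add, ← map_pow, ← map_pow, ← map_pow, ← map_pow, ← map_pow, ← map_pow, ← map_add,
    ← map_add, ← map_add, hst, map_neg, map_one, map_neg, map_neg, map_one, map_one, neg_neg]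

theorem exB_VF (hE : ∀ (d : ℕ) (π : Pl K d), H2 K (AdjoinRoot π.1)) (d : ℕ) (e : ℕ) (π : Pl K e)
    (B0 : Set (KM 2 F)) (hs : Submodule.span (ZMod 2) B0 = VF 2 K F d)
    (ev : KM 2 F →ₐ[ZMod 2] KM 2 (AdjoinRoot π.1))
    (hev : ∀ x ∈ VF 2 K F d, ev x ∈ KMn 2 (AdjoinRoot π.1) 1)
    (hsurj : ∀ w ∈ KMn 2 (AdjoinRoot π.1) 1, ∃ x ∈ VF 2 K F d, ev x = w)
    (h1 : ev (psymF 2 F (-1 : K[X])) = rm (AdjoinRoot π.1)) :
    ExB (Subtype.val : B0 → KM 2 F) (fun i => ev (i : KM 2 F)) (KMn 2 (AdjoinRoot π.1) 1) := by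
  have hB : ∀ i : B0, (i : KM 2 F) ∈ VF 2 K F d := fun i =>
    hs ▸ Submodule.subset_span i.2
  have hle : ∀ x ∈ VF 2 K F d, x ∈ KMn 2 F 1 := fun x hx => ext_VF_le d hx
  have hlc : ∀ c : B0 →₀ ZMod 2,
      lc (Subtype.val : B0 → KM 2 F) c ∈ KMn 2 F 1 := fun c =>
    hle _ (hs ▸ ext_mem B0 c)
  have hm1 : psymF 2 F (-1 : K[X]) ∈ VF 2 K F d := by
    unfold VF
    exact Submodule.subset_span ⟨-1, neg_ne_zero.mpr one_ne_zero, by simp, rfl⟩
  obtain ⟨ρ, hρ⟩ := ext_ex B0 (psymF 2 F (-1 : K[X])) (by rw [hs]; exact hm1)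
  refine exB (Subtype.val : B0 → KM 2 F) (fun i j => ?_) ev
    (KMn 2 (AdjoinRoot π.1) 1) (rm (AdjoinRoot π.1)) (good_KM (k := K) (hE e π)) (fun i => ?_)
    (fun w hw => ?_) ρ ?_ (fun x => ?_) ?_
  · exact km_comm _ (hle _ (hB i)) _ (hle _ (hB j))
  · exact hev _ (hB i)
  · obtain ⟨x, hx, hxw⟩ := hsurj w hw
    obtain ⟨c, hc⟩ := ext_ex B0 x (by rw [hs]; exact hx)
    exact ⟨c, by rw [ext_lc, hc, hxw]⟩
  · rw [ext_lc, hρ, h1]
  · rw [hρ, ext_neg_one]
    exact km_sq _ (hlc x)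
  · rcases det_KM (k := K) (hE e π) with h | ⟨h, h'⟩
    · exact Or.inl h
    · exact Or.inr ⟨h, by rw [hρ]; exact ext_rm_rm h'⟩

end Pool.Agent.KRc
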