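import Pool.Agent.KRc.Evt
import Pool.Agent.KRc.Dec
import Pool.Agent.KRc.Kei
import Pool.Agent.KRb.Rst

/-!
Row RST: the residue data.
-/

set_option autoImplicit false

namespace Pool.Agent.KRc

open Finsupp Pool.Agent.KMil Pool.Agent.KRat Pool.Agent.KRb Polynomial

universe u

variable {K : Type u} [Field K] {F : Type u} [Field F] [Algebra (RatFunc K) F]

theorem exists_resT (hD : DichF 2 K F) (d : ℕ) :
    ∃ R : ResB (VF 2 K F d) (VF 2 K F (d + 1)) (GP K F (d + 1))
      (fun π => KM 2 (AdjoinRoot π.1.1)) (fun π => KMn 2 (AdjoinRoot π.1.1) 1),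
      ∀ π, R.ev π (psymF 2 F (-1 : K[X])) = rm (AdjoinRoot π.1.1) := by
  choose ev del hev hdel1 hdel2 hdel3 using
    fun π : GP K F (d + 1) => exists_ev_delT π
  have hdm : ∀ π, ∀ v ∈ VF 2 K F d, ∀ a, del π (v * a) = ev π v * del π a := by
    intro π v hv a
    unfold VF at hv
    induction hv using Submodule.span_induction with
    | mem x hx =>
      obtain ⟨q, hq, hqd, rfl⟩ := hx
      exact hdel2 π q (ResDB_not_dvd π.1 hq hqd) a
    | zero => simp
    | add x y _ _ hx hy =>
      rw [add_mul, map_add, map_add, hx, hy, add_mul]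
    | smul c x _ hx =>
      rw [smul_mul_assoc, map_smul, map_smul, hx, smul_mul_assoc]
  have hdz : ∀ π, ∀ n, ∀ a ∈ VF 2 K F d ^ n, del π a = 0 := by
    intro π n
    induction n with
    | zero =>
      intro a ha
      rw [pow_zero, Submodule.mem_one] at ha
      obtain ⟨c, rfl⟩ := ha
      rw [Algebra.algebraMap_eq_smul_one, map_smul, hdel1, smul_zero]
    | succ n ih =>
      intro a ha
      rw [pow_succ'] at ha
      induction ha using Submodule.mul_induction_on' with
      | mem_mul_mem v hv b hb => rw [hdm π v hv, ih b hb, mul_zero]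
      | add x _ y _ hx hy => rw [map_add, hx, hy, add_zero]
  refine ⟨{
    ev := ev
    del := del
    e := fun π => psymF 2 F π.1.1
    le := by
      refine Submodule.span_mono ?_
      rintro x ⟨q, hq, hqd, rfl⟩
      exact ⟨q, hq, hqd.trans (Nat.le_succ d), rfl⟩
    e_mem := fun π => Submodule.subset_span ⟨π.1.1, π.1.2.1.ne_zero, π.1.2.2.2.le, rfl⟩
    del_mul := hdm
    del_one := hdel1
    del_e := ?_
    del_e_ne := ?_
    ev_mem := ?_
    ev_surj := ?_
    dec := fun n x hx => decT hD d n x hx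
    ker := ?_ }, ?_⟩
  · intro π n a ha
    rw [hdel3 π a, hdz π n a ha, mul_zero, add_zero]
  · intro π ρ hπρ n a ha
    have h2 : π.1 ≠ ρ.1 := fun h => hπρ (Subtype.ext h)
    rw [hdel2 ρ π.1.1 (ResDB_not_dvd_pl π.1 ρ.1 h2) a, hdz ρ n a ha, mul_zero]
  · intro π v hv
    unfold VF at hv
    induction hv using Submodule.span_induction with
    | mem x hx =>
      obtain ⟨q, hq, hqd, rfl⟩ := hx
      rw [hev π q (ResDB_not_dvd π.1 hq hqd)]
      exact rsig_mem π.1 q
    | zero =>
      rw [map_zero]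
      exact Submodule.zero_mem _
    | add x y _ _ hx hy =>
      rw [map_add]
      exact Submodule.add_mem _ hx hy
    | smul c x _ hx =>
      rw [map_smul]
      exact Submodule.smul_mem _ c hx
  · intro π w hw
    obtain ⟨q, hq, hqd, rfl⟩ := rsig_surj π.1 w hw
    exact ⟨psymF 2 F q, Submodule.subset_span ⟨q, hq, hqd, rfl⟩,
      hev π q (ResDB_not_dvd π.1 hq hqd)⟩
  · intro π n a ha h0
    exact kerT d π (ev π) (fun q hq hqd => hev π q (ResDB_not_dvd π.1 hq hqd)) n a ha h0
  · intro π
    have h1 : ¬ π.1.1 ∣ (-1 : K[X]) := ResDB_not_dvd π.1 (neg_ne_zero.2 one_ne_zero) (by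
      rw [natDegree_neg, natDegree_one]
      exact Nat.zero_le d)
    show ev π (psymF 2 F (-1 : K[X])) = rm (AdjoinRoot π.1.1)
    rw [hev π (-1) h1, rsig_neg_one]

end Pool.Agent.KRc
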