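import Pool.Agent.KRc.Spc
import Pool.Agent.KRb.Kmt
import Pool.Agent.KRb.Rsg

/-!
Row EVT: the specialisation and the residue at one good place (`p = 2`).
-/

set_option autoImplicit false

namespace Pool.Agent.KRc

open Finsupp Pool.Agent.KMil Pool.Agent.KRat Pool.Agent.KRb Polynomial

universe u

variable {K : Type u} [Field K] {F : Type u} [Field F] [Algebra (RatFunc K) F]

/-- the lower triangular matrices -/
private def lowT (R : Type*) [Ring R] [Algebra (ZMod 2) R] :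
    Subalgebra (ZMod 2) (Matrix (Fin 2) (Fin 2) R) where
  carrier := {A | A 0 1 = 0}
  mul_mem' := by
    rintro A B hA hB
    show (A * B) 0 1 = 0
    have hA' : A 0 1 = 0 := hA
    have hB' : B 0 1 = 0 := hB
    rw [Matrix.mul_apply, Fin.sum_univ_two, hA', hB', mul_zero, zero_mul, add_zero]
  add_mem' := by
    rintro A B hA hB
    show (A + B) 0 1 = 0
    have hA' : A 0 1 = 0 := hA
    have hB' : B 0 1 = 0 := hB
    rw [Matrix.add_apply, hA', hB', add_zero]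
  algebraMap_mem' := by
    intro r
    show (algebraMap (ZMod 2) (Matrix (Fin 2) (Fin 2) R) r) 0 1 = 0
    rw [Matrix.algebraMap_matrix_apply, if_neg (by decide)]

/-- the upper left entry is multiplicative on lower triangular matrices -/
private def lowE (R : Type*) [Ring R] [Algebra (ZMod 2) R] : lowT R →ₐ[ZMod 2] R where
  toFun A := (A : Matrix (Fin 2) (Fin 2) R) 0 0
  map_one' := by
    show (1 : Matrix (Fin 2) (Fin 2) R) 0 0 = 1
    exact Matrix.one_apply_eq _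
  map_mul' := by
    rintro ⟨A, hA⟩ ⟨B, hB⟩
    show (A * B) 0 0 = A 0 0 * B 0 0
    have hA' : A 0 1 = 0 := hA
    rw [Matrix.mul_apply, Fin.sum_univ_two, hA', zero_mul, add_zero]
  map_zero' := rfl
  map_add' := by
    rintro ⟨A, hA⟩ ⟨B, hB⟩
    rfl
  commutes' := by
    intro r
    show (algebraMap (ZMod 2) (Matrix (Fin 2) (Fin 2) R) r) 0 0 = _
    rw [Matrix.algebraMap_matrix_apply, if_pos rfl]

theorem exists_ev_delT {d : ℕ} (π : GP K F d) :
    ∃ (ev : KM 2 F →ₐ[ZMod 2] KM 2 (AdjoinRoot π.1.1))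
      (del : KM 2 F →ₗ[ZMod 2] KM 2 (AdjoinRoot π.1.1)),
      (∀ q : K[X], ¬ π.1.1 ∣ q → ev (psymF 2 F q) = rsig π.1 (sym 2) q) ∧
      del 1 = 0 ∧
      (∀ q : K[X], ¬ π.1.1 ∣ q → ∀ a, del (psymF 2 F q * a) = ev (psymF 2 F q) * del a) ∧
      (∀ a, del (psymF 2 F π.1.1 * a) = ev a + rm (AdjoinRoot π.1.1) * del a) := by
  classical
  have : Fact (Irreducible π.1.1) := ⟨π.1.2.2.1⟩
  have hrm : rm (AdjoinRoot π.1.1) ∈ KMn 2 (AdjoinRoot π.1.1) 1 := sym_mem 2 (-1)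
  have h2 : ∀ z : KM 2 (AdjoinRoot π.1.1), z + z = 0 := by
    intro z
    have h := add_smul (1 : ZMod 2) 1 z
    rw [one_smul, show (1 : ZMod 2) + 1 = 0 from rfl, zero_smul] at h
    exact h.symm
  have hneg : ∀ z : KM 2 (AdjoinRoot π.1.1), -z = z := fun z =>
    neg_eq_of_add_eq_zero_left (h2 z)
  obtain ⟨P0, hP0⟩ : ∃ P0 : lowT (KM 2 (AdjoinRoot π.1.1)),
    (P0 : Matrix (Fin 2) (Fin 2) (KM 2 (AdjoinRoot π.1.1))) = !![0, 0; 1, rm (AdjoinRoot π.1.1)] :=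
    ⟨⟨!![0, 0; 1, rm (AdjoinRoot π.1.1)], rfl⟩, rfl⟩
  obtain ⟨σ, hσ⟩ : ∃ σ : (AdjoinRoot π.1.1)ˣ → lowT (KM 2 (AdjoinRoot π.1.1)),
      ∀ a, (σ a : Matrix (Fin 2) (Fin 2) (KM 2 (AdjoinRoot π.1.1))) =
        Matrix.scalar (Fin 2) (sym 2 a) :=
    ⟨fun a => ⟨Matrix.scalar (Fin 2) (sym 2 a), by
      show Matrix.scalar (Fin 2) (sym 2 a) 0 1 = 0
      rw [Matrix.scalar_apply]
      exact Matrix.diagonal_apply_ne _ (by decide)⟩, fun a => rfl⟩
  obtain ⟨S, hS0, hS⟩ := exists_specF 2 π.1.1 π.2 σ P0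
    (fun a b => by
      apply Subtype.ext
      rw [Subalgebra.coe_add, hσ, hσ, hσ, sym_mul, map_add])
    (fun a b h => by
      apply Subtype.ext
      rw [Subalgebra.coe_mul, hσ, hσ, ← map_mul, sym_steinberg 2 a b h, map_zero,
        Subalgebra.coe_zero])
    (fun a => by
      have hc := km_comm (sym 2 a) (sym_mem 2 a) (rm (AdjoinRoot π.1.1)) hrm
      apply Subtype.ext
      rw [Subalgebra.coe_neg, Subalgebra.coe_mul, Subalgebra.coe_mul, hσ, hP0]
      ext i j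
      fin_cases i <;> fin_cases j <;>
        simp [Matrix.mul_apply, Fin.sum_univ_two, Matrix.scalar_apply, hc, hneg])
    (by
      apply Subtype.ext
      rw [Subalgebra.coe_mul, Subalgebra.coe_mul, hσ, hP0]
      ext i j
      fin_cases i <;> fin_cases j <;>
        simp [Matrix.mul_apply, Fin.sum_univ_two, Matrix.scalar_apply, rm])
  have hSq : ∀ q : K[X], ¬ π.1.1 ∣ q →
      ((S (psymF 2 F q) : lowT (KM 2 (AdjoinRoot π.1.1))) :
        Matrix (Fin 2) (Fin 2) (KM 2 (AdjoinRoot π.1.1))) =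
      Matrix.scalar (Fin 2) (rsig π.1 (sym 2) q) := by
    intro q hq
    have h0 : AdjoinRoot.mk π.1.1 q ≠ 0 := by
      rwa [Ne, AdjoinRoot.mk_eq_zero]
    rw [hS q (Units.mk0 _ h0) rfl, rsg_eq π.1 _ q h0, hσ]
  obtain ⟨ev, hev⟩ : ∃ ev : KM 2 F →ₐ[ZMod 2] KM 2 (AdjoinRoot π.1.1),
      ∀ a, ev a = (S a : Matrix (Fin 2) (Fin 2) (KM 2 (AdjoinRoot π.1.1))) 0 0 :=
    ⟨(lowE _).comp S, fun a => rfl⟩
  obtain ⟨del, hdel⟩ : ∃ del : KM 2 F →ₗ[ZMod 2] KM 2 (AdjoinRoot π.1.1),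
      ∀ a, del a = (S a : Matrix (Fin 2) (Fin 2) (KM 2 (AdjoinRoot π.1.1))) 1 0 :=
    ⟨{ toFun := fun a => (S a : Matrix (Fin 2) (Fin 2) (KM 2 (AdjoinRoot π.1.1))) 1 0
       map_add' := fun a b => by rw [map_add, Subalgebra.coe_add, Matrix.add_apply]
       map_smul' := fun c a => by
        rw [map_smul, Subalgebra.coe_smul, Matrix.smul_apply, RingHom.id_apply] },
      fun a => rfl⟩
  have hevq : ∀ q : K[X], ¬ π.1.1 ∣ q → ev (psymF 2 F q) = rsig π.1 (sym 2) q := by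
    intro q hq
    rw [hev, hSq q hq, Matrix.scalar_apply]
    exact Matrix.diagonal_apply_eq _ _
  refine ⟨ev, del, hevq, ?_, ?_, ?_⟩
  · rw [hdel, map_one]
    exact Matrix.one_apply_ne (by decide)
  · intro q hq a
    rw [hevq q hq, hdel, hdel, map_mul, Subalgebra.coe_mul, hSq q hq, Matrix.scalar_apply]
    exact Matrix.diagonal_mul _ _ _ _
  · intro a
    rw [hdel, hdel, map_mul, Subalgebra.coe_mul, hS0, hP0, Matrix.mul_apply, Fin.sum_univ_two,
      hev]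
    show (1 : KM 2 (AdjoinRoot π.1.1)) * _ + rm (AdjoinRoot π.1.1) * _ = _
    rw [one_mul]

end Pool.Agent.KRc
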