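import Pool.Agent.KRc.Jst
import Pool.Agent.KRc.Evt
import Pool.Agent.KRc.Ext
import Pool.Agent.KRc.Kei
import Pool.Agent.KRb.Base
import Pool.Agent.KRb.Rsg
import Pool.Agent.KRb.Kmt

/-!
Row ZRT: the bottom of the filtration.
-/

set_option autoImplicit false

namespace Pool.Agent.KRc

open Finsupp Pool.Agent.KMil Pool.Agent.KRat Pool.Agent.KRb Polynomial

universe u

variable {K : Type u} [Field K] {F : Type u} [Field F] [Algebra (RatFunc K) F]

theorem kos_zeroT (hE : ∀ (d : ℕ) (π : Pl K d), H2 K (AdjoinRoot π.1))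
    (hone : ∃ c : K, GoodPl F (X - C c)) (B : Set (KM 2 F))
    (hB : LinearIndependent (ZMod 2) (Subtype.val : B → KM 2 F))
    (hs : Submodule.span (ZMod 2) B = VF 2 K F 0) :
    Kos (ZMod 2) (Subtype.val : B → KM 2 F) := by
  classical
  obtain ⟨c, hc⟩ := hone
  obtain ⟨π, hπ⟩ : ∃ π : GP K F 1, π.1.1 = X - C c :=
    ⟨⟨⟨X - C c, monic_X_sub_C c, irreducible_X_sub_C c, natDegree_X_sub_C c⟩, hc⟩, rfl⟩
  obtain ⟨ev, -, hev, -⟩ := exists_ev_delT π
  have hsp : sp (ZMod 2) (Subtype.val : B → KM 2 F) = VF 2 K F 0 := by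
    unfold sp
    rw [Subtype.range_coe, hs]
  have hdvd : ∀ q : K[X], q ≠ 0 → q.natDegree ≤ 0 → ¬ π.1.1 ∣ q := by
    intro q hq hqd hdiv
    have h2 := natDegree_le_of_dvd hdiv hq
    rw [hπ, natDegree_X_sub_C] at h2
    omega
  have hev0 : ∀ q : K[X], q ≠ 0 → q.natDegree ≤ 0 →
      ev (psymF 2 F q) = rsig π.1 (sym 2) q := fun q hq hqd =>
    hev q (hdvd q hq hqd)
  have hmem : ∀ x ∈ VF 2 K F 0, ev x ∈ KMn 2 (AdjoinRoot π.1.1) 1 := by
    intro x hx
    unfold VF at hx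
    induction hx using Submodule.span_induction with
    | mem x hx =>
      obtain ⟨q, hq, hqd, rfl⟩ := hx
      rw [hev0 q hq hqd]
      exact rsig_mem π.1 q
    | zero => rw [map_zero]; exact Submodule.zero_mem _
    | add x y _ _ ihx ihy => rw [map_add]; exact Submodule.add_mem _ ihx ihy
    | smul c x _ ih => rw [map_smul]; exact Submodule.smul_mem _ c ih
  have hsurj : ∀ w ∈ KMn 2 (AdjoinRoot π.1.1) 1, ∃ x ∈ VF 2 K F 0, ev x = w := by
    intro w hw
    obtain ⟨q, hq, hqd, rfl⟩ := rsig_surj (d := 0) π.1 w hw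
    exact ⟨psymF 2 F q, Submodule.subset_span ⟨q, hq, hqd, rfl⟩, hev0 q hq hqd⟩
  have h1 : ev (psymF 2 F (-1 : K[X])) = rm (AdjoinRoot π.1.1) := by
    rw [hev0 (-1) (neg_ne_zero.2 one_ne_zero) (by rw [natDegree_neg, natDegree_one]),
      rsig_neg_one]
  refine baseB (Subtype.val : B → KM 2 F) ?_ (KMn 2 (AdjoinRoot π.1.1) 1) ev ?_ ?_ ?_ ?_
  · rw [hsp]
    intro x hx y hy
    exact km_comm x (VF_le 2 K F 0 hx) y (VF_le 2 K F 0 hy)
  · intro i
    exact hmem _ (by rw [← hs]; exact Submodule.subset_span i.2)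
  · rw [hsp]
    exact hsurj
  · exact exB_VF hE 0 1 π.1 B hs ev hmem hsurj h1
  · intro n a ha h0
    rw [hsp] at ha
    exact injT π ev hev0 n a ha h0

end Pool.Agent.KRc
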