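import Pool.Agent.KRc.Jst
import Pool.Agent.KRc.Rst
import Pool.Agent.KRc.Zrt
import Pool.Agent.KRc.Ext
import Pool.Agent.KRb.Zero
import Pool.Agent.KRb.Col
import Pool.Agent.KRb.Kmt
import Pool.Agent.KRat.Main

/-!
Row ALT: the induction on the degree, and the theorem for `p = 2`.
-/

set_option autoImplicit false

namespace Pool.Agent.KRc

open Finsupp Pool.Agent.KMil Pool.Agent.KRat Pool.Agent.KRb Polynomial

universe u

variable {K : Type u} [Field K] {F : Type u} [Field F] [Algebra (RatFunc K) F]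

theorem kos_allT (hD : DichF 2 K F) (hone : ∃ c : K, GoodPl F (X - C c))
    (hE : ∀ (d : ℕ) (π : Pl K d), H2 K (AdjoinRoot π.1)) (d : ℕ) :
    ∀ B : Set (KM 2 F),
      LinearIndependent (ZMod 2) (Subtype.val : B → KM 2 F) →
      Submodule.span (ZMod 2) B = VF 2 K F d →
      Kos (ZMod 2) (Subtype.val : B → KM 2 F) := by
  induction d with
  | zero =>
    intro B hB hs
    exact kos_zeroT hE hone B hB hs
  | succ d ih =>
    intro B hB hs
    obtain ⟨B0, hB0, hs0, hl0⟩ := exists_basis_set (VF 2 K F d)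
    have hK := ih B0 hl0 hs0
    have e0 : sp (ZMod 2) (Subtype.val : B0 → KM 2 F) = VF 2 K F d := by
      rw [sp, Subtype.range_coe, hs0]
    have e1 : sp (ZMod 2) (Subtype.val : B → KM 2 F) = VF 2 K F (d + 1) := by
      rw [sp, Subtype.range_coe, hs]
    have hle : ∀ i : B0, (i : KM 2 F) ∈ KMn 2 F 1 :=
      fun i => VF_le 2 K F d (hB0 i.2)
    have hres : ∀ V V' : Submodule (ZMod 2) (KM 2 F), V = VF 2 K F d →
        V' = VF 2 K F (d + 1) →
        ∃ R : ResB V V' (GP K F (d + 1)) (fun π => KM 2 (AdjoinRoot π.1.1))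
          (fun π => KMn 2 (AdjoinRoot π.1.1) 1),
          ∀ π, R.ev π (psymF 2 F (-1 : K[X])) = rm (AdjoinRoot π.1.1) := by
      rintro _ _ rfl rfl
      exact exists_resT hD d
    refine zigzag (f := ZMod 2) (Subtype.val : B0 → KM 2 F) Subtype.val hB ?_ ?_ ?_
    · intro i
      rw [e1]
      exact VF_mono 2 K F (Nat.le_succ d) (hB0 i.2)
    · intro i j
      rw [km_comm _ (hle i) _ (hle j), ← two_smul (ZMod 2)]
      have h2 : (2 : ZMod 2) = 0 := rfl
      rw [h2, zero_smul]
    · intro j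
      obtain ⟨R, hR⟩ := hres _ _ e0 e1
      refine columnsB _ _ R (fun x hx y hy => km_comm x ?_ y ?_) hK (fun π => ?_) j
      · rw [e1] at hx
        exact VF_le 2 K F _ hx
      · rw [e1] at hy
        exact VF_le 2 K F _ hy
      · refine exB_VF hE d (d + 1) π.1 B0 hs0 (R.ev π) (fun x hx => ?_) (fun w hw => ?_) (hR π)
        · exact R.ev_mem π x (by rw [e0]; exact hx)
        · obtain ⟨x, hx, h⟩ := R.ev_surj π w hw
          exact ⟨x, by rw [← e0]; exact hx, h⟩

theorem koszulT (hF : GenF 2 K F) (hD : DichF 2 K F) (hone : ∃ c : K, GoodPl F (X - C c))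
    (hE : ∀ (E : Type u) [Field E] [Algebra K E] [FiniteDimensional K E], H2 K E) :
    IsKoszul (KMn 2 F) := by
  have : Fact (Nat.Prime 2) := ⟨Nat.prime_two⟩
  have hE' : ∀ (d : ℕ) (π : Pl K d), H2 K (AdjoinRoot π.1) := by
    intro d π
    have : FiniteDimensional K (AdjoinRoot π.1) :=
      (AdjoinRoot.powerBasis π.2.2.1.ne_zero).finite
    exact hE (AdjoinRoot π.1)
  obtain ⟨B, hB, hs, hK⟩ := union (VF 2 K F) (VF_mono 2 K F) (kos_allT hD hone hE')
  rw [iSup_VF 2 K F hF] at hs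
  refine koszul_of_kos ⟨one_ne 2, KM_zero 2, fun m n x hx y hy => SetLike.GradedMul.mul_mem hx hy,
    DirectSum.Decomposition.isInternal _⟩ (KMn_powF 2 F) B hB hs hK

end Pool.Agent.KRc
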