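import Pool.Agent.KRc.Defs

/-!
Row GDR: every monic irreducible polynomial is good for `F = K(y)`.
-/

set_option autoImplicit false

namespace Pool.Agent.KRc

open Finsupp Pool.Agent.KMil Pool.Agent.KRat Pool.Agent.KRb Polynomial

universe u

variable {K : Type u} [Field K]

theorem good_ratFunc (π : K[X]) (hm : π.Monic) (hi : Irreducible π) :
    GoodPl (RatFunc K) π := by
  have : Fact (Irreducible π) := ⟨hi⟩
  have hpr : Prime π := hi.prime
  have hπ0 : π ≠ 0 := hi.ne_zero
  let P : Ideal K[X] := Ideal.span {π}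
  have hP : P.IsPrime := (Ideal.span_singleton_prime hπ0).2 hpr
  let M : Submonoid K[X] := P.primeCompl
  have hM : ∀ a : K[X], a ∈ M ↔ ¬ π ∣ a := fun a => by
    change a ∉ P ↔ _
    rw [Ideal.mem_span_singleton]
  let L := Localization M
  let j : K[X] →+* RatFunc K := algebraMap K[X] (RatFunc K)
  have hj : Function.Injective j := IsFractionRing.injective K[X] (RatFunc K)
  have hj0 : ∀ a : K[X], a ≠ 0 → j a ≠ 0 := fun a ha h => ha (hj (h.trans (map_zero j).symm))
  have hMj : ∀ y : M, IsUnit (j y) := fun y => by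
    apply Ne.isUnit
    apply hj0
    intro h
    apply (hM y).1 y.2
    rw [h]
    exact dvd_zero π
  have hMr : ∀ y : M, IsUnit (AdjoinRoot.mk π y) := fun y => by
    apply Ne.isUnit
    intro h
    exact (hM y).1 y.2 (AdjoinRoot.mk_eq_zero.1 h)
  let φ : L →+* RatFunc K := IsLocalization.lift (M := M) (S := L) hMj
  let r0 : L →+* AdjoinRoot π := IsLocalization.lift (M := M) (S := L) hMr
  have hφ : ∀ (a : K[X]) (s : M), φ (IsLocalization.mk' L a s) * j s = j a := by
    intro a s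
    have h := congrArg φ (IsLocalization.mk'_spec L a s)
    rw [map_mul] at h
    have h1 : ∀ x : K[X], φ (algebraMap K[X] L x) = j x := fun x =>
      IsLocalization.lift_eq hMj x
    rw [h1, h1] at h
    exact h
  have hr0 : ∀ (a : K[X]) (s : M), r0 (IsLocalization.mk' L a s) * AdjoinRoot.mk π s =
      AdjoinRoot.mk π a := by
    intro a s
    have h := congrArg r0 (IsLocalization.mk'_spec L a s)
    rw [map_mul] at h
    have h1 : ∀ x : K[X], r0 (algebraMap K[X] L x) = AdjoinRoot.mk π x := fun x =>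
      IsLocalization.lift_eq hMr x
    rw [h1, h1] at h
    exact h
  have hinj : Function.Injective φ := by
    rw [injective_iff_map_eq_zero]
    intro x hx
    obtain ⟨a, s, rfl⟩ := IsLocalization.exists_mk'_eq M x
    have h := hφ a s
    rw [hx, zero_mul] at h
    have h2 : a = 0 := by
      by_contra h3
      exact hj0 a h3 h.symm
    rw [h2, IsLocalization.mk'_zero]
  let e : L ≃+* φ.range := RingEquiv.ofBijective φ.rangeRestrict
    ⟨fun a b h => hinj (congrArg Subtype.val h), φ.rangeRestrict_surjective⟩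
  have he : ∀ x : L, ((e x : φ.range) : RatFunc K) = φ x := fun x => rfl
  let r : φ.range →+* AdjoinRoot π := r0.comp e.symm.toRingHom
  have hr : ∀ (x : L) (h : φ x ∈ φ.range), r ⟨φ x, h⟩ = r0 x := by
    intro x h
    have h1 : e x = ⟨φ x, h⟩ := rfl
    change r0 (e.symm ⟨φ x, h⟩) = r0 x
    rw [← h1, e.symm_apply_apply]
  have hjF : ∀ q : K[X], jF (RatFunc K) q = j q := fun q => rfl
  refine ⟨φ.range, r, ?_, ?_, ?_⟩
  · intro q
    have h1 : jF (RatFunc K) q = φ (algebraMap K[X] L q) :=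
      ((IsLocalization.lift_eq hMj q).trans (hjF q).symm).symm
    have h2 : jF (RatFunc K) q ∈ φ.range := h1 ▸ ⟨_, rfl⟩
    refine ⟨h2, ?_⟩
    have h3 : (⟨jF (RatFunc K) q, h2⟩ : φ.range) = ⟨φ (algebraMap K[X] L q), ⟨_, rfl⟩⟩ :=
      Subtype.ext h1
    rw [h3, hr]
    exact IsLocalization.lift_eq hMr q
  · rintro ⟨u, x, rfl⟩ hu
    have h0 : r ⟨φ x, ⟨x, rfl⟩⟩ = r0 x := hr x _
    rw [h0] at hu
    obtain ⟨a, s, rfl⟩ := IsLocalization.exists_mk'_eq M x
    have ha : a ∈ M := by
      rw [hM]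
      intro h
      have h1 := hr0 a s
      rw [AdjoinRoot.mk_eq_zero.2 h] at h1
      rcases mul_eq_zero.1 h1 with h2 | h2
      · exact hu h2
      · exact (hMr s).ne_zero h2
    refine ⟨⟨φ (IsLocalization.mk' L (s : K[X]) ⟨a, ha⟩), ⟨_, rfl⟩⟩, ?_⟩
    change φ (IsLocalization.mk' L a s) * φ (IsLocalization.mk' L (s : K[X]) ⟨a, ha⟩) = 1
    have h1 := hφ a s
    have h2 := hφ s ⟨a, ha⟩
    have h3 : j s ≠ 0 := (hMj s).ne_zero
    have h4 : j a ≠ 0 := (hMj ⟨a, ha⟩).ne_zero
    have h5 : (φ (IsLocalization.mk' L a s) * φ (IsLocalization.mk' L (s : K[X]) ⟨a, ha⟩)) *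
        (j s * j a) = 1 * (j s * j a) := by
      rw [one_mul]
      calc _ = (φ (IsLocalization.mk' L a s) * j s) *
            (φ (IsLocalization.mk' L (s : K[X]) ⟨a, ha⟩) * j a) := by ring
        _ = j a * j s := by rw [h1, h2]
        _ = _ := mul_comm _ _
    exact mul_right_cancel₀ (mul_ne_zero h3 h4) h5
  · intro f hf
    obtain ⟨a, b, hb, rfl⟩ := IsFractionRing.div_surjective (A := K[X]) f
    have hb0 : b ≠ 0 := nonZeroDivisors.ne_zero hb
    have ha0 : a ≠ 0 := by
      rintro rfl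
      apply hf
      rw [map_zero, zero_div]
    have hfa : FiniteMultiplicity π a := FiniteMultiplicity.of_prime_left hpr ha0
    have hfb : FiniteMultiplicity π b := FiniteMultiplicity.of_prime_left hpr hb0
    obtain ⟨a', ha', hpa⟩ := hfa.exists_eq_pow_mul_and_not_dvd
    obtain ⟨b', hb', hpb⟩ := hfb.exists_eq_pow_mul_and_not_dvd
    have hbM : b' ∈ M := (hM b').2 hpb
    refine ⟨(multiplicity π a : ℤ) - (multiplicity π b : ℤ),
      ⟨φ (IsLocalization.mk' L a' ⟨b', hbM⟩), ⟨_, rfl⟩⟩, ?_, ?_⟩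
    · rw [hr]
      intro h
      have h1 := hr0 a' ⟨b', hbM⟩
      rw [h, zero_mul] at h1
      exact hpa (AdjoinRoot.mk_eq_zero.1 h1.symm)
    · have h1 := hφ a' ⟨b', hbM⟩
      have h3 : j b' ≠ 0 := (hMj ⟨b', hbM⟩).ne_zero
      have h4 : j π ≠ 0 := hj0 π hπ0
      have h5 : φ (IsLocalization.mk' L a' ⟨b', hbM⟩) = j a' / j b' := by
        rw [eq_div_iff h3]
        exact h1
      change j a / j b = jF (RatFunc K) π ^ _ * φ (IsLocalization.mk' L a' ⟨b', hbM⟩)
      rw [h5, hjF, zpow_sub₀ h4, zpow_natCast, zpow_natCast]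
      conv_lhs => rw [ha', hb', map_mul, map_mul, map_pow, map_pow]
      rw [mul_div_mul_comm]

end Pool.Agent.KRc
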