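import Pool.Agent.KRc.DefsH

/-!
The hypothesis on the base field for algebraically closed fields and for algebraic extensions
(MP_da2a57_al).
-/

set_option autoImplicit false

namespace Pool.Agent.KRc

open Polynomial

universe u

theorem rig_algClosed (p : ℕ) [Fact p.Prime] (k : Type u) [Field k] [IsAlgClosed k] : Rig p k := by
  intro E _ _ _ a _ _
  left
  have hp : p.Prime := Fact.out
  obtain ⟨a0, rfl⟩ := (IsAlgClosed.algebraMap_bijective_of_isIntegral (k := k) (K := E)).2 a
  obtain ⟨c, hc⟩ := IsAlgClosed.exists_pow_nat_eq a0 hp.pos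
  refine ⟨1, 0, fun h => hp.one_lt.ne' (Nat.dvd_one.1 h.1), algebraMap k E c, ?_⟩
  rw [← hc]
  simp

theorem rig_algebraic (p : ℕ) [Fact p.Prime] (k K : Type u) [Field k] [Field K] [Algebra k K]
    [Algebra.IsAlgebraic k K] (h : Rig p k) : Rig p K := by
  intro E _ _ _ a ha0 ha1
  let _ : Algebra k E := ((algebraMap K E).comp (algebraMap k K)).toAlgebra
  have hst : IsScalarTower k K E := IsScalarTower.of_algebraMap_eq (fun x => rfl)
  have halg : Algebra.IsAlgebraic k E := Algebra.IsAlgebraic.trans k K E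
  have hint : IsIntegral k a := (halg.isAlgebraic a).isIntegral
  have hfd : FiniteDimensional k (IntermediateField.adjoin k {a}) :=
    IntermediateField.adjoin.finiteDimensional hint
  have hmem : a ∈ IntermediateField.adjoin k {a} := IntermediateField.mem_adjoin_simple_self k a
  have key := h (IntermediateField.adjoin k {a}) ⟨a, hmem⟩
    (fun h0 => ha0 (congrArg Subtype.val h0)) (fun h0 => ha1 (congrArg Subtype.val h0))
  rcases key with ⟨i, j, hij, c, hc⟩ | ⟨hp, ⟨s, t, hs⟩, ⟨c, hc⟩, ⟨d, hd⟩⟩
  · left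
    exact ⟨i, j, hij, c.1, by simpa using congrArg Subtype.val hc⟩
  · right
    refine ⟨hp, ⟨algebraMap k K s, algebraMap k K t, ?_⟩, ⟨c.1, ?_⟩, ⟨d.1, ?_⟩⟩
    · rw [← map_pow, ← map_pow, ← map_add, hs]
      simp
    · simpa using congrArg Subtype.val hc
    · simpa using congrArg Subtype.val hd

end Pool.Agent.KRc
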