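import Pool.Agent.KRc.DefsH

/-!
Zeros of distinguished polynomials are integral, and their inverses are not.
-/

set_option autoImplicit false

namespace Pool.Agent.KRc

open Polynomial

universe u

section

variable (O : Type u) [CommRing O] [IsDomain O] [IsDiscreteValuationRing O]
  [IsAdicComplete (IsLocalRing.maximalIdeal O) O]

variable {E : Type u} [Field E] [Algebra (FractionRing O) E] [Algebra O E]
  [IsScalarTower O (FractionRing O) E]

omit [IsDomain O] [IsDiscreteValuationRing O] [IsAdicComplete (IsLocalRing.maximalIdeal O) O]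
  [Algebra (FractionRing O) E] [IsScalarTower O (FractionRing O) E] in
theorem sm_integral_aux [IsLocalRing O] {x : E} (h : Sm O x) : IsIntegral O x := by
  obtain ⟨w, hw, -, hx⟩ := h
  exact ⟨w, hw.monic, by rwa [← Polynomial.aeval_def]⟩

omit [IsDomain O] [IsDiscreteValuationRing O] [IsAdicComplete (IsLocalRing.maximalIdeal O) O]
  [Algebra (FractionRing O) E] [IsScalarTower O (FractionRing O) E] in
theorem sm_not_integral_inv_aux [IsLocalRing O] {x : E} (h : Sm O x) (hx : x ≠ 0) :
    ¬ IsIntegral O x⁻¹ := by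
  intro hy
  obtain ⟨w, hw, hdeg, hwx⟩ := h
  set n := w.natDegree with hn
  -- a maximal ideal of the integral closure over the maximal ideal of `O`
  have hker : RingHom.ker (algebraMap O (integralClosure O E)) ≤ IsLocalRing.maximalIdeal O :=
    IsLocalRing.le_maximalIdeal (RingHom.ker_ne_top _)
  obtain ⟨Q, hQ, hQc⟩ := Ideal.exists_ideal_over_maximal_of_isIntegral
    (S := integralClosure O E) (IsLocalRing.maximalIdeal O) hker
  let y : integralClosure O E := ⟨x⁻¹, hy⟩
  have hmem : ∀ a ∈ IsLocalRing.maximalIdeal O, algebraMap O (integralClosure O E) a ∈ Q := by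
    intro a ha
    rw [← hQc] at ha
    exact ha
  have key : (1 : integralClosure O E) =
      - ∑ i ∈ Finset.range n, algebraMap O (integralClosure O E) (w.coeff i) * y ^ (n - i) := by
    apply Subtype.ext
    have h1 : ∑ i ∈ Finset.range (n + 1), algebraMap O E (w.coeff i) * x ^ i = 0 := by
      rw [← hwx, Polynomial.aeval_eq_sum_range]
      refine Finset.sum_congr rfl fun i _ => ?_
      rw [Algebra.smul_def]
    rw [Finset.sum_range_succ] at h1
    have hlc : w.coeff n = 1 := hw.monic.coeff_natDegree
    rw [hlc, map_one, one_mul] at h1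
    have h2 : x ^ n = - ∑ i ∈ Finset.range n, algebraMap O E (w.coeff i) * x ^ i := by
      linear_combination h1
    have h3 : (1 : E) = x ^ n * (x⁻¹) ^ n := by
      rw [← mul_pow, mul_inv_cancel₀ hx, one_pow]
    push_cast
    rw [h3, h2, neg_mul, Finset.sum_mul]
    congr 1
    refine Finset.sum_congr rfl fun i hi => ?_
    have hi' : i ≤ n := (Finset.mem_range.1 hi).le
    have h4 : x ^ i * (x⁻¹) ^ n = (x⁻¹) ^ (n - i) := by
      rw [← Nat.sub_add_cancel hi', pow_add, mul_comm ((x⁻¹) ^ (n - i)) ((x⁻¹) ^ i), ← mul_assoc,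
        ← mul_pow, mul_inv_cancel₀ hx, one_pow, one_mul, Nat.add_sub_cancel]
    rw [mul_assoc, h4]
  apply hQ.ne_top
  rw [Ideal.eq_top_iff_one, key]
  refine Q.neg_mem (Ideal.sum_mem _ fun i hi => ?_)
  exact Q.mul_mem_right _ (hmem _ (hw.mem (by
    rw [← hn]; exact Finset.mem_range.1 hi)))

theorem Sm.integral {x : E} (h : Sm O x) : IsIntegral O x := sm_integral_aux O h

theorem Sm.not_integral_inv {x : E} (h : Sm O x) (hx : x ≠ 0) : ¬ IsIntegral O x⁻¹ :=
  sm_not_integral_inv_aux O h hx

end

end Pool.Agent.KRc
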