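import Pool.Agent.KRc.DefsW

/-!
Row WDC: a monic irreducible polynomial over the fraction field of a complete discrete valuation
ring is distinguished, or a constant times a unit of the power series ring.
-/

set_option autoImplicit false

namespace Pool.Agent.KRc

open Polynomial Pool.Agent.KMil

universe u

section

variable (O : Type u) [CommRing O] [IsDomain O] [IsDiscreteValuationRing O]

/-- content and a polynomial with a unit coefficient -/
private theorem WDC_content (q : O[X]) (hq : q ≠ 0) :
    ∃ (d : O) (q1 : O[X]), d ≠ 0 ∧ q = C d * q1 ∧ ∃ i, IsUnit (q1.coeff i) := by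
  classical
  haveI hne : Nonempty (NormalizedGCDMonoid O) := inferInstance
  letI : NormalizedGCDMonoid O := Classical.choice hne
  refine ⟨q.content, q.primPart, ?_, q.eq_C_content_mul_primPart, ?_⟩
  · intro h
    exact hq (Polynomial.content_eq_zero_iff.1 h)
  · by_contra hc
    push Not at hc
    obtain ⟨ϖ, hϖ⟩ := IsDiscreteValuationRing.exists_irreducible O
    have h1 : C ϖ ∣ q.primPart := by
      rw [Polynomial.C_dvd_iff_dvd_coeff]
      intro i
      have h2 : q.primPart.coeff i ∈ IsLocalRing.maximalIdeal O :=
        (IsLocalRing.mem_maximalIdeal _).2 (hc i)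
      rw [hϖ.maximalIdeal_eq] at h2
      exact Ideal.mem_span_singleton.1 h2
    exact hϖ.not_isUnit (q.isPrimitive_primPart ϖ h1)

variable [IsAdicComplete (IsLocalRing.maximalIdeal O) O]

/-- Weierstrass preparation for a polynomial with a unit coefficient -/
private theorem WDC_prep (q : O[X]) (hq : ∃ i, IsUnit (q.coeff i)) :
    ∃ w v : O[X], w.IsDistinguishedAt (IsLocalRing.maximalIdeal O) ∧
      IsUnit (v : PowerSeries O) ∧ q = w * v := by
  obtain ⟨i, hi⟩ := hq
  have hmap : (q : PowerSeries O).map (IsLocalRing.residue O) ≠ 0 := by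
    intro h
    have h1 := congrArg (PowerSeries.coeff i) h
    rw [PowerSeries.coeff_map, Polynomial.coeff_coe, map_zero, IsLocalRing.residue_eq_zero_iff,
      IsLocalRing.mem_maximalIdeal] at h1
    exact h1 hi
  obtain ⟨w, u, hwu⟩ := PowerSeries.exists_isWeierstrassFactorization hmap
  have hw := hwu.isDistinguishedAt
  have hm : IsLocalRing.maximalIdeal O ≠ ⊤ := Ideal.IsPrime.ne_top inferInstance
  have hdeg : w.natDegree = ((w : PowerSeries O).map
      (Ideal.Quotient.mk (IsLocalRing.maximalIdeal O))).order.toNat := by
    have := congrArg ENat.toNat (hw.coe_natDegree_eq_order_map (w : PowerSeries O) 1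
      (by
        rw [PowerSeries.constantCoeff_one]
        exact (Ideal.ne_top_iff_one _).1 hm) (by simp))
    simpa using this
  have hdiv := hw.isWeierstrassDivisorAt hm
  have h0 : (0 : O[X]).degree < ((w : PowerSeries O).map
      (Ideal.Quotient.mk (IsLocalRing.maximalIdeal O))).order.toNat := by
    rw [Polynomial.degree_zero]
    exact WithBot.bot_lt_coe _
  have h1 : (q %ₘ w).degree < ((w : PowerSeries O).map
      (Ideal.Quotient.mk (IsLocalRing.maximalIdeal O))).order.toNat := by
    rw [← hdeg, ← Polynomial.degree_eq_natDegree hw.monic.ne_zero]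
    exact Polynomial.degree_modByMonic_lt q hw.monic
  have heq : (w : PowerSeries O) * u + ((0 : O[X]) : PowerSeries O) =
      (w : PowerSeries O) * ((q /ₘ w : O[X]) : PowerSeries O) + ((q %ₘ w : O[X]) : PowerSeries O) := by
    rw [Polynomial.coe_zero, add_zero, ← hwu.eq_mul, ← Polynomial.coe_mul, ← Polynomial.coe_add,
      add_comm (w * (q /ₘ w)) (q %ₘ w), Polynomial.modByMonic_add_div q w]
  obtain ⟨h2, h3⟩ := hdiv.eq_of_mul_add_eq_mul_add h0 h1 heq
  refine ⟨w, q /ₘ w, hw, ?_, ?_⟩
  · rw [← h2]
    exact hwu.isUnit
  · have h4 := Polynomial.modByMonic_add_div q w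
    rw [← h3, zero_add] at h4
    exact h4.symm

/-- a monic irreducible polynomial over the fraction field of `O` is distinguished, or a constant
times a unit of `O⟦X⟧` -/
theorem dichW (π : (FractionRing O)[X]) (hm : π.Monic) (hi : Irreducible π) :
    (∃ w : O[X], w.IsDistinguishedAt (IsLocalRing.maximalIdeal O) ∧
      π = w.map (algebraMap O (FractionRing O))) ∨
    ∃ (c : O) (q : O[X]), c ≠ 0 ∧ IsUnit (q : PowerSeries O) ∧
      C (algebraMap O (FractionRing O) c) * π = q.map (algebraMap O (FractionRing O)) := by
  have hinj : Function.Injective (algebraMap O (FractionRing O)) :=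
    IsFractionRing.injective O (FractionRing O)
  obtain ⟨b, hb, hq'⟩ := IsLocalization.integerNormalization_spec (nonZeroDivisors O)
    (S := FractionRing O) π
  set q0 := IsLocalization.integerNormalization (nonZeroDivisors O) π with hq0
  have hq0ne : q0 ≠ 0 := by
    intro h
    have := (IsLocalization.integerNormalization_eq_zero_iff le_rfl π).1 h
    exact hm.ne_zero this
  obtain ⟨d, q, hd, hdq, hu⟩ := WDC_content O q0 hq0ne
  have hb' : C (algebraMap O (FractionRing O) (b : O)) * π =
      C (algebraMap O (FractionRing O) d) * q.map (algebraMap O (FractionRing O)) := by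
    have h1 : q0.map (algebraMap O (FractionRing O)) =
        C (algebraMap O (FractionRing O) (b : O)) * π := by
      rw [hq', ← IsScalarTower.algebraMap_smul (FractionRing O) b π, ← Polynomial.C_mul']
    rw [← h1, hdq, Polynomial.map_mul, Polynomial.map_C]
  have hdK : algebraMap O (FractionRing O) d ≠ 0 := by
    intro h
    exact hd (hinj (h.trans (map_zero _).symm))
  have hlc : algebraMap O (FractionRing O) (b : O) =
      algebraMap O (FractionRing O) d * algebraMap O (FractionRing O) q.leadingCoeff := by
    have h1 := congrArg Polynomial.leadingCoeff hb'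
    rw [Polynomial.leadingCoeff_mul, Polynomial.leadingCoeff_mul, Polynomial.leadingCoeff_C,
      Polynomial.leadingCoeff_C, hm.leadingCoeff, mul_one,
      Polynomial.leadingCoeff_map_of_injective hinj] at h1
    exact h1
  have hq : C (algebraMap O (FractionRing O) q.leadingCoeff) * π =
      q.map (algebraMap O (FractionRing O)) := by
    have h1 : C (algebraMap O (FractionRing O) d) *
        (C (algebraMap O (FractionRing O) q.leadingCoeff) * π) =
        C (algebraMap O (FractionRing O) d) * q.map (algebraMap O (FractionRing O)) := by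
      rw [← hb', hlc, Polynomial.C_mul, mul_assoc]
    exact mul_left_cancel₀ (by simpa using hdK) h1
  have hqne : q ≠ 0 := by
    rintro rfl
    obtain ⟨i, hi⟩ := hu
    simp at hi
  have hlcne : q.leadingCoeff ≠ 0 := by simpa using hqne
  have hlcK : algebraMap O (FractionRing O) q.leadingCoeff ≠ 0 := by
    intro h
    exact hlcne (hinj (h.trans (map_zero _).symm))
  obtain ⟨w, v, hw, hv, hwv⟩ := WDC_prep O q hu
  have hfac : C (algebraMap O (FractionRing O) q.leadingCoeff) * π =
      w.map (algebraMap O (FractionRing O)) * v.map (algebraMap O (FractionRing O)) := by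
    rw [hq, ← Polynomial.map_mul, ← hwv]
  have hunit : IsUnit (C (algebraMap O (FractionRing O) q.leadingCoeff)) :=
    Polynomial.isUnit_C.2 (isUnit_iff_ne_zero.2 hlcK)
  have hirr : Irreducible (w.map (algebraMap O (FractionRing O)) *
      v.map (algebraMap O (FractionRing O))) := by
    rw [← hfac]
    exact (irreducible_isUnit_mul hunit).2 hi
  rcases hirr.isUnit_or_isUnit rfl with h1 | h1
  · right
    refine ⟨q.leadingCoeff, q, hlcne, ?_, hq⟩
    have h2 : w.map (algebraMap O (FractionRing O)) = 1 :=
      (hw.monic.map _).eq_one_of_isUnit h1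
    have h3 : w = 1 := by
      apply Polynomial.map_injective _ hinj
      rw [h2, Polynomial.map_one]
    rw [hwv, h3, one_mul]
    exact hv
  · left
    refine ⟨w, hw, ?_⟩
    obtain ⟨k, hk, hkv⟩ := Polynomial.isUnit_iff.1 h1
    rw [← hkv] at hfac
    have h2 := congrArg Polynomial.leadingCoeff hfac
    rw [Polynomial.leadingCoeff_mul, Polynomial.leadingCoeff_mul, Polynomial.leadingCoeff_C,
      Polynomial.leadingCoeff_C, hm.leadingCoeff, (hw.monic.map _).leadingCoeff, mul_one,
      one_mul] at h2
    rw [h2, mul_comm (w.map (algebraMap O (FractionRing O))) (C k)] at hfac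
    exact mul_left_cancel₀ (by simpa using hk.ne_zero) hfac

end

end Pool.Agent.KRc
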