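import Pool.Agent.KRc.DefsH
import Pool.Agent.KRc.Wdc

/-!
Row HTR: a nonzero element of a finite extension is small, inverse of a small element, or integral
with integral inverse.
-/

set_option autoImplicit false

namespace Pool.Agent.KRc

open Polynomial

universe u

section

variable (O : Type u) [CommRing O] [IsDomain O] [IsDiscreteValuationRing O]
  [IsAdicComplete (IsLocalRing.maximalIdeal O) O]

variable {E : Type u} [Field E] [Algebra (FractionRing O) E] [Algebra O E]
  [IsScalarTower O (FractionRing O) E]

private theorem HTR_integral {y : E} (r : O[X]) (h : eval₂ (algebraMap O E) y r = 0)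
    (hu : IsUnit r.leadingCoeff) : IsIntegral O y := by
  obtain ⟨u, hu⟩ := hu
  refine ⟨C ((u⁻¹ : Oˣ) : O) * r, ?_, ?_⟩
  · apply Polynomial.monic_C_mul_of_mul_leadingCoeff_eq_one
    rw [← hu, Units.inv_mul]
  · rw [Polynomial.eval₂_mul, h, mul_zero]

private theorem HTR_half [FiniteDimensional (FractionRing O) E] (x : E) (hx : x ≠ 0) :
    Sm O x ∨ IsIntegral O x⁻¹ := by
  have hint : IsIntegral (FractionRing O) x := Algebra.IsIntegral.isIntegral x
  have hinj : Function.Injective (algebraMap O (FractionRing O)) :=
    IsFractionRing.injective O (FractionRing O)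
  rcases dichW O (minpoly (FractionRing O) x) (minpoly.monic hint) (minpoly.irreducible hint) with
    ⟨w, hw, hπ⟩ | ⟨c, q, hc, hq, hcπ⟩
  · left
    refine ⟨w, hw, ?_, ?_⟩
    · have h1 : (minpoly (FractionRing O) x).natDegree ≠ 0 := (minpoly.natDegree_pos hint).ne'
      rwa [hπ, Polynomial.natDegree_map_eq_of_injective hinj] at h1
    · rw [← Polynomial.aeval_map_algebraMap (FractionRing O) x w, ← hπ, minpoly.aeval]
  · right
    have h0 : IsUnit (q.coeff 0) := by
      have h1 := PowerSeries.isUnit_iff_constantCoeff.1 hq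
      rwa [Polynomial.constantCoeff_coe] at h1
    have hev : eval₂ (algebraMap O E) x q = 0 := by
      have h1 : aeval x q = 0 := by
        rw [← Polynomial.aeval_map_algebraMap (FractionRing O) x q, ← hcπ, map_mul,
          minpoly.aeval, mul_zero]
      rwa [Polynomial.aeval_def] at h1
    letI : Invertible x := invertibleOfNonzero hx
    have h2 := Polynomial.eval₂_reverse_mul_pow (algebraMap O E) x q
    rw [hev] at h2
    have h3 : eval₂ (algebraMap O E) x⁻¹ q.reverse = 0 := by
      rw [← invOf_eq_inv x]
      exact (mul_eq_zero.1 h2).resolve_right (pow_ne_zero _ hx)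
    apply HTR_integral O q.reverse h3
    rw [Polynomial.reverse_leadingCoeff, Polynomial.trailingCoeff,
      Polynomial.natTrailingDegree_eq_zero.2 (Or.inr h0.ne_zero)]
    exact h0

/-! ## Row HTR (file Htr.lean): uses WDC -/
theorem trichoH [FiniteDimensional (FractionRing O) E] (x : E) (hx : x ≠ 0) :
    Sm O x ∨ Sm O x⁻¹ ∨ (IsIntegral O x ∧ IsIntegral O x⁻¹) := by
  rcases HTR_half O x hx with h1 | h1
  · exact Or.inl h1
  · rcases HTR_half O x⁻¹ (inv_ne_zero hx) with h2 | h2
    · exact Or.inr (Or.inl h2)
    · rw [inv_inv] at h2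
      exact Or.inr (Or.inr ⟨h2, h1⟩)

end

end Pool.Agent.KRc
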