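import Pool.Agent.KRc.Hnu
import Pool.Agent.KRc.Htr

/-!
The residue field of a finite extension of the fraction field of a complete discrete valuation
ring.
-/

set_option autoImplicit false

namespace Pool.Agent.KRc

open Polynomial

universe u

section

variable (O : Type u) [CommRing O] [IsDomain O] [IsDiscreteValuationRing O]
  [IsAdicComplete (IsLocalRing.maximalIdeal O) O]

variable {E : Type u} [Field E] [Algebra (FractionRing O) E] [Algebra O E]
  [IsScalarTower O (FractionRing O) E]

omit [IsDomain O] [IsDiscreteValuationRing O] [IsAdicComplete (IsLocalRing.maximalIdeal O) O]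
  [Algebra (FractionRing O) E] [IsScalarTower O (FractionRing O) E] in
theorem sm_of_mem_maximal [IsLocalRing O] {a : O}
    (ha : a ∈ IsLocalRing.maximalIdeal O) : Sm O (algebraMap O E a) := by
  refine ⟨X - C a, ⟨⟨?_⟩, monic_X_sub_C a⟩, ?_, ?_⟩
  · intro n hn
    rw [natDegree_X_sub_C] at hn
    have h0 : n = 0 := by omega
    subst h0
    simpa using ha
  · rw [natDegree_X_sub_C]
    exact one_ne_zero
  · simp

omit [IsDomain O] [IsDiscreteValuationRing O] [IsAdicComplete (IsLocalRing.maximalIdeal O) O]
  [Algebra (FractionRing O) E] [IsScalarTower O (FractionRing O) E] in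
theorem sm_zero [IsLocalRing O] : Sm O (0 : E) := by
  have h := sm_of_mem_maximal (E := E) O (zero_mem (IsLocalRing.maximalIdeal O))
  rwa [map_zero] at h

theorem isUnit_intClosure {x : integralClosure O E} (hx : x ≠ 0)
    (h : IsIntegral O ((x : E)⁻¹)) : IsUnit x := by
  have hx' : (x : E) ≠ 0 := fun h0 => hx (Subtype.ext h0)
  refine IsUnit.of_mul_eq_one ⟨(x : E)⁻¹, h⟩ ?_
  apply Subtype.ext
  exact mul_inv_cancel₀ hx'

theorem not_isUnit_of_sm {x : integralClosure O E} (h : Sm O (x : E)) : ¬ IsUnit x := by
  intro hu
  obtain ⟨y, hy⟩ := hu.exists_right_inv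
  have h1 : (x : E) * (y : E) = 1 := congrArg Subtype.val hy
  have hx' : (x : E) ≠ 0 := left_ne_zero_of_mul_eq_one h1
  apply Sm.not_integral_inv O h hx'
  rw [← eq_inv_of_mul_eq_one_right h1]
  exact y.2

theorem sm_of_not_isUnit [FiniteDimensional (FractionRing O) E] {x : integralClosure O E}
    (h : ¬ IsUnit x) : Sm O (x : E) := by
  by_cases hx : x = 0
  · subst hx
    exact sm_zero O
  have hx' : (x : E) ≠ 0 := fun h0 => hx (Subtype.ext h0)
  rcases trichoH O (x : E) hx' with h1 | h1 | h1
  · exact h1
  · exfalso
    apply Sm.not_integral_inv O h1 (inv_ne_zero hx')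
    rw [inv_inv]
    exact x.2
  · exact absurd (isUnit_intClosure O hx h1.2) h

theorem isLocal_intClosure [FiniteDimensional (FractionRing O) E] :
    IsLocalRing (integralClosure O E) := by
  refine IsLocalRing.of_nonunits_add ?_
  intro a b ha hb
  by_cases ha0 : a = 0
  · rwa [ha0, zero_add]
  by_cases hb0 : b = 0
  · rwa [hb0, add_zero]
  have ha' : (a : E) ≠ 0 := fun h0 => ha0 (Subtype.ext h0)
  have hb' : (b : E) ≠ 0 := fun h0 => hb0 (Subtype.ext h0)
  have h1 : IsIntegral O ((a : E) / b) ∨ IsIntegral O ((b : E) / a) := by
    rcases trichoH O ((a : E) / b) (div_ne_zero ha' hb') with h | h | h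
    · exact Or.inl (Sm.integral O h)
    · rw [inv_div] at h
      exact Or.inr (Sm.integral O h)
    · exact Or.inl h.1
  rcases h1 with h1 | h1
  · have h2 : a + b = ((⟨(a : E) / b, h1⟩ : integralClosure O E) + 1) * b := by
      apply Subtype.ext
      push_cast
      field_simp
    intro hu
    rw [h2] at hu
    exact hb (isUnit_of_mul_isUnit_right hu)
  · have h2 : a + b = ((⟨(b : E) / a, h1⟩ : integralClosure O E) + 1) * a := by
      apply Subtype.ext
      push_cast
      field_simp
      ring
    intro hu
    rw [h2] at hu
    exact ha (isUnit_of_mul_isUnit_right hu)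

theorem isLocalHom_intClosure [FiniteDimensional (FractionRing O) E] :
    IsLocalHom (algebraMap O (integralClosure O E)) := by
  constructor
  intro a ha
  by_contra h
  have h1 : Sm O (algebraMap O E a) :=
    sm_of_mem_maximal O ((IsLocalRing.mem_maximalIdeal a).2 h)
  exact not_isUnit_of_sm O (x := algebraMap O (integralClosure O E) a) h1 ha

theorem exists_resH [FiniteDimensional (FractionRing O) E] :
    ∃ (κ : Type u) (_ : Field κ) (_ : Algebra (IsLocalRing.ResidueField O) κ)
      (_ : FiniteDimensional (IsLocalRing.ResidueField O) κ) (ρ : integralClosure O E →+* κ),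
      Function.Surjective ρ ∧ (∀ x, ρ x = 0 → Sm O (x : E)) ∧
      (∀ x, ρ x ≠ 0 → IsUnit x) ∧
      ∀ x : O, ρ (algebraMap O _ x) = algebraMap (IsLocalRing.ResidueField O) κ
        (IsLocalRing.residue O x) := by
  haveI := isLocal_intClosure O (E := E)
  haveI := isLocalHom_intClosure O (E := E)
  have hres : ∀ x : O, IsLocalRing.residue (integralClosure O E) (algebraMap O _ x) =
      algebraMap (IsLocalRing.ResidueField O) (IsLocalRing.ResidueField (integralClosure O E))
        (IsLocalRing.residue O x) := fun x => rfl
  have hfin : FiniteDimensional (IsLocalRing.ResidueField O)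
      (IsLocalRing.ResidueField (integralClosure O E)) := by
    have hrank : Module.rank (IsLocalRing.ResidueField O)
        (IsLocalRing.ResidueField (integralClosure O E)) ≤
          (Module.finrank (FractionRing O) E : ℕ) := by
      apply rank_le
      intro s hs
      have hlift : ∀ i : s, ∃ x : integralClosure O E,
          IsLocalRing.residue (integralClosure O E) x = i := fun i =>
        IsLocalRing.residue_surjective (i : IsLocalRing.ResidueField (integralClosure O E))
      choose f hf using hlift
      obtain ⟨π, hπ⟩ := IsDiscreteValuationRing.exists_irreducible O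
      have hπ0 : algebraMap O E π ≠ 0 := by
        rw [IsScalarTower.algebraMap_apply O (FractionRing O) E]
        intro h0
        have h1 := (algebraMap (FractionRing O) E).injective (h0.trans (map_zero _).symm)
        exact hπ.ne_zero (IsFractionRing.injective O (FractionRing O) (h1.trans (map_zero _).symm))
      -- divisibility of the coefficients of a relation
      have hdvd : ∀ (k : ℕ) (c : s → O), ∑ i, algebraMap O E (c i) * (f i : E) = 0 →
          ∀ i, π ^ k ∣ c i := by
        intro k
        induction k with
        | zero => intro c _ i; simp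
        | succ k ih =>
          intro c hc i
          have hc' : ∑ i, algebraMap O (integralClosure O E) (c i) * f i = 0 := by
            apply Subtype.ext
            push_cast
            exact hc
          have h1 : ∑ i : s, (IsLocalRing.residue O (c i)) •
              (i : IsLocalRing.ResidueField (integralClosure O E)) = 0 := by
            have h2 := congrArg (IsLocalRing.residue (integralClosure O E)) hc'
            rw [map_sum, map_zero] at h2
            rw [← h2]
            refine Finset.sum_congr rfl fun j _ => ?_
            rw [map_mul, hf, hres, Algebra.smul_def]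
          have h3 : ∀ j, IsLocalRing.residue O (c j) = 0 := fun j =>
            Fintype.linearIndependent_iff.1 hs _ h1 j
          have h4 : ∀ j, π ∣ c j := by
            intro j
            have h5 : c j ∈ IsLocalRing.maximalIdeal O := by
              rw [← IsLocalRing.residue_eq_zero_iff]
              exact h3 j
            rw [hπ.maximalIdeal_eq, Ideal.mem_span_singleton] at h5
            exact h5
          choose d hd using h4
          have h6 : ∑ i, algebraMap O E (d i) * (f i : E) = 0 := by
            have h7 : algebraMap O E π * ∑ i, algebraMap O E (d i) * (f i : E) = 0 := by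
              rw [← hc, Finset.mul_sum]
              refine Finset.sum_congr rfl fun j _ => ?_
              rw [hd j, map_mul, mul_assoc]
            exact (mul_eq_zero.1 h7).resolve_left hπ0
          rw [hd i, pow_succ']
          exact mul_dvd_mul_left π (ih d h6 i)
      have hind : LinearIndependent O (fun i : s => (f i : E)) := by
        rw [Fintype.linearIndependent_iff]
        intro c hc i
        by_contra hne
        obtain ⟨n, hn⟩ := FiniteMultiplicity.of_not_isUnit hπ.not_isUnit hne
        apply hn
        refine hdvd (n + 1) c ?_ i
        rw [← hc]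
        refine Finset.sum_congr rfl fun j _ => ?_
        rw [Algebra.smul_def]
      have hind' : LinearIndependent (FractionRing O) (fun i : s => (f i : E)) :=
        (LinearIndependent.iff_fractionRing O (FractionRing O)).1 hind
      have h8 := hind'.fintype_card_le_finrank
      rwa [Fintype.card_coe] at h8
    exact Module.rank_lt_aleph0_iff.1 (hrank.trans_lt (Cardinal.natCast_lt_aleph0))
  refine ⟨IsLocalRing.ResidueField (integralClosure O E), inferInstance, inferInstance, hfin,
    IsLocalRing.residue (integralClosure O E), IsLocalRing.residue_surjective, ?_, ?_, hres⟩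
  · intro x hx
    apply sm_of_not_isUnit O
    intro hu
    exact (IsLocalRing.residue_ne_zero_iff_isUnit x).2 hu hx
  · intro x hx
    exact (IsLocalRing.residue_ne_zero_iff_isUnit x).1 hx

end

end Pool.Agent.KRc
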