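import Pool.Agent.KRc.Hsm
import Pool.Agent.KRc.Htr
import Pool.Agent.KRc.Hnu
import Pool.Agent.KRc.Hre

set_option autoImplicit false

/-! The hypothesis on the base field passes from the residue field of a complete discrete
valuation ring to its fraction field. -/

namespace Pool.Agent.KRc

open Polynomial

universe u

section

variable (O : Type u) [CommRing O] [IsDomain O] [IsDiscreteValuationRing O]
  [IsAdicComplete (IsLocalRing.maximalIdeal O) O]

variable {E : Type u} [Field E] [Algebra (FractionRing O) E] [Algebra O E]
  [IsScalarTower O (FractionRing O) E]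

private theorem hco_sm [FiniteDimensional (FractionRing O) E] {x : E} (hx : x ≠ 0)
    (h : ¬ IsIntegral O x⁻¹) : Sm O x := by
  rcases trichoH O x hx with h1 | h1 | h1
  · exact h1
  · exact absurd (Sm.integral O h1) h
  · exact absurd h1.2 h

private theorem hco_neg [FiniteDimensional (FractionRing O) E] {x : E} (hx : x ≠ 0)
    (h : Sm O x) : Sm O (-x) := by
  refine hco_sm O (neg_ne_zero.2 hx) ?_
  intro h1
  apply Sm.not_integral_inv O h hx
  rw [inv_neg] at h1
  have := h1.neg
  rwa [neg_neg] at this

private theorem hco_const (x : O) (hx : x ∈ IsLocalRing.maximalIdeal O) :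
    Sm O (algebraMap O (FractionRing O) x) := by
  refine ⟨X - C x, ⟨⟨?_⟩, monic_X_sub_C x⟩, ?_, ?_⟩
  · intro n hn
    rw [natDegree_X_sub_C] at hn
    have : n = 0 := by omega
    subst this
    simpa using hx
  · rw [natDegree_X_sub_C]
    exact one_ne_zero
  · simp

end

/-- the hypothesis on the base field passes from the residue field to the fraction field -/
theorem rig_complete (O : Type u) [CommRing O] [IsDomain O] [IsDiscreteValuationRing O]
    [IsAdicComplete (IsLocalRing.maximalIdeal O) O] (p : ℕ) [Fact p.Prime] (hp : IsUnit (p : O))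
    (h : Rig p (IsLocalRing.ResidueField O)) : Rig p (FractionRing O) := by
  intro E _ _ _ a ha0 ha1
  have hp0 : p ≠ 0 := (Fact.out : p.Prime).ne_zero
  have hp1 : ¬ p ∣ 1 := fun hd => (Fact.out : p.Prime).one_lt.ne' (Nat.dvd_one.1 hd)
  letI : Algebra O E :=
    ((algebraMap (FractionRing O) E).comp (algebraMap O (FractionRing O))).toAlgebra
  haveI : IsScalarTower O (FractionRing O) E := IsScalarTower.of_algebraMap_eq (fun _ => rfl)
  rcases trichoH O a ha0 with h1 | h1 | ⟨h1, h2⟩
  · left
    obtain ⟨c, hc⟩ := Sm.root O (hco_neg O ha0 h1) p hp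
    refine ⟨0, 1, fun hd => hp1 hd.2, c, ?_⟩
    rw [hc]
    ring
  · left
    obtain ⟨c, hc⟩ := Sm.root O (hco_neg O (inv_ne_zero ha0) h1) p hp
    refine ⟨p - 1, 1, fun hd => hp1 hd.2, -a * c, ?_⟩
    rw [mul_pow, hc]
    obtain ⟨q, rfl⟩ : ∃ q, p = q + 1 := ⟨p - 1, by omega⟩
    simp only [Nat.add_sub_cancel, mul_one, pow_one]
    rw [neg_pow a, pow_succ (-1 : E), pow_succ a]
    field_simp
    ring
  · obtain ⟨κ, i1, i2, i3, ρ, hsurj, hker, hunit, -⟩ := exists_resH O (E := E)
    -- elements with residue one are `p`-th powers
    have hone : ∀ z : integralClosure O E, ρ z = 1 → ∃ c : E, c ^ p = (z : E) := by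
      intro z hz
      have h3 : ρ (z - 1) = 0 := by rw [map_sub, hz, map_one, sub_self]
      obtain ⟨c, hc⟩ := Sm.root O (hker _ h3) p hp
      refine ⟨c, ?_⟩
      rw [hc]
      push_cast
      ring
    -- elements whose residue is a nonzero `p`-th power are `p`-th powers
    have hlift : ∀ (z : integralClosure O E) (d : κ), ρ z ≠ 0 → ρ z = d ^ p →
        ∃ c : E, (z : E) = c ^ p := by
      intro z d hz hzd
      obtain ⟨c, rfl⟩ := hsurj d
      have hc0 : ρ c ≠ 0 := by
        intro h0
        rw [h0, zero_pow hp0] at hzd
        exact hz hzd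
      obtain ⟨e, he⟩ := (hunit c hc0).exists_right_inv
      have h3 : ρ (z * e ^ p) = 1 := by
        rw [map_mul, map_pow, hzd, ← mul_pow, ← map_mul, he, map_one, one_pow]
      obtain ⟨f, hf⟩ := hone _ h3
      refine ⟨f * c, ?_⟩
      rw [mul_pow, hf]
      have h4 : (e : E) * (c : E) = 1 := by
        have : ((c * e : integralClosure O E) : E) = ((1 : integralClosure O E) : E) := by
          rw [he]
        push_cast at this
        rw [mul_comm]
        exact this
      push_cast
      rw [mul_assoc, ← mul_pow, h4, one_pow, mul_one]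
    set a' : integralClosure O E := ⟨a, h1⟩ with ha'
    have hra : ρ a' ≠ 0 := by
      intro h0
      exact Sm.not_integral_inv O (hker _ h0) ha0 h2
    by_cases hr1 : ρ a' = 1
    · left
      obtain ⟨c, hc⟩ := hone a' hr1
      refine ⟨1, 0, fun hd => hp1 hd.1, c, ?_⟩
      rw [hc]
      simp [ha']
    · have hr1' : 1 - ρ a' ≠ 0 := fun h0 => hr1 (sub_eq_zero.1 h0).symm
      rcases h κ (ρ a') hra hr1 with ⟨i, j, hij, c, hc⟩ | ⟨hp2, ⟨s, t, hst⟩, ⟨c, hc⟩, ⟨c', hc'⟩⟩
      · left
        have h3 : ρ ((-1) ^ (i * j) * (a' ^ i * (1 - a') ^ j)) = c ^ p := by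
          rw [← hc]
          simp only [map_mul, map_pow, map_neg, map_one, map_sub]
        obtain ⟨d, hd⟩ := hlift _ c (by
          rw [h3, ← hc]
          exact mul_ne_zero (pow_ne_zero _ (neg_ne_zero.2 one_ne_zero))
            (mul_ne_zero (pow_ne_zero _ hra) (pow_ne_zero _ hr1'))) h3
        refine ⟨i, j, hij, d, ?_⟩
        rw [← hd]
        push_cast
        rfl
      · right
        subst hp2
        refine ⟨rfl, ?_, ?_, ?_⟩
        · obtain ⟨S, rfl⟩ := IsLocalRing.residue_surjective s
          obtain ⟨T, rfl⟩ := IsLocalRing.residue_surjective t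
          have h3 : -(S ^ 2 + T ^ 2) - 1 ∈ IsLocalRing.maximalIdeal O := by
            rw [← IsLocalRing.residue_eq_zero_iff]
            simp only [map_sub, map_neg, map_add, map_pow, map_one]
            rw [hst]
            ring
          obtain ⟨d, hd⟩ := Sm.root O (hco_const O _ h3) 2 hp
          have h4 : d ^ 2 = -((algebraMap O (FractionRing O) S) ^ 2 +
              (algebraMap O (FractionRing O) T) ^ 2) := by
            rw [hd]
            simp only [map_sub, map_neg, map_add, map_pow, map_one]
            ring
          have h5 : IsUnit (S ^ 2 + T ^ 2) := by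
            by_contra hcon
            have h6 : S ^ 2 + T ^ 2 ∈ IsLocalRing.maximalIdeal O :=
              (IsLocalRing.mem_maximalIdeal _).2 hcon
            have h7 : (1 : O) ∈ IsLocalRing.maximalIdeal O := by
              have := (IsLocalRing.maximalIdeal O).add_mem h6 h3
              have h8 := (IsLocalRing.maximalIdeal O).neg_mem this
              have : -(S ^ 2 + T ^ 2 + (-(S ^ 2 + T ^ 2) - 1)) = (1 : O) := by ring
              rwa [this] at h8
            exact (IsLocalRing.mem_maximalIdeal _).1 h7 isUnit_one
          have hd0 : d ≠ 0 := by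
            rintro rfl
            have h6 : algebraMap O (FractionRing O) (S ^ 2 + T ^ 2) = 0 := by
              rw [map_add, map_pow, map_pow]
              have : (0 : FractionRing O) ^ 2 = 0 := by ring
              rw [this] at h4
              exact (neg_eq_zero.1 h4.symm)
            have h7 := (h5.map (algebraMap O (FractionRing O)))
            rw [h6] at h7
            exact not_isUnit_zero h7
          refine ⟨algebraMap O (FractionRing O) S / d, algebraMap O (FractionRing O) T / d, ?_⟩
          rw [div_pow, div_pow, ← add_div, h4, div_neg, div_self]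
          intro h0
          rw [h0, neg_zero] at h4
          exact hd0 (pow_eq_zero_iff two_ne_zero |>.1 h4)
        · obtain ⟨d, hd⟩ := hlift (-a') c (by rw [map_neg]; exact neg_ne_zero.2 hra)
            (by rw [map_neg, hc])
          refine ⟨d, ?_⟩
          rw [← hd]
          push_cast
          rfl
        · obtain ⟨d, hd⟩ := hlift (a' - 1) c' (by
              rw [map_sub, map_one]
              intro h0
              exact hr1 (sub_eq_zero.1 h0)) (by rw [map_sub, map_one, hc'])
          refine ⟨d, ?_⟩
          rw [← hd]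
          push_cast
          rfl

end Pool.Agent.KRc
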