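import Pool.Agent.KRc.DefsH

/-!
Finite fields satisfy the hypothesis `Rig` (MP_da2a57_al).
-/

set_option autoImplicit false

namespace Pool.Agent.KRc

open Polynomial

universe u

theorem exists_ij_finite (p : ℕ) [Fact p.Prime] (E : Type u) [Field E] [Finite E] (x y : E)
    (hx : x ≠ 0) (hy : y ≠ 0) (h1 : ¬ ∃ c : E, x = c ^ p) (h2 : ¬ ∃ c : E, y = c ^ p) :
    ∃ i j : ℕ, ¬ (p ∣ i ∧ p ∣ j) ∧ ∃ c : E, x ^ i * y ^ j = c ^ p := by
  classical
  obtain ⟨g, hg⟩ := IsCyclic.exists_monoid_generator (α := Eˣ)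
  obtain ⟨m, hm⟩ := hg (Units.mk0 x hx)
  obtain ⟨n, hn⟩ := hg (Units.mk0 y hy)
  have hm' : (g : E) ^ m = x := by
    have := congrArg Units.val hm
    simpa using this
  have hn' : (g : E) ^ n = y := by
    have := congrArg Units.val hn
    simpa using this
  have hpn : ¬ p ∣ n := by
    rintro ⟨t, rfl⟩
    exact h2 ⟨(g : E) ^ t, by rw [← hn', mul_comm, pow_mul]⟩
  refine ⟨n, (p - 1) * m, fun h => hpn h.1, (g : E) ^ (m * n), ?_⟩
  rw [← hm', ← hn', ← pow_mul, ← pow_mul, ← pow_mul, ← pow_add]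
  congr 1
  have hp : 1 ≤ p := (Fact.out : p.Prime).one_le
  obtain ⟨q, rfl⟩ := Nat.exists_eq_add_of_le hp
  simp only [Nat.add_sub_cancel_left]
  ring

theorem exists_sq_add_sq_finite (k : Type u) [Field k] [Finite k] :
    ∃ s t : k, s ^ 2 + t ^ 2 = -1 := by
  obtain ⟨q, hq⟩ := CharP.exists k
  have : Fact q.Prime := ⟨CharP.char_is_prime k q⟩
  obtain ⟨a, b, hab⟩ := ZMod.sq_add_sq q (-1)
  refine ⟨ZMod.castHom (dvd_refl q) k a, ZMod.castHom (dvd_refl q) k b, ?_⟩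
  rw [← map_pow, ← map_pow, ← map_add, hab, map_neg, map_one]

/-- row HFF -/
theorem rig_finite (p : ℕ) [Fact p.Prime] (k : Type u) [Field k] [Finite k] : Rig p k := by
  classical
  intro E _ _ _ a ha0 ha1
  have hE : Finite E := Module.finite_of_finite k
  have hb0 : 1 - a ≠ 0 := sub_ne_zero.2 (Ne.symm ha1)
  by_cases h1 : ∃ c : E, a = c ^ p
  · obtain ⟨c, hc⟩ := h1
    refine Or.inl ⟨1, 0, ?_, c, by simpa using hc⟩
    rintro ⟨h, -⟩
    exact (Fact.out : p.Prime).one_lt.ne' (Nat.dvd_one.1 h)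
  by_cases h2 : ∃ c : E, 1 - a = c ^ p
  · obtain ⟨c, hc⟩ := h2
    refine Or.inl ⟨0, 1, ?_, c, by simpa using hc⟩
    rintro ⟨-, h⟩
    exact (Fact.out : p.Prime).one_lt.ne' (Nat.dvd_one.1 h)
  by_cases h3 : ∃ e : E, (-1 : E) = e ^ p
  · obtain ⟨e, he⟩ := h3
    obtain ⟨i, j, hij, c, hc⟩ := exists_ij_finite p E a (1 - a) ha0 hb0 h1 h2
    refine Or.inl ⟨i, j, hij, e ^ (i * j) * c, ?_⟩
    rw [hc, he, mul_pow, ← pow_mul, ← pow_mul, mul_comm p (i * j)]
  · have hp2 : p = 2 := by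
      rcases (Fact.out : p.Prime).eq_two_or_odd' with h | h
      · exact h
      · exact absurd ⟨-1, (Odd.neg_one_pow h).symm⟩ h3
    subst hp2
    have key : ∀ x : E, x ≠ 0 → (¬ ∃ c : E, x = c ^ 2) → ∃ c : E, -x = c ^ 2 := by
      intro x hx hxs
      obtain ⟨i, j, hij, c, hc⟩ := exists_ij_finite 2 E (-1) x (by simp) hx h3 hxs
      -- both `i` and `j` are odd
      have hpar : ∀ z : E, z ≠ 0 → ∀ n : ℕ, ∃ d : E, d ≠ 0 ∧ z ^ n = z ^ (n % 2) * d ^ 2 := by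
        intro z hz n
        refine ⟨z ^ (n / 2), pow_ne_zero _ hz, ?_⟩
        rw [← pow_mul, ← pow_add]
        congr 1
        omega
      obtain ⟨d, hd, hd'⟩ := hpar (-1) (by simp) i
      obtain ⟨f, hf, hf'⟩ := hpar x hx j
      rw [hd', hf'] at hc
      have hdiv : (-1 : E) ^ (i % 2) * x ^ (j % 2) = (c / (d * f)) ^ 2 := by
        field_simp
        linear_combination hc
      rcases Nat.mod_two_eq_zero_or_one i with hi | hi <;>
        rcases Nat.mod_two_eq_zero_or_one j with hj | hj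
      · exact absurd ⟨Nat.dvd_of_mod_eq_zero hi, Nat.dvd_of_mod_eq_zero hj⟩ hij
      · rw [hi, hj] at hdiv
        exact absurd ⟨_, by simpa using hdiv⟩ hxs
      · rw [hi, hj] at hdiv
        exact absurd ⟨_, by simpa using hdiv⟩ h3
      · rw [hi, hj] at hdiv
        exact ⟨_, by simpa using hdiv⟩
    refine Or.inr ⟨rfl, exists_sq_add_sq_finite k, key a ha0 h1, ?_⟩
    obtain ⟨c, hc⟩ := key (1 - a) hb0 h2
    exact ⟨c, by rw [← hc]; ring⟩

end Pool.Agent.KRc
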