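import Pool.Agent.KRc.DefsH

/-!
KRc, row HRL: real closed fields are rigid (Artin: every finite extension is `k` or `k(i)`).
-/

set_option autoImplicit false

namespace Pool.Agent.KRc

open Polynomial

universe u v

section Hrl

variable {k : Type u} [Field k] [IsRealClosed k]

theorem hrl_one_add (b : k) : IsSquare (1 + b ^ 2) := by
  rcases IsRealClosed.isSquare_or_isSquare_neg (1 + b ^ 2) with h | h
  · exact h
  · exfalso
    obtain ⟨d, hd⟩ := h
    apply IsSemireal.not_isSumSq_neg_one k
    have e : (-1 : k) = b * b + d * d := by linear_combination hd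
    rw [e]
    exact IsSumSq.add (IsSumSq.mul_self b) (IsSumSq.mul_self d)

theorem hrl_sumsq (x y : k) : ∃ n : k, n ^ 2 = x ^ 2 + y ^ 2 := by
  by_cases hx : x = 0
  · exact ⟨y, by rw [hx]; ring⟩
  · obtain ⟨d, hd⟩ := hrl_one_add (y / x)
    refine ⟨x * d, ?_⟩
    have h1 : d ^ 2 = 1 + (y / x) ^ 2 := by rw [hd]; ring
    rw [mul_pow, h1]
    field_simp

theorem hrl_two : (2 : k) ≠ 0 := two_ne_zero

/-- elements `x + y j` are squares -/
theorem hrl_sqrt {E : Type v} [Field E] [Algebra k E] (j : E) (hj : j ^ 2 = -1) (x y : k) :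
    ∃ c : E, c ^ 2 = algebraMap k E x + algebraMap k E y * j := by
  by_cases hy : y = 0
  · subst hy
    rcases IsRealClosed.isSquare_or_isSquare_neg x with ⟨s, hs⟩ | ⟨s, hs⟩
    · refine ⟨algebraMap k E s, ?_⟩
      rw [hs, map_mul, map_zero]
      ring
    · refine ⟨algebraMap k E s * j, ?_⟩
      have h1 : x = -(s * s) := by rw [← hs]; ring
      rw [mul_pow, hj, h1, map_neg, map_mul, map_zero]
      ring
  · obtain ⟨n, hn⟩ := hrl_sumsq x y
    have h2 : (2 : k) ≠ 0 := hrl_two
    have hpq : (n + x) * (n - x) = y ^ 2 := by linear_combination hn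
    have hnx : n + x ≠ 0 := by
      intro h
      rw [h, zero_mul] at hpq
      exact hy (pow_eq_zero_iff (two_ne_zero)|>.1 hpq.symm)
    have gen : ∀ s t : k, x = s ^ 2 - t ^ 2 → y = 2 * (s * t) →
        ∃ c : E, c ^ 2 = algebraMap k E x + algebraMap k E y * j := by
      intro s t h1 h3
      refine ⟨algebraMap k E s + algebraMap k E t * j, ?_⟩
      rw [h1, h3]
      simp only [map_sub, map_mul, map_pow, map_ofNat]
      linear_combination (algebraMap k E t) ^ 2 * hj
    rcases IsRealClosed.isSquare_or_isSquare_neg ((n + x) / 2) with ⟨s, hs⟩ | ⟨s, hs⟩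
    · have hs0 : s ≠ 0 := by
        rintro rfl
        rw [mul_zero, div_eq_zero_iff] at hs
        exact hs.elim hnx h2
      have hs2 : n + x = 2 * s ^ 2 := by
        field_simp at hs
        linear_combination hs
      refine gen s (y / (2 * s)) ?_ ?_
      · have h4 : (n - x) * (2 * s ^ 2) = y ^ 2 := by rw [← hs2]; linear_combination hpq
        have h5 : y ^ 2 = 4 * s ^ 4 - 4 * x * s ^ 2 := by
          linear_combination (-1 : k) * h4 + 2 * s ^ 2 * hs2
        rw [div_pow, h5]
        field_simp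
        ring
      · field_simp
    · have hs0 : s ≠ 0 := by
        rintro rfl
        rw [mul_zero, neg_eq_zero, div_eq_zero_iff] at hs
        exact hs.elim hnx h2
      have hs2 : n + x = -(2 * s ^ 2) := by
        field_simp at hs
        linear_combination -hs
      refine gen (y / (2 * s)) s ?_ ?_
      · have h4 : (n - x) * (2 * s ^ 2) = - y ^ 2 := by linear_combination (n - x) * hs2 - hpq
        have h5 : y ^ 2 = 4 * s ^ 4 + 4 * x * s ^ 2 := by
          linear_combination h4 - 2 * s ^ 2 * hs2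
        rw [div_pow, h5]
        field_simp
        ring
      · field_simp

theorem hrl_odd (F : Type v) [Field F] [Algebra k F] [FiniteDimensional k F]
    (h : Odd (Module.finrank k F)) : Module.finrank k F = 1 := by
  obtain ⟨α, hα⟩ := Field.exists_primitive_element k F
  have h1 := (Field.primitive_element_iff_minpoly_natDegree_eq k α).1 hα
  obtain ⟨r, hr⟩ := IsRealClosed.exists_isRoot_of_odd_natDegree (f := minpoly k α) (by rwa [h1])
  have hirr := minpoly.irreducible (Algebra.IsIntegral.isIntegral (R := k) α)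
  have h2 := degree_eq_one_of_irreducible_of_root hirr hr
  rw [← h1]
  exact natDegree_eq_of_degree_eq_some h2

theorem hrl_quad (K : Type v) (F : Type v) [Field K] [Field F] [Algebra K F]
    [FiniteDimensional K F] (h2 : (2 : K) ≠ 0) (hsq : ∀ z : K, ∃ c : K, c ^ 2 = z) :
    Module.finrank K F ≠ 2 := by
  intro hf
  have hx : ∃ x : F, x ∉ (algebraMap K F).range := by
    by_contra hcon
    push Not at hcon
    have : (⊥ : Subalgebra K F) = ⊤ := by
      rw [eq_top_iff]
      intro x _
      exact hcon x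
    rw [Subalgebra.bot_eq_top_iff_finrank_eq_one] at this
    omega
  obtain ⟨x, hx⟩ := hx
  have hint : IsIntegral K x := Algebra.IsIntegral.isIntegral x
  have d1 : (minpoly K x).natDegree ≤ 2 := hf ▸ minpoly.natDegree_le x
  have d2 : (minpoly K x).natDegree ≠ 1 := fun h => hx (minpoly.natDegree_eq_one_iff.1 h)
  have d3 : 0 < (minpoly K x).natDegree := minpoly.natDegree_pos hint
  have d4 : (minpoly K x).natDegree = 2 := by omega
  obtain ⟨s, hs⟩ := hsq ((minpoly K x).coeff 1 ^ 2 - 4 * (minpoly K x).coeff 0)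
  have hlead : (minpoly K x).coeff 2 = 1 := by
    rw [← d4]
    exact (minpoly.monic hint).coeff_natDegree
  have hroot : (minpoly K x).IsRoot ((-(minpoly K x).coeff 1 + s) / 2) := by
    rw [IsRoot.def, eval_eq_sum_range, d4, Finset.sum_range_succ, Finset.sum_range_succ,
      Finset.sum_range_succ, Finset.sum_range_zero, hlead]
    field_simp
    linear_combination hs
  have h5 := degree_eq_one_of_irreducible_of_root (minpoly.irreducible hint) hroot
  exact d2 (natDegree_eq_of_degree_eq_some h5)

theorem hrl_adjoin {L : Type v} [Field L] [Algebra k L] (j : L) (hj : j ^ 2 = -1)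
    (z : L) (hz : z ∈ IntermediateField.adjoin k {j}) :
    ∃ x y : k, z = algebraMap k L x + algebraMap k L y * j := by
  have hint : IsIntegral k j := ⟨X ^ 2 + 1, by
    have : (X ^ 2 + 1 : k[X]) = X ^ 2 + C 1 := by simp
    rw [this]
    exact monic_X_pow_add_C 1 two_ne_zero, by simp [hj]⟩
  have h1 : z ∈ Algebra.adjoin k {j} := by
    rw [← IntermediateField.adjoin_simple_toSubalgebra_of_isAlgebraic hint.isAlgebraic]
    exact hz
  rw [Algebra.adjoin_singleton_eq_range_aeval] at h1
  obtain ⟨f, rfl⟩ := h1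
  have hmon : (X ^ 2 + C 1 : k[X]).Monic := monic_X_pow_add_C 1 two_ne_zero
  have hroot : aeval j (X ^ 2 + C 1 : k[X]) = 0 := by simp [hj]
  have h2 : aeval j (f %ₘ (X ^ 2 + C 1)) = aeval j f := aeval_modByMonic_eq_self_of_root hroot
  have hdeg : (f %ₘ (X ^ 2 + C 1 : k[X])).natDegree ≤ 1 := by
    have h3 := natDegree_modByMonic_lt f hmon (by
      intro h
      have h4 := congrArg natDegree h
      rw [natDegree_X_pow_add_C, natDegree_one] at h4
      omega)
    rw [natDegree_X_pow_add_C] at h3
    omega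
  obtain ⟨a, b, hab⟩ := exists_eq_X_add_C_of_natDegree_le_one hdeg
  refine ⟨b, a, ?_⟩
  change aeval j f = _
  rw [← h2, hab]
  simp
  ring

theorem hrl_galois (L : Type v) [Field L] [Algebra k L] [FiniteDimensional k L] [IsGalois k L]
    (j : L) (hj : j ^ 2 = -1) (z : L) :
    ∃ x y : k, z = algebraMap k L x + algebraMap k L y * j := by
  classical
  have : Fact (Nat.Prime 2) := ⟨Nat.prime_two⟩
  -- the Galois group is a 2-group
  obtain ⟨P⟩ : Nonempty (Sylow 2 (L ≃ₐ[k] L)) := inferInstance
  have e1 : Module.finrank (IntermediateField.fixedField (P : Subgroup (L ≃ₐ[k] L))) L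
      = Nat.card (P : Subgroup (L ≃ₐ[k] L)) := IntermediateField.finrank_fixedField_eq_card _
  have e2 := Module.finrank_mul_finrank k
    (IntermediateField.fixedField (P : Subgroup (L ≃ₐ[k] L))) L
  have e3 : Nat.card (L ≃ₐ[k] L) = Module.finrank k L := IsGalois.card_aut_eq_finrank k L
  have e4 := (P : Subgroup (L ≃ₐ[k] L)).index_mul_card
  have hPpos : 0 < Nat.card (P : Subgroup (L ≃ₐ[k] L)) := Nat.card_pos
  have e5 : Module.finrank k (IntermediateField.fixedField (P : Subgroup (L ≃ₐ[k] L)))
      = (P : Subgroup (L ≃ₐ[k] L)).index := by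
    apply Nat.eq_of_mul_eq_mul_right hPpos
    rw [e4, e3, ← e2, e1]
  have e6 : Odd (Module.finrank k (IntermediateField.fixedField (P : Subgroup (L ≃ₐ[k] L)))) := by
    rw [e5, ← Nat.not_even_iff_odd, even_iff_two_dvd]
    exact P.not_dvd_index
  have e7 := hrl_odd _ e6
  obtain ⟨n, hn⟩ := P.isPGroup'.exists_card_eq
  have e8 : Module.finrank k L = 2 ^ n := by
    rw [← e2, e7, e1, one_mul]
    exact hn
  -- the field k(j)
  set K1 := IntermediateField.adjoin k {j} with hK1
  have hjm : j ∈ K1 := IntermediateField.mem_adjoin_simple_self k j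
  have hsq : ∀ z : K1, ∃ c : K1, c ^ 2 = z := by
    intro z
    obtain ⟨x, y, hxy⟩ := hrl_adjoin j hj z.1 z.2
    obtain ⟨c, hc⟩ := hrl_sqrt (E := K1) ⟨j, hjm⟩ (Subtype.ext hj) x y
    refine ⟨c, ?_⟩
    rw [hc]
    apply Subtype.ext
    rw [hxy]
    rfl
  have hchar : (2 : K1) ≠ 0 := by
    have : CharZero K1 := charZero_of_injective_algebraMap (algebraMap k K1).injective
    exact two_ne_zero
  have e9 := Module.finrank_mul_finrank k K1 L
  have e10 : Module.finrank K1 L ∣ 2 ^ n := by
    rw [← e8, ← e9]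
    exact Dvd.intro_left _ rfl
  obtain ⟨m, -, hm⟩ := (Nat.dvd_prime_pow Nat.prime_two).1 e10
  have hm0 : m = 0 := by
    by_contra hm0
    obtain ⟨m', rfl⟩ := Nat.exists_eq_succ_of_ne_zero hm0
    have hcard : Nat.card (L ≃ₐ[K1] L) = 2 ^ (m' + 1) := by
      rw [IsGalois.card_aut_eq_finrank K1 L, hm]
    obtain ⟨H, hH⟩ := Sylow.exists_subgroup_card_pow_prime (G := L ≃ₐ[K1] L) 2 (n := m') (by
      rw [hcard]
      exact pow_dvd_pow 2 (Nat.le_succ m'))
    have f1 : Module.finrank (IntermediateField.fixedField H) L = Nat.card H :=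
      IntermediateField.finrank_fixedField_eq_card _
    have f2 := Module.finrank_mul_finrank K1 (IntermediateField.fixedField H) L
    rw [f1, hH, hm, Nat.succ_eq_add_one, pow_succ'] at f2
    have f3 := Nat.eq_of_mul_eq_mul_right (pow_pos two_pos m') f2
    exact hrl_quad K1 (IntermediateField.fixedField H) hchar hsq f3
  rw [hm0, pow_zero] at hm
  have htop := Subalgebra.bot_eq_top_iff_finrank_eq_one.2 hm
  have hz : z ∈ (⊥ : Subalgebra K1 L) := by rw [htop]; exact Algebra.mem_top
  obtain ⟨w, hw⟩ := Algebra.mem_bot.1 hz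
  obtain ⟨x, y, hxy⟩ := hrl_adjoin j hj w.1 w.2
  exact ⟨x, y, by rw [← hw]; exact hxy⟩

end Hrl

/-! ## Row HRL (file Hrl.lean): real closed fields (Artin: `k(i)` is algebraically closed) -/
theorem rig_real (k : Type u) [Field k] [IsRealClosed k] : Rig 2 k := by
  intro E _ _ _ a ha0 ha1
  left
  classical
  -- a finite Galois extension which contains E and a square root of -1
  let pb := Field.powerBasisOfFiniteOfSeparable k E
  let q : k[X] := minpoly k pb.gen * (X ^ 2 + C 1)
  let L := q.SplittingField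
  have hsep : Algebra.IsSeparable k L := inferInstance
  have hnor : Normal k L := inferInstance
  have hgal : IsGalois k L := ⟨⟩
  have hint : IsIntegral k pb.gen := Algebra.IsIntegral.isIntegral _
  have hm1 : minpoly k pb.gen ≠ 0 := minpoly.ne_zero hint
  have hm2 : (X ^ 2 + C 1 : k[X]) ≠ 0 := (monic_X_pow_add_C 1 two_ne_zero).ne_zero
  have hq0 : q ≠ 0 := mul_ne_zero hm1 hm2
  have hspl : (q.map (algebraMap k L)).Splits := SplittingField.splits q
  have hq0' : q.map (algebraMap k L) ≠ 0 := by
    rwa [Ne, Polynomial.map_eq_zero]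
  have s1 : ((minpoly k pb.gen).map (algebraMap k L)).Splits :=
    hspl.of_dvd hq0' (Polynomial.map_dvd _ (Dvd.intro _ rfl))
  have s2 : ((X ^ 2 + C 1 : k[X]).map (algebraMap k L)).Splits :=
    hspl.of_dvd hq0' (Polynomial.map_dvd _ (Dvd.intro_left _ rfl))
  obtain ⟨y, hy⟩ := s1.exists_eval_eq_zero (by
    rw [degree_map]
    exact (minpoly.degree_pos hint).ne')
  obtain ⟨j, hj⟩ := s2.exists_eval_eq_zero (by
    rw [degree_map, degree_X_pow_add_C two_pos]
    norm_num)
  have hj2 : j ^ 2 = -1 := by
    simp at hj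
    linear_combination hj
  let φ : E →ₐ[k] L := pb.lift y (by rw [aeval_def, ← eval_map]; exact hy)
  have hinj : ∀ x z : E, φ x = φ z → x = z := fun x z h => φ.toRingHom.injective h
  obtain ⟨u, v, huv⟩ := hrl_galois (k := k) L j hj2 (φ a)
  by_cases hv : v = 0
  · have h1 : a = algebraMap k E u := by
      apply hinj
      rw [huv, hv, AlgHom.commutes, map_zero, zero_mul, add_zero]
    rcases IsRealClosed.isSquare_or_isSquare_neg u with ⟨s, hs⟩ | ⟨s, hs⟩
    · refine ⟨1, 0, by norm_num, algebraMap k E s, ?_⟩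
      rw [h1, hs, map_mul]
      ring
    · obtain ⟨d, hd⟩ := hrl_one_add s
      refine ⟨0, 1, by norm_num, algebraMap k E d, ?_⟩
      have h2 : 1 - u = d * d := by rw [← hd]; linear_combination hs
      have h3 : 1 - a = algebraMap k E (d * d) := by rw [h1, ← h2, map_sub, map_one]
      rw [h3, map_mul]
      ring
  · have hv' : algebraMap k E v ≠ 0 := by rwa [Ne, map_eq_zero]
    have hvL : algebraMap k L v ≠ 0 := by rwa [Ne, map_eq_zero]
    have hφ : φ ((a - algebraMap k E u) / algebraMap k E v) = j := by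
      rw [map_div₀, map_sub, AlgHom.commutes, AlgHom.commutes, huv, add_sub_cancel_left,
        mul_div_cancel_left₀ _ hvL]
    have hj3 : ((a - algebraMap k E u) / algebraMap k E v) ^ 2 = -1 := by
      apply hinj
      rw [map_pow, hφ, hj2, map_neg, map_one]
    obtain ⟨c, hc⟩ := hrl_sqrt (E := E) _ hj3 u v
    refine ⟨1, 0, by norm_num, c, ?_⟩
    rw [hc]
    field_simp
    ring

end Pool.Agent.KRc
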