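import Pool.Agent.KRc.DefsW

set_option autoImplicit false

namespace Pool.Agent.KRc

open Polynomial Pool.Agent.KMil

universe u

variable (O : Type u) [CommRing O] [IsDomain O] [IsDiscreteValuationRing O]
  [IsAdicComplete (IsLocalRing.maximalIdeal O) O]

/-- the residue map of the power series ring at a distinguished polynomial -/
theorem exists_phiW (w : O[X]) (hw : w.IsDistinguishedAt (IsLocalRing.maximalIdeal O)) :
    ∃ φ : PowerSeries O →+* AdjoinRoot (w.map (algebraMap O (FractionRing O))),
      (∀ q : O[X], φ (q : PowerSeries O) = AdjoinRoot.mk _ (q.map (algebraMap O (FractionRing O))))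
      ∧ ∀ f, φ f = 0 → ∃ g, f = (w : PowerSeries O) * g := by
  let ι : O[X] ⧸ Ideal.span {w} →+* AdjoinRoot (w.map (algebraMap O (FractionRing O))) :=
    Ideal.Quotient.lift _ ((AdjoinRoot.mk (w.map (algebraMap O (FractionRing O)))).comp
      (Polynomial.mapRingHom (algebraMap O (FractionRing O)))) (by
      intro a ha
      obtain ⟨b, rfl⟩ := Ideal.mem_span_singleton.1 ha
      simp [AdjoinRoot.mk_self])
  have hι : ∀ q : O[X], ι (Ideal.Quotient.mk _ q) =
      AdjoinRoot.mk _ (q.map (algebraMap O (FractionRing O))) := fun q => rfl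
  let e := hw.algEquivQuotient
  have he : ∀ q : O[X], e (Ideal.Quotient.mk _ q) =
      Ideal.Quotient.mk (Ideal.span {(w : PowerSeries O)}) (q : PowerSeries O) := fun q => rfl
  let φ : PowerSeries O →+* AdjoinRoot (w.map (algebraMap O (FractionRing O))) :=
    ι.comp ((e.symm : _ →+* _).comp (Ideal.Quotient.mk (Ideal.span {(w : PowerSeries O)})))
  have hφ : ∀ f, φ f = ι (e.symm (Ideal.Quotient.mk _ f)) := fun f => rfl
  refine ⟨φ, ?_, ?_⟩
  · intro q
    rw [hφ, ← he q, AlgEquiv.symm_apply_apply, hι]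
  · intro f hf
    obtain ⟨q, hq⟩ := Ideal.Quotient.mk_surjective (e.symm (Ideal.Quotient.mk _ f))
    rw [hφ, ← hq, hι, AdjoinRoot.mk_eq_zero,
      Polynomial.map_dvd_map _ (IsFractionRing.injective O (FractionRing O)) hw.monic] at hf
    have h0 : Ideal.Quotient.mk (Ideal.span {w}) q = 0 := by
      rw [Ideal.Quotient.eq_zero_iff_mem, Ideal.mem_span_singleton]
      exact hf
    rw [h0] at hq
    have h1 : Ideal.Quotient.mk (Ideal.span {(w : PowerSeries O)}) f = 0 := by
      rw [← e.apply_symm_apply (Ideal.Quotient.mk _ f), ← hq, map_zero]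
    rw [Ideal.Quotient.eq_zero_iff_mem, Ideal.mem_span_singleton] at h1
    exact h1

end Pool.Agent.KRc
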