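import Pool.Agent.KRc.DefsW

/-!
Row WMU: the multiplicity of a distinguished polynomial of positive degree is finite.
-/

set_option autoImplicit false

namespace Pool.Agent.KRc

open Polynomial Pool.Agent.KMil

universe u

private theorem wmu_coeff {O : Type u} [CommRing O] (I : Ideal O) (w : PowerSeries O)
    (hw : PowerSeries.coeff 0 w ∈ I) (m : ℕ) :
    ∀ (g : PowerSeries O) (i : ℕ), PowerSeries.coeff i (w ^ m * g) ∈ I ^ (m - i) := by
  induction m with
  | zero =>
    intro g i
    simp
  | succ m ih =>
    intro g i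
    have h1 : w ^ (m + 1) * g = w * (w ^ m * g) := by ring
    rw [h1, PowerSeries.coeff_mul]
    refine Ideal.sum_mem _ ?_
    rintro ⟨a, b⟩ hab
    rw [Finset.HasAntidiagonal.mem_antidiagonal] at hab
    dsimp only at hab ⊢
    rcases Nat.eq_zero_or_pos a with ha | ha
    · subst ha
      have hb : b = i := by omega
      subst hb
      have h2 : PowerSeries.coeff 0 w * PowerSeries.coeff b (w ^ m * g) ∈ I * I ^ (m - b) :=
        Ideal.mul_mem_mul hw (ih g b)
      rw [← pow_succ'] at h2
      exact Ideal.pow_le_pow_right (by omega) h2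
    · refine Ideal.mul_mem_left _ _ ?_
      exact Ideal.pow_le_pow_right (by omega) (ih g b)

section

variable (O : Type u) [CommRing O] [IsDomain O] [IsDiscreteValuationRing O]
  [IsAdicComplete (IsLocalRing.maximalIdeal O) O]

/-- the multiplicity of a distinguished polynomial of positive degree is finite -/
theorem exists_multW (w : O[X]) (hw : w.IsDistinguishedAt (IsLocalRing.maximalIdeal O))
    (hd : w.natDegree ≠ 0) (f : PowerSeries O) (hf : f ≠ 0) :
    ∃ (m : ℕ) (g : PowerSeries O), f = (w : PowerSeries O) ^ m * g ∧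
      ¬ ∃ g', g = (w : PowerSeries O) * g' := by
  have h0 : PowerSeries.coeff 0 (w : PowerSeries O) ∈ IsLocalRing.maximalIdeal O := by
    rw [Polynomial.coeff_coe]
    exact hw.mem (by omega)
  have hfin : FiniteMultiplicity (w : PowerSeries O) f := by
    by_contra hcon
    rw [FiniteMultiplicity.not_iff_forall] at hcon
    apply hf
    ext i
    rw [map_zero]
    refine IsHausdorff.haus (inferInstance : IsHausdorff (IsLocalRing.maximalIdeal O) O) _ ?_
    intro n
    rw [SModEq.zero, smul_eq_mul, Ideal.mul_top]
    obtain ⟨g, hg⟩ := hcon (n + i)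
    rw [hg]
    have h2 := wmu_coeff (IsLocalRing.maximalIdeal O) (w : PowerSeries O) h0 (n + i) g i
    rwa [Nat.add_sub_cancel] at h2
  obtain ⟨c, hc, hn⟩ := hfin.exists_eq_pow_mul_and_not_dvd
  exact ⟨_, c, hc, hn⟩

end

end Pool.Agent.KRc
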