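import Pool.Agent.KRc.DefsW
import Pool.Agent.KRc.Whm
import Pool.Agent.KRc.Wmu

/-!
Row WGD: the places of the distinguished irreducible polynomials are good.
-/

set_option autoImplicit false

namespace Pool.Agent.KRc

open Polynomial Pool.Agent.KMil

universe u

private theorem wgd_loc {R F E : Type*} [CommRing R] [Field F] [Algebra R F]
    (hinj : Function.Injective (algebraMap R F)) [Field E] (φ : R →+* E) :
    ∃ (A : Subring F) (r : A →+* E),
      (∀ f : F, f ∈ A ↔ ∃ a b : R, φ b ≠ 0 ∧ f * algebraMap R F b = algebraMap R F a) ∧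
      ∀ (f : A) (a b : R), φ b ≠ 0 → (f : F) * algebraMap R F b = algebraMap R F a →
        r f = φ a / φ b := by
  let A : Subring F :=
    { carrier := {f | ∃ a b : R, φ b ≠ 0 ∧ f * algebraMap R F b = algebraMap R F a}
      mul_mem' := by
        rintro x y ⟨a, b, hb, h⟩ ⟨a', b', hb', h'⟩
        refine ⟨a * a', b * b', ?_, ?_⟩
        · rw [map_mul]
          exact mul_ne_zero hb hb'
        · rw [map_mul, map_mul, ← h, ← h']
          ring
      one_mem' := ⟨1, 1, by rw [map_one]; exact one_ne_zero, by rw [one_mul]⟩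
      add_mem' := by
        rintro x y ⟨a, b, hb, h⟩ ⟨a', b', hb', h'⟩
        refine ⟨a * b' + a' * b, b * b', ?_, ?_⟩
        · rw [map_mul]
          exact mul_ne_zero hb hb'
        · rw [map_add, map_mul, map_mul, map_mul, ← h, ← h']
          ring
      zero_mem' := ⟨0, 1, by rw [map_one]; exact one_ne_zero, by rw [zero_mul, map_zero]⟩
      neg_mem' := by
        rintro x ⟨a, b, hb, h⟩
        refine ⟨-a, b, hb, ?_⟩
        rw [map_neg, ← h]
        ring }
  have hA : ∀ f : A, ∃ a b : R, φ b ≠ 0 ∧ (f : F) * algebraMap R F b = algebraMap R F a :=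
    fun f => f.2
  choose num den hden hnum using hA
  have key : ∀ (f : A) (a b : R), φ b ≠ 0 → (f : F) * algebraMap R F b = algebraMap R F a →
      φ (num f) / φ (den f) = φ a / φ b := by
    intro f a b hb h
    have h1 : num f * b = a * den f := by
      apply hinj
      rw [map_mul, map_mul, ← h, ← hnum f]
      ring
    rw [div_eq_div_iff (hden f) hb, ← map_mul, h1, map_mul]
  refine ⟨A, { toFun := fun f => φ (num f) / φ (den f)
               map_one' := ?_
               map_mul' := ?_
               map_zero' := ?_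
               map_add' := ?_ }, fun f => Iff.rfl, fun f a b hb h => key f a b hb h⟩
  · rw [key 1 1 1 (by rw [map_one]; exact one_ne_zero) (by simp), map_one, div_one]
  · intro f g
    have h1 : φ (den f * den g) ≠ 0 := by
      rw [map_mul]
      exact mul_ne_zero (hden f) (hden g)
    rw [key (f * g) (num f * num g) (den f * den g) h1 (by
      rw [map_mul, map_mul, ← hnum f, ← hnum g, Subring.coe_mul]
      ring), map_mul, map_mul, mul_div_mul_comm]
  · rw [key 0 0 1 (by rw [map_one]; exact one_ne_zero) (by simp), map_zero, zero_div]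
  · intro f g
    have h1 : φ (den f * den g) ≠ 0 := by
      rw [map_mul]
      exact mul_ne_zero (hden f) (hden g)
    rw [key (f + g) (num f * den g + den f * num g) (den f * den g) h1 (by
      rw [map_add, map_mul, map_mul, map_mul, ← hnum f, ← hnum g, Subring.coe_add]
      ring), map_add, map_mul, map_mul, map_mul, div_add_div _ _ (hden f) (hden g)]

section

variable (O : Type u) [CommRing O] [IsDomain O] [IsDiscreteValuationRing O]
  [IsAdicComplete (IsLocalRing.maximalIdeal O) O]

theorem good_W (w : O[X]) (hw : w.IsDistinguishedAt (IsLocalRing.maximalIdeal O))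
    (hi : Irreducible (w.map (algebraMap O (FractionRing O)))) :
    @GoodPl (FractionRing O) _ (FractionRing (PowerSeries O)) _ (algF O)
      (w.map (algebraMap O (FractionRing O))) := by
  have : Fact (Irreducible (w.map (algebraMap O (FractionRing O)))) := ⟨hi⟩
  obtain ⟨φ, hφ, hker⟩ := exists_phiW O w hw
  have hιinj := IsFractionRing.injective (PowerSeries O) (FractionRing (PowerSeries O))
  obtain ⟨A, r, hA, hr⟩ := wgd_loc hιinj φ
  have hd : w.natDegree ≠ 0 := by
    intro h0
    have h1 : w = 1 := (Polynomial.Monic.natDegree_eq_zero hw.monic).1 h0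
    apply hi.not_isUnit
    rw [h1, Polynomial.map_one]
    exact isUnit_one
  have hw0 : (w : PowerSeries O) ≠ 0 := by
    rw [Ne, Polynomial.coe_eq_zero_iff]
    exact hw.monic.ne_zero
  have hιw : algebraMap (PowerSeries O) (FractionRing (PowerSeries O)) (w : PowerSeries O) ≠ 0 :=
    fun h => hw0 ((injective_iff_map_eq_zero _).1 hιinj _ h)
  refine ⟨A, r, ?_, ?_, ?_⟩
  · intro q
    obtain ⟨b, hb, hq'⟩ := IsLocalization.integerNormalization_spec (nonZeroDivisors O)
      (S := FractionRing O) q
    set q0 := IsLocalization.integerNormalization (nonZeroDivisors O) q with hq0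
    have h1 : q0.map (algebraMap O (FractionRing O)) =
        (C b : O[X]).map (algebraMap O (FractionRing O)) * q := by
      rw [hq', Polynomial.map_C, Polynomial.C_mul', IsScalarTower.algebraMap_smul]
    have hb0 : b ≠ 0 := nonZeroDivisors.ne_zero hb
    have hc : algebraMap O (FractionRing O) b ≠ 0 := fun h =>
      hb0 ((injective_iff_map_eq_zero _).1 (IsFractionRing.injective O (FractionRing O)) _ h)
    have hφb : φ ((C b : O[X]) : PowerSeries O) ≠ 0 := by
      rw [hφ, Polynomial.map_C, AdjoinRoot.mk_C]
      exact (_root_.map_ne_zero (AdjoinRoot.of _)).2 hc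
    have hq : @jF (FractionRing O) _ (FractionRing (PowerSeries O)) _ (algF O) q *
        algebraMap (PowerSeries O) (FractionRing (PowerSeries O)) ((C b : O[X]) : PowerSeries O) =
        algebraMap (PowerSeries O) (FractionRing (PowerSeries O)) (q0 : PowerSeries O) := by
      rw [jF_W, ← embP_map, ← embP_map, h1, map_mul, mul_comm]
    refine ⟨(hA _).2 ⟨_, _, hφb, hq⟩, ?_⟩
    rw [hr _ _ _ hφb hq]
    rw [hφ] at hφb
    rw [hφ, hφ, h1, map_mul, mul_div_cancel_left₀ _ hφb]
  · intro u hu
    obtain ⟨a, b, hb, hab⟩ := (hA u).1 u.2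
    rw [hr u a b hb hab] at hu
    have ha : φ a ≠ 0 := fun h => hu (by rw [h, zero_div])
    have ha0 : algebraMap (PowerSeries O) (FractionRing (PowerSeries O)) a ≠ 0 := by
      intro h
      have := (injective_iff_map_eq_zero _).1 hιinj _ h
      exact ha (by rw [this, map_zero])
    have hu0 : (u : FractionRing (PowerSeries O)) ≠ 0 := by
      intro h
      rw [h, zero_mul] at hab
      exact ha0 hab.symm
    refine ⟨⟨(u : FractionRing (PowerSeries O))⁻¹, (hA _).2 ⟨b, a, ha, ?_⟩⟩, ?_⟩
    · rw [← hab, ← mul_assoc, inv_mul_cancel₀ hu0, one_mul]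
    · exact mul_inv_cancel₀ hu0
  · intro f hf
    obtain ⟨a, b, hb, hab⟩ := IsFractionRing.div_surjective (A := PowerSeries O) f
    have hb0 : b ≠ 0 := nonZeroDivisors.ne_zero hb
    have ha0 : a ≠ 0 := by
      rintro rfl
      rw [map_zero, zero_div] at hab
      exact hf hab.symm
    obtain ⟨m, a', ha, ha'⟩ := exists_multW O w hw hd a ha0
    obtain ⟨n, b', hb1, hb'⟩ := exists_multW O w hw hd b hb0
    have hφa : φ a' ≠ 0 := fun h => ha' (hker a' h)
    have hφb : φ b' ≠ 0 := fun h => hb' (hker b' h)
    have hb'0 : algebraMap (PowerSeries O) (FractionRing (PowerSeries O)) b' ≠ 0 := by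
      intro h
      have := (injective_iff_map_eq_zero _).1 hιinj _ h
      exact hφb (by rw [this, map_zero])
    have hu : (algebraMap (PowerSeries O) (FractionRing (PowerSeries O)) a' /
        algebraMap (PowerSeries O) (FractionRing (PowerSeries O)) b') *
        algebraMap (PowerSeries O) (FractionRing (PowerSeries O)) b' =
        algebraMap (PowerSeries O) (FractionRing (PowerSeries O)) a' := div_mul_cancel₀ _ hb'0
    refine ⟨(m : ℤ) - (n : ℤ), ⟨_, (hA _).2 ⟨a', b', hφb, hu⟩⟩, ?_, ?_⟩
    · rw [hr _ a' b' hφb hu]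
      exact div_ne_zero hφa hφb
    · rw [jF_W, embP_map, ← hab, ha, hb1, map_mul, map_mul, map_pow, map_pow,
        zpow_sub₀ hιw, zpow_natCast, zpow_natCast, mul_div_mul_comm]

end

end Pool.Agent.KRc
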