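import Pool.Agent.KRc.Wrt
import Pool.Agent.KRc.Wdc
import Pool.Agent.KRc.Wgd

/-! The dichotomy for the fraction field of `O⟦X⟧`. -/

set_option autoImplicit false

namespace Pool.Agent.KRc

open Polynomial

universe u

section

variable (O : Type u) [CommRing O] [IsDomain O] [IsDiscreteValuationRing O]
  [IsAdicComplete (IsLocalRing.maximalIdeal O) O]

theorem dichF_W (p : ℕ) (hp : IsUnit (p : O)) :
    @DichF p (FractionRing O) _ (FractionRing (PowerSeries O)) _ (algF O) := by
  intro π hm hi
  rcases dichW O π hm hi with ⟨w, hw, rfl⟩ | ⟨c, q, hc, hq, hcq⟩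
  · exact Or.inl (good_W O w hw hi)
  · right
    obtain ⟨u0, hu0⟩ : IsUnit (PowerSeries.constantCoeff (q : PowerSeries O)) :=
      PowerSeries.isUnit_iff_constantCoeff.1 hq
    set q1 : PowerSeries O := PowerSeries.C (↑u0⁻¹ : O) * (q : PowerSeries O) with hq1
    have h1 : PowerSeries.constantCoeff q1 = 1 := by
      rw [hq1, map_mul, PowerSeries.constantCoeff_C, ← hu0, Units.inv_mul]
    obtain ⟨g, hg⟩ := exists_rootW p hp q1 h1
    have h2 : (q : PowerSeries O) = PowerSeries.C (u0 : O) * g ^ p := by
      rw [hg, hq1, ← mul_assoc, ← map_mul, Units.mul_inv, map_one, one_mul]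
    have hc' : (algebraMap O (FractionRing O) c) ≠ 0 := by
      intro h
      exact hc ((injective_iff_map_eq_zero _).1 (IsFractionRing.injective O (FractionRing O)) _ h)
    refine ⟨(algebraMap O (FractionRing O) c)⁻¹ * algebraMap O (FractionRing O) (u0 : O),
      algebraMap (PowerSeries O) (FractionRing (PowerSeries O)) g, ?_⟩
    rw [jF_W, jF_W]
    have h3 := congrArg (embP O) hcq
    rw [map_mul, embP_map, h2, map_mul, map_pow] at h3
    have h4 : ∀ a : O, embP O (C (algebraMap O (FractionRing O) a)) =
        algebraMap (PowerSeries O) (FractionRing (PowerSeries O)) (PowerSeries.C a) := by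
      intro a
      have := embP_map O (C a)
      rwa [Polynomial.map_C, Polynomial.coe_C] at this
    have h5 : embP O (C (algebraMap O (FractionRing O) c)) ≠ 0 := by
      intro h
      have := (injective_iff_map_eq_zero _).1 (embP_inj O) _ h
      exact hc' (Polynomial.C_eq_zero.1 this)
    rw [map_mul, map_mul, h4 (u0 : O)]
    have h6 : embP O (C (algebraMap O (FractionRing O) c)⁻¹) =
        (embP O (C (algebraMap O (FractionRing O) c)))⁻¹ := by
      apply eq_inv_of_mul_eq_one_left
      rw [← map_mul, ← map_mul, inv_mul_cancel₀ hc', map_one, map_one]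
    rw [h6]
    field_simp
    linear_combination h3

theorem hone_W : ∃ c : FractionRing O,
    @GoodPl (FractionRing O) _ (FractionRing (PowerSeries O)) _ (algF O) (X - C c) := by
  refine ⟨0, ?_⟩
  have h1 : (X - C (0 : FractionRing O)) = (X : O[X]).map (algebraMap O (FractionRing O)) := by
    rw [map_zero, sub_zero, Polynomial.map_X]
  rw [h1]
  apply good_W
  · refine ⟨⟨?_⟩, Polynomial.monic_X⟩
    intro n hn
    rw [Polynomial.natDegree_X] at hn
    obtain rfl : n = 0 := by omega
    rw [Polynomial.coeff_X_zero]
    exact Ideal.zero_mem _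
  · rw [Polynomial.map_X]
    exact Polynomial.irreducible_X

end

end Pool.Agent.KRc
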