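import Pool.Agent.KRc.DefsW

set_option autoImplicit false

/-! Weierstrass factorization over a complete discrete valuation ring. -/

namespace Pool.Agent.KRc

open Polynomial Pool.Agent.KMil

universe u

private theorem wfa_div (O : Type u) [CommRing O] [IsDomain O] [IsDiscreteValuationRing O]
    (f : PowerSeries O) (hf : f ≠ 0) : ∃ (c : O) (g : PowerSeries O), c ≠ 0 ∧
      g.map (IsLocalRing.residue O) ≠ 0 ∧ f = PowerSeries.C c * g := by
  classical
  obtain ⟨ϖ, hϖ⟩ := IsDiscreteValuationRing.exists_irreducible O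
  have hϖ0 : ϖ ≠ 0 := hϖ.ne_zero
  have hex : ∃ k : ℕ, ∃ i : ℕ, ¬ ϖ ^ (k + 1) ∣ PowerSeries.coeff i f := by
    obtain ⟨i, hi⟩ : ∃ i, PowerSeries.coeff i f ≠ 0 := by
      by_contra hcon
      push Not at hcon
      exact hf (PowerSeries.ext fun i => by rw [hcon i, map_zero])
    obtain ⟨n, hn⟩ := IsDiscreteValuationRing.associated_pow_irreducible hi hϖ
    refine ⟨n, i, fun hdvd => ?_⟩
    have h1 : ϖ ^ (n + 1) ∣ ϖ ^ n := hdvd.trans hn.dvd
    have h2 := (pow_dvd_pow_iff hϖ0 hϖ.not_isUnit).1 h1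
    omega
  obtain ⟨i0, hi0⟩ := Nat.find_spec hex
  set k := Nat.find hex with hk
  have hall : ∀ i, ϖ ^ k ∣ PowerSeries.coeff i f := by
    intro i
    rcases Nat.eq_zero_or_pos k with h0 | h0
    · rw [h0, pow_zero]
      exact one_dvd _
    · have h1 := Nat.find_min hex (m := k - 1) (by omega)
      push Not at h1
      have h2 := h1 i
      rwa [Nat.sub_add_cancel h0] at h2
  choose g hg using hall
  refine ⟨ϖ ^ k, PowerSeries.mk g, pow_ne_zero _ hϖ0, ?_, ?_⟩
  · intro h0
    apply hi0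
    have h1 := congrArg (PowerSeries.coeff i0) h0
    rw [PowerSeries.coeff_map, PowerSeries.coeff_mk, map_zero,
      IsLocalRing.residue_eq_zero_iff] at h1
    rw [hϖ.maximalIdeal_eq, Ideal.mem_span_singleton] at h1
    rw [hg i0, pow_succ]
    exact mul_dvd_mul_left _ h1
  · ext i
    rw [PowerSeries.coeff_C_mul, PowerSeries.coeff_mk]
    exact hg i

theorem exists_facW (O : Type u) [CommRing O] [IsDomain O] [IsDiscreteValuationRing O]
    [IsAdicComplete (IsLocalRing.maximalIdeal O) O]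
    (f : PowerSeries O) (hf : f ≠ 0) : ∃ (c : O) (w : O[X]) (u : PowerSeries O),
    c ≠ 0 ∧ w.IsDistinguishedAt (IsLocalRing.maximalIdeal O) ∧ IsUnit u ∧
      f = PowerSeries.C c * (w : PowerSeries O) * u := by
  obtain ⟨c, g, hc, hg, hfg⟩ := wfa_div O f hf
  obtain ⟨w, u, h⟩ := PowerSeries.exists_isWeierstrassFactorization hg
  exact ⟨c, w, u, hc, h.isDistinguishedAt, h.isUnit, by rw [hfg, h.eq_mul, mul_assoc]⟩

end Pool.Agent.KRc
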