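import Mathlib

set_option autoImplicit false

namespace Pool.Agent.KRc

open Polynomial

universe u

/-- Roots of power series (Hensel). -/
theorem exists_rootW {R : Type u} [CommRing R] (p : ℕ) (hp : IsUnit (p : R)) (f : PowerSeries R)
    (hf : PowerSeries.constantCoeff f = 1) : ∃ g : PowerSeries R, g ^ p = f := by
  rcases Nat.eq_zero_or_pos p with h0 | h0
  · subst h0
    rw [Nat.cast_zero, isUnit_zero_iff] at hp
    have hs : Subsingleton R := subsingleton_of_zero_eq_one hp
    refine ⟨1, ?_⟩
    ext n
    exact Subsingleton.elim _ _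
  · have hI : HenselianRing (PowerSeries R) (Ideal.span {PowerSeries.X}) :=
      IsAdicComplete.henselianRing _ _
    have h1 := hI.is_henselian ((X : (PowerSeries R)[X]) ^ p - C f)
      (monic_X_pow_sub_C f h0.ne') 1 ?_ ?_
    · obtain ⟨g, hg, -⟩ := h1
      refine ⟨g, ?_⟩
      rw [IsRoot.def, eval_sub, eval_pow, eval_X, eval_C, sub_eq_zero] at hg
      exact hg
    · rw [eval_sub, eval_pow, eval_X, eval_C, one_pow, Ideal.mem_span_singleton,
        PowerSeries.X_dvd_iff, map_sub, map_one, hf, sub_self]
    · rw [derivative_sub, derivative_X_pow, derivative_C, sub_zero, eval_mul, eval_C, eval_pow,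
        eval_X, one_pow, mul_one]
      have h2 : IsUnit ((p : ℕ) : PowerSeries R) := by
        have h3 := hp.map (PowerSeries.C (R := R))
        rwa [map_natCast] at h3
      exact h2.map _

end Pool.Agent.KRc
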