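import Pool.Agent.KRc.DefsW
import Pool.Agent.KRc.Wrt
import Pool.Agent.KRc.Wfa

set_option autoImplicit false

/-! Every element of the fraction field of `O⟦X⟧` is a rational function times a `p`-th power. -/

namespace Pool.Agent.KRc

open Polynomial Pool.Agent.KMil

universe u

section

variable (O : Type u) [CommRing O] [IsDomain O] [IsDiscreteValuationRing O]
  [IsAdicComplete (IsLocalRing.maximalIdeal O) O]

/-- a nonzero power series is a polynomial times a `p`-th power -/
theorem polyPow_W (p : ℕ) (hp : IsUnit (p : O)) (f : PowerSeries O) (hf : f ≠ 0) :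
    ∃ (q : O[X]) (h : PowerSeries O), q ≠ 0 ∧ f = (q : PowerSeries O) * h ^ p := by
  obtain ⟨c, w, u, hc, hw, hu, e⟩ := exists_facW O f hf
  have h0 : IsUnit (PowerSeries.constantCoeff u) := hu.map _
  obtain ⟨v, hv⟩ := h0
  have h1 : PowerSeries.constantCoeff (PowerSeries.C ((v⁻¹ : Oˣ) : O) * u) = 1 := by
    rw [map_mul, PowerSeries.constantCoeff_C, ← hv, Units.inv_mul]
  obtain ⟨g, hg⟩ := exists_rootW p hp _ h1
  refine ⟨C (c * (v : O)) * w, g, ?_, ?_⟩
  · refine mul_ne_zero ?_ hw.monic.ne_zero
    rw [Ne, C_eq_zero]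
    exact mul_ne_zero hc v.ne_zero
  · rw [hg, e, Polynomial.coe_mul, Polynomial.coe_C, map_mul]
    have h2 : PowerSeries.C (v : O) * PowerSeries.C ((v⁻¹ : Oˣ) : O) = 1 := by
      rw [← map_mul, Units.mul_inv, map_one]
    linear_combination (-(PowerSeries.C c * (w : PowerSeries O) * u)) * h2

/-! ## Row WGN (file Wgn.lean): uses WRT WFA -/
theorem genF_W (p : ℕ) (hp : IsUnit (p : O)) :
    @GenF p (FractionRing O) _ (FractionRing (PowerSeries O)) _ (algF O) := by
  let _ := algF O
  intro f
  obtain ⟨a, b, hb, rfl⟩ := IsFractionRing.div_surjective (A := PowerSeries O) f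
  have hb0 : b ≠ 0 := nonZeroDivisors.ne_zero hb
  rcases eq_or_ne a 0 with ha | ha
  · exact ⟨0, 1, by rw [ha, map_zero, zero_div, map_zero, zero_mul]⟩
  · obtain ⟨q1, g1, hq1, e1⟩ := polyPow_W O p hp a ha
    obtain ⟨q2, g2, hq2, e2⟩ := polyPow_W O p hp b hb0
    have k1 : ∀ q : O[X], algebraMap (PowerSeries O) (FractionRing (PowerSeries O)) (q : PowerSeries O) =
        algebraMap (RatFunc (FractionRing O)) (FractionRing (PowerSeries O))
          (algebraMap _ _ (q.map (algebraMap O (FractionRing O)))) := by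
      intro q
      rw [← embP_map]
      exact (jF_W O _).symm
    refine ⟨algebraMap _ _ (q1.map (algebraMap O (FractionRing O))) /
      algebraMap _ _ (q2.map (algebraMap O (FractionRing O))),
      algebraMap (PowerSeries O) (FractionRing (PowerSeries O)) g1 /
        algebraMap (PowerSeries O) (FractionRing (PowerSeries O)) g2, ?_⟩
    rw [map_div₀, ← k1, ← k1, div_pow, div_mul_div_comm, ← map_pow, ← map_pow, ← map_mul, ← map_mul,
      ← e1, ← e2]

end

end Pool.Agent.KRc
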