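import Pool.Agent.KRc.Main
import Pool.Agent.KRc.Wgn
import Pool.Agent.KRc.Wdi

/-!
Row WFN of the board KRc: the Milnor ring of the fraction field of `O⟦X⟧`.
-/

set_option autoImplicit false

namespace Pool.Agent.KRc

open Polynomial Pool.Agent.KMil

universe u

variable (O : Type u) [CommRing O] [IsDomain O] [IsDiscreteValuationRing O]
  [IsAdicComplete (IsLocalRing.maximalIdeal O) O]

theorem koszul_W (p : ℕ) [Fact p.Prime] (hp : IsUnit (p : O))
    (hE : ∀ (E : Type u) [Field E] [Algebra (FractionRing O) E]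
      [FiniteDimensional (FractionRing O) E] (a : E), a ≠ 0 → a ≠ 1 →
      (∃ i j : ℕ, ¬ (p ∣ i ∧ p ∣ j) ∧ ∃ c : E, (-1) ^ (i * j) * (a ^ i * (1 - a) ^ j) = c ^ p) ∨
      (p = 2 ∧ (∃ s t : FractionRing O, s ^ 2 + t ^ 2 = -1) ∧ (∃ c : E, -a = c ^ 2) ∧
        ∃ c : E, a - 1 = c ^ 2)) :
    IsKoszul (KMn p (FractionRing (PowerSeries O))) :=
  @koszul_field (FractionRing O) _ (FractionRing (PowerSeries O)) _ (algF O) p _
    (genF_W O p hp) (dichF_W O p hp) (hone_W O) hE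

end Pool.Agent.KRc
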