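import Pool.Agent.KRc.Main
import Pool.Agent.KRc.Gdr
import Pool.Agent.KRc.Wfn
import Pool.Agent.KRc.Hco
import Pool.Agent.KRc.Hff
import Pool.Agent.KRc.Hac
import Pool.Agent.KRc.Hrl

/-!
Fields to which `koszul_field` applies: `k(y)` and the fraction field of `O⟦y⟧`.
-/

set_option autoImplicit false

namespace Pool.Agent.KRc

open Polynomial Pool.Agent.KMil

universe u

theorem genF_ratFunc (p : ℕ) (k : Type u) [Field k] : GenF p k (RatFunc k) :=
  fun f => ⟨f, 1, by simp⟩

theorem dichF_ratFunc (p : ℕ) (k : Type u) [Field k] : DichF p k (RatFunc k) :=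
  fun π hm hi => Or.inl (good_ratFunc π hm hi)

/-- rational function fields -/
theorem cor_ratFunc (p : ℕ) [Fact p.Prime] (k : Type u) [Field k] (h : Rig p k) :
    IsKoszul (KMn p (RatFunc k)) :=
  koszul_field p (genF_ratFunc p k) (dichF_ratFunc p k)
    ⟨0, good_ratFunc _ (monic_X_sub_C 0) (irreducible_X_sub_C 0)⟩ h

section

variable (O : Type u) [CommRing O] [IsDomain O] [IsDiscreteValuationRing O]
  [IsAdicComplete (IsLocalRing.maximalIdeal O) O]

/-- the fraction field of `O⟦X⟧` -/
theorem cor_series (p : ℕ) [Fact p.Prime] (hp : IsUnit (p : O))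
    (h : Rig p (IsLocalRing.ResidueField O)) :
    IsKoszul (KMn p (FractionRing (PowerSeries O))) :=
  koszul_W O p hp (rig_complete O p hp h)

/-- rational function fields over complete discretely valued fields -/
theorem cor_ratFunc_complete (p : ℕ) [Fact p.Prime] (hp : IsUnit (p : O))
    (h : Rig p (IsLocalRing.ResidueField O)) :
    IsKoszul (KMn p (RatFunc (FractionRing O))) :=
  cor_ratFunc p _ (rig_complete O p hp h)

end

end Pool.Agent.KRc
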