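import Pool.Agent.KRb.Defs

/-!
Definitions for the theorem on fields `F` generated by `K(y)` and `p`-th powers (MP_da2a57_al).
-/

set_option autoImplicit false

namespace Pool.Agent.KRc

open Finsupp Pool.Agent.KMil Pool.Agent.KRat Pool.Agent.KRb Polynomial

universe u

variable {K : Type u} [Field K]

/-- the image of a polynomial in `F` -/
noncomputable def jF (F : Type u) [Field F] [Algebra (RatFunc K) F] (q : K[X]) : F :=
  algebraMap (RatFunc K) F (algebraMap K[X] (RatFunc K) q)

/-- the `π`-adic valuation of `K(y)` extends to a discrete valuation of `F` with uniformiser `π`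
and residue field `K[y]/(π)`: `O` is the valuation ring and `r` the residue map -/
def GoodPl (F : Type u) [Field F] [Algebra (RatFunc K) F] (π : K[X]) : Prop :=
  ∃ (O : Subring F) (r : O →+* AdjoinRoot π),
    (∀ q : K[X], ∃ h : jF F q ∈ O, r ⟨jF F q, h⟩ = AdjoinRoot.mk π q) ∧
    (∀ u : O, r u ≠ 0 → ∃ w : O, (u : F) * (w : F) = 1) ∧
    (∀ f : F, f ≠ 0 → ∃ (m : ℤ) (u : O), r u ≠ 0 ∧ f = jF F π ^ m * (u : F))

/-- the good monic irreducible polynomials of degree `d` -/
abbrev GP (K : Type u) [Field K] (F : Type u) [Field F] [Algebra (RatFunc K) F] (d : ℕ) : Type u :=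
  {π : Pl K d // GoodPl F π.1}

/-- the symbol in `F` of a polynomial -/
noncomputable def psymF (p : ℕ) (F : Type u) [Field F] [Algebra (RatFunc K) F] (q : K[X]) : KM p F :=
  open Classical in if h : jF F q = 0 then 0 else sym p (Units.mk0 (jF F q) h)

/-- the span of the symbols of the polynomials of degree at most `d` -/
noncomputable def VF (p : ℕ) (K : Type u) [Field K] (F : Type u) [Field F] [Algebra (RatFunc K) F]
    (d : ℕ) : Submodule (ZMod p) (KM p F) :=
  Submodule.span (ZMod p) {x | ∃ q : K[X], q ≠ 0 ∧ q.natDegree ≤ d ∧ x = psymF p F q}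

/-- every element of `F` is an element of `K(y)` times a `p`-th power -/
def GenF (p : ℕ) (K : Type u) [Field K] (F : Type u) [Field F] [Algebra (RatFunc K) F] : Prop :=
  ∀ f : F, ∃ (g : RatFunc K) (h : F), f = algebraMap (RatFunc K) F g * h ^ p

/-- each monic irreducible polynomial is good or a constant times a `p`-th power in `F` -/
def DichF (p : ℕ) (K : Type u) [Field K] (F : Type u) [Field F] [Algebra (RatFunc K) F] : Prop :=
  ∀ π : K[X], π.Monic → Irreducible π →
    GoodPl F π ∨ ∃ (c : K) (h : F), jF F π = jF F (C c) * h ^ p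

end Pool.Agent.KRc
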