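import Mathlib

/-!
The hypothesis on the base field, and elements of positive valuation in finite extensions of the
fraction field of a complete discrete valuation ring (MP_da2a57_al).
-/

set_option autoImplicit false

namespace Pool.Agent.KRc

open Polynomial

universe u

/-- for every finite extension `E` of `k` the symbols of `a` and `1 - a` are dependent -/
def Rig (p : ℕ) (k : Type u) [Field k] : Prop :=
  ∀ (E : Type u) [Field E] [Algebra k E] [FiniteDimensional k E] (a : E), a ≠ 0 → a ≠ 1 →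
    (∃ i j : ℕ, ¬ (p ∣ i ∧ p ∣ j) ∧ ∃ c : E, (-1) ^ (i * j) * (a ^ i * (1 - a) ^ j) = c ^ p) ∨
    (p = 2 ∧ (∃ s t : k, s ^ 2 + t ^ 2 = -1) ∧ (∃ c : E, -a = c ^ 2) ∧ ∃ c : E, a - 1 = c ^ 2)

/-- `x` is a zero of a distinguished polynomial -/
def Sm (O : Type u) [CommRing O] [IsLocalRing O] {E : Type u} [Field E] [Algebra O E] (x : E) :
    Prop :=
  ∃ w : O[X], w.IsDistinguishedAt (IsLocalRing.maximalIdeal O) ∧ w.natDegree ≠ 0 ∧
    Polynomial.aeval x w = 0

end Pool.Agent.KRc
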