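import Pool.Agent.KRc.Defs

/-!
The embedding of `K(y)` in the fraction field of `O⟦y⟧`, `K` the fraction field of `O`.
-/

set_option autoImplicit false

namespace Pool.Agent.KRc

open Polynomial

universe u

section

variable (O : Type u) [CommRing O] [IsDomain O]

/-- the map from the fraction field of `O` to the fraction field of `O⟦X⟧` -/
noncomputable def embK : FractionRing O →+* FractionRing (PowerSeries O) :=
  IsFractionRing.lift (A := O) (K := FractionRing O)
    (g := (algebraMap (PowerSeries O) (FractionRing (PowerSeries O))).comp
      (PowerSeries.C (R := O)))
    ((IsFractionRing.injective (PowerSeries O) (FractionRing (PowerSeries O))).comp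
      PowerSeries.C_injective)

/-- the map from the polynomials over the fraction field of `O` to the fraction field of `O⟦X⟧` -/
noncomputable def embP : (FractionRing O)[X] →+* FractionRing (PowerSeries O) :=
  Polynomial.eval₂RingHom (embK O)
    (algebraMap (PowerSeries O) (FractionRing (PowerSeries O)) PowerSeries.X)

theorem embP_map (q : O[X]) : embP O (q.map (algebraMap O (FractionRing O))) =
    algebraMap (PowerSeries O) (FractionRing (PowerSeries O)) (q : PowerSeries O) := by
  induction q using Polynomial.induction_on' with
  | add a b ha hb => simp only [Polynomial.map_add, map_add, ha, hb, Polynomial.coe_add]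
  | monomial n a =>
    rw [Polynomial.map_monomial, embP, Polynomial.coe_eval₂RingHom, Polynomial.eval₂_monomial,
      embK, IsFractionRing.lift_algebraMap, ← Polynomial.C_mul_X_pow_eq_monomial]
    simp

theorem embP_inj : Function.Injective (embP O) := by
  rw [injective_iff_map_eq_zero]
  intro q hq
  obtain ⟨b, hb, hq'⟩ := IsLocalization.integerNormalization_spec (nonZeroDivisors O)
    (S := FractionRing O) q
  have h1 : embP O ((IsLocalization.integerNormalization (nonZeroDivisors O) q).map
      (algebraMap O (FractionRing O))) = 0 := by
    rw [hq', ← IsScalarTower.algebraMap_smul (FractionRing O) b q, ← Polynomial.C_mul', map_mul,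
      hq, mul_zero]
  rw [embP_map] at h1
  have h2 := (injective_iff_map_eq_zero _).1
    (IsFractionRing.injective (PowerSeries O) (FractionRing (PowerSeries O))) _ h1
  rw [Polynomial.coe_eq_zero_iff] at h2
  exact (IsLocalization.integerNormalization_eq_zero_iff le_rfl q).1 h2

/-- the embedding of `K(y)`, `K` the fraction field of `O`, in the fraction field of `O⟦X⟧` -/
noncomputable def embF : RatFunc (FractionRing O) →+* FractionRing (PowerSeries O) :=
  RatFunc.liftRingHom (embP O) (nonZeroDivisors_le_comap_nonZeroDivisors_of_injective _ (embP_inj O))

/-- the fraction field of `O⟦X⟧` as an algebra over `K(y)`, `K` the fraction field of `O` -/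
noncomputable abbrev algF : Algebra (RatFunc (FractionRing O)) (FractionRing (PowerSeries O)) :=
  (embF O).toAlgebra

theorem jF_W (q : (FractionRing O)[X]) :
    @jF (FractionRing O) _ (FractionRing (PowerSeries O)) _ (algF O) q = embP O q := by

  show embF O (algebraMap _ _ q) = _
  rw [embF, RatFunc.liftRingHom_algebraMap]


end

end Pool.Agent.KRc
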