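import Pool.Agent.KRc.DefsH
import Pool.Agent.KRc.DefsW
import Pool.Agent.KRc.Wrt

/-! `p`-th roots of `1 + x`, `x` a zero of a distinguished polynomial. -/

set_option autoImplicit false

namespace Pool.Agent.KRc

open Polynomial

universe u

section

variable (O : Type u) [CommRing O] [IsDomain O] [IsDiscreteValuationRing O]
  [IsAdicComplete (IsLocalRing.maximalIdeal O) O]

variable {E : Type u} [Field E] [Algebra (FractionRing O) E] [Algebra O E]
  [IsScalarTower O (FractionRing O) E]

omit [IsDomain O] [IsDiscreteValuationRing O] [IsAdicComplete (IsLocalRing.maximalIdeal O) O]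
  [Algebra (FractionRing O) E] [IsScalarTower O (FractionRing O) E] in
theorem exists_evH [IsLocalRing O] [IsAdicComplete (IsLocalRing.maximalIdeal O) O] (x : E)
    (w : O[X]) (hw : w.IsDistinguishedAt (IsLocalRing.maximalIdeal O))
    (hx : Polynomial.aeval x w = 0) :
    ∃ φ : PowerSeries O →+* E, ∀ q : O[X], φ (q : PowerSeries O) = Polynomial.aeval x q := by
  let ι : O[X] ⧸ Ideal.span {w} →+* E :=
    Ideal.Quotient.lift _ ((Polynomial.aeval x : O[X] →ₐ[O] E) : O[X] →+* E) (by
      intro a ha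
      obtain ⟨b, rfl⟩ := Ideal.mem_span_singleton.1 ha
      rw [map_mul]
      simp [hx])
  have hι : ∀ q : O[X], ι (Ideal.Quotient.mk _ q) = Polynomial.aeval x q := fun q => rfl
  let e := hw.algEquivQuotient
  have he : ∀ q : O[X], e (Ideal.Quotient.mk _ q) =
      Ideal.Quotient.mk (Ideal.span {(w : PowerSeries O)}) (q : PowerSeries O) := fun q => rfl
  let φ : PowerSeries O →+* E :=
    ι.comp ((e.symm : _ →+* _).comp (Ideal.Quotient.mk (Ideal.span {(w : PowerSeries O)})))
  have hφ : ∀ f, φ f = ι (e.symm (Ideal.Quotient.mk _ f)) := fun f => rfl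
  refine ⟨φ, fun q => ?_⟩
  rw [hφ, ← he q, AlgEquiv.symm_apply_apply, hι]

theorem Sm.root {x : E} (h : Sm O x) (p : ℕ) (hp : IsUnit (p : O)) : ∃ c : E, c ^ p = 1 + x := by
  obtain ⟨w, hw, -, hx⟩ := h
  obtain ⟨φ, hφ⟩ := exists_evH O x w hw hx
  obtain ⟨g, hg⟩ := exists_rootW p hp ((1 + X : O[X]) : PowerSeries O) (by simp)
  refine ⟨φ g, ?_⟩
  rw [← map_pow, hg, hφ]
  simp

end

end Pool.Agent.KRc
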