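import Pool.Agent.KRc.Defs
import Pool.Agent.KRat.PSymB

/-!
Row JST: functoriality of the Milnor ring, symbols of polynomials in `F`.
-/

set_option autoImplicit false

namespace Pool.Agent.KRc

open Finsupp Pool.Agent.KMil Pool.Agent.KRat Pool.Agent.KRb Polynomial

universe u

variable {K : Type u} [Field K] {F : Type u} [Field F] [Algebra (RatFunc K) F]

private theorem jst_ne {q : K[X]} (hq : q ≠ 0) : jF F q ≠ 0 :=
  (map_ne_zero (algebraMap (RatFunc K) F)).2 (RatFunc.algebraMap_ne_zero hq)

variable (p : ℕ)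

private theorem jst_eq {q : K[X]} (h : jF F q ≠ 0) : psymF p F q = sym p (Units.mk0 _ h) := by
  unfold psymF
  rw [dif_neg h]

private theorem jst_zero {q : K[X]} (h : jF F q = 0) : psymF p F q = 0 := by
  unfold psymF
  rw [dif_pos h]

private theorem jst_mem (q : K[X]) : psymF p F q ∈ KMn p F 1 := by
  by_cases h : jF F q = 0
  · rw [jst_zero p h]
    exact zero_mem _
  · rw [jst_eq p h]
    exact sym_mem p _

omit [Algebra (RatFunc K) F] in
private theorem jst_div (a b : Fˣ) : sym p (a * b⁻¹) = sym p a - sym p b := by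
  rw [sym_mul, sym_inv, sub_eq_add_neg]

omit [Algebra (RatFunc K) F] in
private theorem jst_pow (a : Fˣ) (n : ℕ) : sym p (a ^ n) = (n : ZMod p) • sym p a := by
  induction n with
  | zero => rw [pow_zero, sym_one, Nat.cast_zero, zero_smul]
  | succ n ih => rw [pow_succ, sym_mul, ih, Nat.cast_succ, add_smul, one_smul]

omit [Algebra (RatFunc K) F] in
/-- the symbol of a `p`-th power is zero -/
private theorem jst_ppow (a : Fˣ) (h : F) (ha : (a : F) = h ^ p) : sym p a = 0 := by
  by_cases hp : p = 0
  · have h1 : a = 1 := by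
      apply Units.ext
      rw [ha, hp, pow_zero, Units.val_one]
    rw [h1, sym_one]
  · have h0 : h ≠ 0 := by
      rintro rfl
      rw [zero_pow hp] at ha
      exact a.ne_zero ha
    have h1 : a = (Units.mk0 h h0) ^ p := by
      apply Units.ext
      rw [ha, Units.val_pow_eq_pow_val, Units.val_mk0]
    rw [h1, jst_pow, ZMod.natCast_self, zero_smul]

/-- the algebra map induced by a field extension -/
private noncomputable def jstJ (K F : Type u) [Field K] [Field F] [Algebra (RatFunc K) F] :
    KM p (RatFunc K) →ₐ[ZMod p] KM p F :=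
  liftKM (FreeAlgebra.lift (ZMod p) (fun a : (RatFunc K)ˣ =>
    sym p (Units.map (algebraMap (RatFunc K) F : RatFunc K →* F) a))) (by
      intro x y h
      cases h with
      | mul a b =>
        rw [map_add, FreeAlgebra.lift_ι_apply, FreeAlgebra.lift_ι_apply, FreeAlgebra.lift_ι_apply,
          map_mul, sym_mul]
      | steinberg a b h =>
        rw [map_mul, FreeAlgebra.lift_ι_apply, FreeAlgebra.lift_ι_apply, map_zero]
        apply sym_steinberg
        have h1 := congrArg (algebraMap (RatFunc K) F) h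
        rw [map_add, map_one] at h1
        exact h1)

private theorem jstJ_sym (a : (RatFunc K)ˣ) :
    jstJ p K F (sym p a) = sym p (Units.map (algebraMap (RatFunc K) F : RatFunc K →* F) a) := by
  unfold jstJ
  exact (liftKM_quo _ _ (FreeAlgebra.ι (ZMod p) a)).trans (FreeAlgebra.lift_ι_apply _ _)

private theorem jstJ_psym (q : K[X]) : jstJ p K F (psym p K q) = psymF p F q := by
  by_cases hq : q = 0
  · have h1 : psym p K q = 0 := by
      unfold psym
      rw [dif_pos (by rw [hq, map_zero])]
    rw [h1, map_zero, jst_zero]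
    unfold jF
    rw [hq, map_zero, map_zero]
  · rw [psym_eq p K hq (RatFunc.algebraMap_ne_zero hq), jstJ_sym, jst_eq p (jst_ne hq)]
    congr 1
    apply Units.ext
    rfl

private theorem jst_map (K F : Type u) [Field K] [Field F] [Algebra (RatFunc K) F] (d : ℕ) :
    (VV p K d).map (jstJ p K F).toLinearMap = VF p K F d := by
  unfold VV VF
  rw [Submodule.map_span]
  congr 1
  ext x
  constructor
  · rintro ⟨y, ⟨q, hq, hd, rfl⟩, rfl⟩
    exact ⟨q, hq, hd, jstJ_psym p q⟩
  · rintro ⟨q, hq, hd, rfl⟩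
    exact ⟨psym p K q, ⟨q, hq, hd, rfl⟩, jstJ_psym p q⟩

private theorem jst_map_pow (K F : Type u) [Field K] [Field F] [Algebra (RatFunc K) F] (d n : ℕ) :
    (VV p K d ^ n).map (jstJ p K F).toLinearMap = VF p K F d ^ n := by
  rw [Submodule.map_pow, jst_map]

theorem exists_J (K F : Type u) [Field K] [Field F] [Algebra (RatFunc K) F] :
    ∃ J : KM p (RatFunc K) →ₐ[ZMod p] KM p F, (∀ q : K[X], J (psym p K q) = psymF p F q) ∧
      (∀ d n, ∀ x ∈ VV p K d ^ n, J x ∈ VF p K F d ^ n) ∧
      (∀ d n, ∀ y ∈ VF p K F d ^ n, ∃ x ∈ VV p K d ^ n, J x = y) := by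
  refine ⟨jstJ p K F, jstJ_psym p, ?_, ?_⟩
  · intro d n x hx
    rw [← jst_map_pow]
    exact Submodule.mem_map_of_mem hx
  · intro d n y hy
    rw [← jst_map_pow] at hy
    obtain ⟨x, hx, h⟩ := hy
    exact ⟨x, hx, h⟩

theorem VF_mono (K F : Type u) [Field K] [Field F] [Algebra (RatFunc K) F] :
    Monotone (VF p K F) := by
  intro d d' h
  unfold VF
  apply Submodule.span_mono
  rintro x ⟨q, hq, hd, rfl⟩
  exact ⟨q, hq, hd.trans h, rfl⟩

theorem VF_le (K F : Type u) [Field K] [Field F] [Algebra (RatFunc K) F] (d : ℕ) :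
    VF p K F d ≤ KMn p F 1 := by
  unfold VF
  rw [Submodule.span_le]
  rintro x ⟨q, hq, hd, rfl⟩
  exact jst_mem p q

theorem iSup_VF (K F : Type u) [Field K] [Field F] [Algebra (RatFunc K) F] (hF : GenF p K F) :
    ⨆ d, VF p K F d = KMn p F 1 := by
  apply le_antisymm (iSup_le fun d => VF_le p K F d)
  unfold KMn
  rw [Submodule.span_le]
  rintro x ⟨l, hl, rfl⟩
  obtain ⟨u, rfl⟩ := List.length_eq_one_iff.1 hl
  obtain ⟨g, h, hu⟩ := hF (u : F)
  have hg : algebraMap (RatFunc K) F g ≠ 0 := by
    intro h0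
    rw [h0, zero_mul] at hu
    exact u.ne_zero hu
  have hh : h ^ p ≠ 0 := by
    intro h0
    rw [h0, mul_zero] at hu
    exact u.ne_zero hu
  have hg0 : g ≠ 0 := by
    rintro rfl
    exact hg (map_zero _)
  have hq : RatFunc.num g ≠ 0 := RatFunc.num_ne_zero hg0
  have hr : RatFunc.denom g ≠ 0 := RatFunc.denom_ne_zero _
  have h1 : psymF p F (RatFunc.num g) ∈ ⨆ d, VF p K F d :=
    Submodule.mem_iSup_of_mem (RatFunc.num g).natDegree
      (Submodule.subset_span ⟨_, hq, le_rfl, rfl⟩)
  have h2 : psymF p F (RatFunc.denom g) ∈ ⨆ d, VF p K F d :=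
    Submodule.mem_iSup_of_mem (RatFunc.denom g).natDegree
      (Submodule.subset_span ⟨_, hr, le_rfl, rfl⟩)
  have e : u = (Units.mk0 _ (jst_ne (F := F) hq) * (Units.mk0 _ (jst_ne (F := F) hr))⁻¹)
      * Units.mk0 _ hh := by
    apply Units.ext
    rw [Units.val_mul, Units.val_mul, Units.val_inv_eq_inv_val, Units.val_mk0, Units.val_mk0,
      Units.val_mk0, hu]
    congr 1
    unfold jF
    rw [← div_eq_mul_inv, ← map_div₀, RatFunc.num_div_denom]
  have h3 : (List.map (sym p) [u]).prod
      = psymF p F (RatFunc.num g) - psymF p F (RatFunc.denom g) := by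
    rw [List.map_singleton, List.prod_singleton, e, sym_mul, jst_div, jst_ppow p (Units.mk0 _ hh) h rfl,
      add_zero,
      jst_eq p (jst_ne hq), jst_eq p (jst_ne hr)]
  rw [SetLike.mem_coe, h3]
  exact Submodule.sub_mem _ h1 h2

theorem KMn_powF (F : Type u) [Field F] (n : ℕ) : KMn p F n = KMn p F 1 ^ n := by
  apply le_antisymm
  · conv_lhs => unfold KMn
    rw [Submodule.span_le]
    rintro x ⟨l, hl, rfl⟩
    subst hl
    induction l with
    | nil =>
      rw [List.map_nil, List.prod_nil, List.length_nil, pow_zero]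
      exact Submodule.one_le.1 le_rfl
    | cons a l ih =>
      rw [List.map_cons, List.prod_cons, List.length_cons, pow_succ']
      exact Submodule.mul_mem_mul (sym_mem p a) ih
  · induction n with
    | zero =>
      rw [pow_zero, KM_zero, Submodule.one_eq_span]
    | succ n ih =>
      rw [pow_succ]
      refine (mul_le_mul_left ih _).trans ?_
      rw [Submodule.mul_le]
      intro x hx y hy
      exact SetLike.mul_mem_graded hx hy

/-- the symbol of a constant -/
theorem psymF_bad (π : K[X]) (hπ : π ≠ 0) (h : ∃ (c : K) (h : F), jF F π = jF F (C c) * h ^ p) :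
    ∃ c : K, c ≠ 0 ∧ psymF p F π = psymF p F (C c) := by
  obtain ⟨c, h, hc⟩ := h
  have h0 := jst_ne (F := F) hπ
  have hc1 : jF F (C c : K[X]) ≠ 0 := by
    intro h1
    rw [h1, zero_mul] at hc
    exact h0 hc
  have hh : h ^ p ≠ 0 := by
    intro h1
    rw [h1, mul_zero] at hc
    exact h0 hc
  refine ⟨c, ?_, ?_⟩
  · rintro rfl
    apply hc1
    unfold jF
    rw [C_0, map_zero, map_zero]
  · rw [jst_eq p h0, jst_eq p hc1]
    have e : Units.mk0 _ h0 = Units.mk0 _ hc1 * Units.mk0 _ hh := by
      apply Units.ext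
      rw [Units.val_mul, Units.val_mk0, Units.val_mk0, Units.val_mk0, hc]
    rw [e, sym_mul, jst_ppow p (Units.mk0 _ hh) h rfl, add_zero]

theorem psymF_neg_one : psymF 2 F (-1 : K[X]) = rm F := by
  have h : jF F (-1 : K[X]) ≠ 0 := jst_ne (neg_ne_zero.2 one_ne_zero)
  rw [jst_eq 2 h]
  unfold rm
  congr 1
  apply Units.ext
  rw [Units.val_mk0, Units.val_neg, Units.val_one]
  unfold jF
  rw [map_neg, map_one, map_neg, map_one]

omit [Algebra (RatFunc K) F] in
private theorem jst_span {x : KM p F} (hx : x ∈ KMn p F 1) :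
    x ∈ Submodule.span (ZMod p) (Set.range (sym p : Fˣ → KM p F)) := by
  refine (Submodule.span_le.2 ?_ : KMn p F 1 ≤ _) hx
  rintro y ⟨l, hl, rfl⟩
  rw [List.length_eq_one_iff] at hl
  obtain ⟨a, rfl⟩ := hl
  refine Submodule.subset_span ⟨a, ?_⟩
  simp

omit [Algebra (RatFunc K) F] in
private theorem jst_neg (h1 : ∃ c : F, c ^ p = -1) (a : Fˣ) : sym p (-a) = sym p a := by
  obtain ⟨c, hc⟩ := h1
  rw [← neg_one_mul, sym_mul, jst_ppow p (-1) c (by rw [Units.val_neg, Units.val_one, hc]), zero_add]

theorem anti_KMF [Fact p.Prime] (h1 : ∃ c : F, c ^ p = -1) :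
    Anti ((KMn p F 1 : Submodule (ZMod p) _) : Set (KM p F)) := by
  have hxy : ∀ x ∈ Submodule.span (ZMod p) (Set.range (sym p : Fˣ → KM p F)),
      ∀ y ∈ Submodule.span (ZMod p) (Set.range (sym p : Fˣ → KM p F)),
      x * y + y * x = 0 := by
    intro x hx y hy
    induction hx using Submodule.span_induction with
    | mem x hx =>
      obtain ⟨a, rfl⟩ := hx
      induction hy using Submodule.span_induction with
      | mem y hy =>
        obtain ⟨b, rfl⟩ := hy
        exact sym_anticomm p a b
      | zero => rw [mul_zero, zero_mul, add_zero]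
      | add y z _ _ h2 h3 =>
        rw [mul_add, add_mul]
        have : sym p a * y + sym p a * z + (y * sym p a + z * sym p a)
            = (sym p a * y + y * sym p a) + (sym p a * z + z * sym p a) := by abel
        rw [this, h2, h3, add_zero]
      | smul c y _ h2 => rw [mul_smul_comm, smul_mul_assoc, ← smul_add, h2, smul_zero]
    | zero => rw [mul_zero, zero_mul, add_zero]
    | add x z _ _ h2 h3 =>
      rw [mul_add, add_mul]
      have : x * y + z * y + (y * x + y * z) = (x * y + y * x) + (z * y + y * z) := by abel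
      rw [this, h2, h3, add_zero]
    | smul c x _ h2 => rw [mul_smul_comm, smul_mul_assoc, ← smul_add, h2, smul_zero]
  refine ⟨fun x hx => ?_, fun x hx y hy => hxy x (jst_span p hx) y (jst_span p hy)⟩
  have hx' := jst_span p hx
  clear hx
  induction hx' using Submodule.span_induction with
  | mem x hx =>
    obtain ⟨a, rfl⟩ := hx
    have h2 := sym_neg_self p a
    rw [jst_neg p h1] at h2
    exact h2
  | zero => rw [mul_zero]
  | add x y hx hy h2 h3 =>
    have : (x + y) * (x + y) = x * x + y * y + (x * y + y * x) := by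
      rw [mul_add, add_mul, add_mul]; abel
    rw [this, h2, h3, hxy x hx y hy, add_zero, add_zero]
  | smul c x _ h2 => rw [mul_smul_comm, smul_mul_assoc, h2, smul_zero, smul_zero]

end Pool.Agent.KRc
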