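import Pool.Agent.KRc.Defs
import Pool.Agent.KRb.Kmt

set_option autoImplicit false

/-!
Row SPC: specialisation of the Milnor ring of `F` at a good place, with a generic target.
-/

namespace Pool.Agent.KRc

open Finsupp Pool.Agent.KMil Pool.Agent.KRat Pool.Agent.KRb Polynomial

universe u

variable {K : Type u} [Field K] {F : Type u} [Field F] [Algebra (RatFunc K) F]

section spc

variable {E : Type u} [Field E] {M : Type*} [Ring M]

open Classical in
private noncomputable def spcT (σ : Eˣ → M) (e : E) : M :=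
  if h : e = 0 then 0 else σ (Units.mk0 e h)

private theorem spcT_ne (σ : Eˣ → M) {e : E} (h : e ≠ 0) : spcT σ e = σ (Units.mk0 e h) := by
  unfold spcT
  rw [dif_neg h]

private theorem spcT_mul {σ : Eˣ → M} (hσ : ∀ a b, σ (a * b) = σ a + σ b) {a b : E}
    (ha : a ≠ 0) (hb : b ≠ 0) : spcT σ (a * b) = spcT σ a + spcT σ b := by
  rw [spcT_ne σ ha, spcT_ne σ hb, spcT_ne σ (mul_ne_zero ha hb), ← hσ, Units.mk0_mul]

private theorem spcT_one {σ : Eˣ → M} (hσ : ∀ a b, σ (a * b) = σ a + σ b) :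
    spcT σ (1 : E) = 0 := by
  have h := spcT_mul hσ (one_ne_zero (α := E)) (one_ne_zero (α := E))
  rw [mul_one] at h
  exact left_eq_add.1 h

private theorem spcT_st {σ : Eˣ → M} 
    (hst : ∀ a b : Eˣ, (a : E) + (b : E) = 1 → σ a * σ b = 0) {a b : E}
    (ha : a ≠ 0) (hb : b ≠ 0) (h : a + b = 1) : spcT σ a * spcT σ b = 0 := by
  rw [spcT_ne σ ha, spcT_ne σ hb]
  exact hst _ _ h

private theorem spcT_neg_self {σ : Eˣ → M} (hσ : ∀ a b, σ (a * b) = σ a + σ b)
    (hst : ∀ a b : Eˣ, (a : E) + (b : E) = 1 → σ a * σ b = 0) {e : E} (he : e ≠ 0) :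
    spcT σ e * spcT σ (-e) = 0 := by
  by_cases h1 : e = 1
  · rw [h1, spcT_one hσ, zero_mul]
  · have h2 : 1 - e ≠ 0 := fun h => h1 (sub_eq_zero.1 h).symm
    have he' : e⁻¹ ≠ 0 := inv_ne_zero he
    have h3 : 1 - e⁻¹ ≠ 0 := by
      intro h
      have : e⁻¹ = 1 := (sub_eq_zero.1 h).symm
      exact h1 (inv_eq_one.1 this)
    have e1 : -e * (1 - e⁻¹) = 1 - e := by
      field_simp
      ring
    have e2 := spcT_mul hσ (neg_ne_zero.2 he) h3
    rw [e1] at e2
    have e3 : spcT σ (-e) = spcT σ (1 - e) - spcT σ (1 - e⁻¹) := by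
      rw [e2, add_sub_cancel_right]
    have e4 : spcT σ e⁻¹ = -spcT σ e := by
      have h := spcT_mul hσ he he'
      rw [mul_inv_cancel₀ he, spcT_one hσ] at h
      exact (neg_eq_of_add_eq_zero_right h.symm).symm
    have e5 : spcT σ e * spcT σ (1 - e) = 0 := spcT_st hst he h2 (by ring)
    have e6 : spcT σ e * spcT σ (1 - e⁻¹) = 0 := by
      have h := spcT_st hst he' h3 (by ring)
      rw [e4, neg_mul] at h
      exact neg_eq_zero.1 h
    rw [e3, mul_sub, e5, e6, sub_zero]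

private theorem spc_calc {X Y P N : M} (m : ℤ) (h1 : X * Y = 0) (h2 : Y = N + X)
    (h3 : X * P = -(P * X)) (h4 : P * P = P * N) (h5 : N + N = 0) :
    (X + m • P) * (Y + m • P) = 0 := by
  have h6 : (X + m • P) * (Y + m • P) = (m * (m + 1)) • (P * N) := by
    rw [mul_add, add_mul, add_mul, h1, zero_add, smul_mul_assoc, mul_smul_comm, smul_mul_assoc,
      mul_smul_comm, h3, h4, smul_smul, h2, mul_add, smul_add, smul_neg, mul_add m m 1, mul_one,
      add_smul]
    abel
  obtain ⟨k, hk⟩ := Int.even_mul_succ_self m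
  rw [h6, hk, add_smul, ← smul_add, ← mul_add, h5, mul_zero, smul_zero]

end spc

theorem exists_specF (p : ℕ) [Fact p.Prime] (π : K[X]) [Fact (Irreducible π)] (h : GoodPl F π)
    {M : Type*} [Ring M] [Algebra (ZMod p) M]
    (σ : (AdjoinRoot π)ˣ → M) (P0 : M) (hσ : ∀ a b, σ (a * b) = σ a + σ b)
    (hst : ∀ a b : (AdjoinRoot π)ˣ, (a : AdjoinRoot π) + (b : AdjoinRoot π) = 1 →
      σ a * σ b = 0)
    (hcm : ∀ a, σ a * P0 = -(P0 * σ a)) (hP0 : P0 * P0 = P0 * σ (-1)) :
    ∃ S : KM p F →ₐ[ZMod p] M, S (psymF p F π) = P0 ∧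
      ∀ (q : K[X]) (u : (AdjoinRoot π)ˣ), (u : AdjoinRoot π) = AdjoinRoot.mk π q →
        S (psymF p F q) = σ u := by
  obtain ⟨O, r, hq, hu, hf⟩ := h
  have hπ : π ≠ 0 := (Fact.out : Irreducible π).ne_zero
  have hP : jF F π ≠ 0 := by
    unfold jF
    rw [Ne, map_eq_zero_iff _ (algebraMap (RatFunc K) F).injective]
    exact RatFunc.algebraMap_ne_zero hπ
  obtain ⟨hPO, hrP⟩ := hq π
  have hrP0 : r ⟨jF F π, hPO⟩ = 0 := by rw [hrP, AdjoinRoot.mk_self]
  -- positive powers
  have hpos : ∀ (k : ℤ) (v : O), 0 < k → ∃ w : O, (w : F) = jF F π ^ k * (v : F) ∧ r w = 0 := by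
    intro k v hk
    obtain ⟨n, rfl⟩ := Int.eq_ofNat_of_zero_le hk.le
    refine ⟨(⟨jF F π, hPO⟩ : O) ^ n * v, ?_, ?_⟩
    · rw [zpow_natCast]
      rfl
    · rw [map_mul, map_pow, hrP0, zero_pow (by omega), zero_mul]
  have huniq' : ∀ (m n : ℤ) (u v : O), r u ≠ 0 → jF F π ^ m * (u : F) = jF F π ^ n * (v : F) →
      n ≤ m := by
    intro m n u v hu0 huv
    by_contra hlt
    obtain ⟨w, hw, hw0⟩ := hpos (n - m) v (by omega)
    apply hu0
    have : u = w := by
      apply Subtype.ext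
      rw [hw, zpow_sub₀ hP]
      field_simp
      rw [mul_comm, huv]
    rw [this, hw0]
  have huniq : ∀ (m n : ℤ) (u v : O), r u ≠ 0 → r v ≠ 0 →
      jF F π ^ m * (u : F) = jF F π ^ n * (v : F) → m = n ∧ u = v := by
    intro m n u v hu0 hv0 huv
    have h1 := huniq' m n u v hu0 huv
    have h2 := huniq' n m v u hv0 huv.symm
    have h3 : m = n := le_antisymm h2 h1
    subst h3
    exact ⟨rfl, Subtype.ext (mul_left_cancel₀ (zpow_ne_zero m hP) huv)⟩
  choose! mm uu hmu using hf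
  set S0 : Fˣ → M := fun x => spcT σ (r (uu x)) + mm x • P0 with hS0
  have S0_eq : ∀ (x : Fˣ) (m : ℤ) (u : O), r u ≠ 0 → (x : F) = jF F π ^ m * (u : F) →
      S0 x = spcT σ (r u) + m • P0 := by
    intro x m u hu0 hx
    obtain ⟨h1, h2⟩ := hmu x x.ne_zero
    obtain ⟨h3, h4⟩ := huniq (mm x) m (uu x) u h1 hu0 (by rw [← h2, hx])
    rw [hS0]
    simp only
    rw [h3, h4]
  have hnegone : spcT σ (-1 : AdjoinRoot π) = σ (-1) := by
    rw [spcT_ne σ (neg_ne_zero.2 one_ne_zero)]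
    congr 1
    apply Units.ext
    rw [Units.val_mk0, Units.val_neg, Units.val_one]
  have hN : spcT σ (-1 : AdjoinRoot π) + spcT σ (-1 : AdjoinRoot π) = 0 := by
    rw [← spcT_mul hσ (neg_ne_zero.2 one_ne_zero) (neg_ne_zero.2 one_ne_zero), neg_mul_neg,
      mul_one, spcT_one hσ]
  have hcm' : ∀ e : AdjoinRoot π, e ≠ 0 → spcT σ e * P0 = -(P0 * spcT σ e) := by
    intro e he
    rw [spcT_ne σ he]
    exact hcm _
  have hsteinberg : ∀ x y : Fˣ, (x : F) + (y : F) = 1 → S0 x * S0 y = 0 := by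
    intro x y hxy
    obtain ⟨hx1, hx2⟩ := hmu x x.ne_zero
    obtain ⟨hy1, hy2⟩ := hmu y y.ne_zero
    have hzero : ∀ (x y : Fˣ), (x : F) + (y : F) = 1 → r (uu x) ≠ 0 →
        (x : F) = jF F π ^ mm (x : F) * (uu x : F) → 0 < mm (x : F) → S0 y = 0 := by
      intro x y hxy hx1 hx2 hm
      obtain ⟨w, hw, hw0⟩ := hpos (mm x) (uu x) hm
      have hy : (y : F) = jF F π ^ (0 : ℤ) * ((1 - w : O) : F) := by
        rw [zpow_zero, one_mul]
        have : ((1 - w : O) : F) = 1 - (w : F) := rfl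
        rw [this, hw, ← hx2, ← hxy]
        ring
      have hr : r (1 - w) = 1 := by rw [map_sub, map_one, hw0, sub_zero]
      rw [S0_eq y 0 (1 - w) (by rw [hr]; exact one_ne_zero) hy, hr, spcT_one hσ, zero_smul,
        add_zero]
    by_cases hm : 0 < mm (x : F)
    · rw [hzero x y hxy hx1 hx2 hm, mul_zero]
    by_cases hn : 0 < mm (y : F)
    · rw [hzero y x (by rw [add_comm]; exact hxy) hy1 hy2 hn, zero_mul]
    by_cases hm0 : mm (x : F) = 0
    · by_cases hn0 : mm (y : F) = 0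
      · rw [hm0, zpow_zero, one_mul] at hx2
        rw [hn0, zpow_zero, one_mul] at hy2
        have h1 : uu (x : F) + uu (y : F) = 1 := by
          apply Subtype.ext
          have : ((uu (x : F) + uu (y : F) : O) : F) = (uu (x : F) : F) + (uu (y : F) : F) := rfl
          rw [this, ← hx2, ← hy2, hxy]
          rfl
        have h2 : r (uu (x : F)) + r (uu (y : F)) = 1 := by rw [← map_add, h1, map_one]
        rw [S0_eq x 0 (uu (x : F)) hx1 (by rw [zpow_zero, one_mul]; exact hx2),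
          S0_eq y 0 (uu (y : F)) hy1 (by rw [zpow_zero, one_mul]; exact hy2), zero_smul, add_zero,
          add_zero]
        exact spcT_st hst hx1 hy1 h2
      · exfalso
        rw [hm0, zpow_zero, one_mul] at hx2
        have h1 : jF F π ^ mm (y : F) * (uu (y : F) : F) =
            jF F π ^ (0 : ℤ) * ((1 - uu (x : F) : O) : F) := by
          rw [zpow_zero, one_mul, ← hy2]
          have : ((1 - uu (x : F) : O) : F) = 1 - (uu (x : F) : F) := rfl
          rw [this, ← hx2, ← hxy]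
          ring
        have := huniq' _ _ _ _ hy1 h1
        omega
    · obtain ⟨w, hw, hw0⟩ := hpos (-mm (x : F)) 1 (by omega)
      have hy : (y : F) = jF F π ^ mm (x : F) * ((w - uu (x : F) : O) : F) := by
        have : ((w - uu (x : F) : O) : F) = (w : F) - (uu (x : F) : F) := rfl
        rw [this, mul_sub, ← hx2, hw]
        have h1 : jF F π ^ mm (x : F) * (jF F π ^ (-mm (x : F)) * ((1 : O) : F)) = 1 := by
          rw [← mul_assoc, ← zpow_add₀ hP, add_neg_cancel, zpow_zero, one_mul]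
          rfl
        rw [h1, ← hxy]
        ring
      have hr : r (w - uu (x : F)) = -r (uu (x : F)) := by rw [map_sub, hw0, zero_sub]
      have hr0 : r (w - uu (x : F)) ≠ 0 := by
        rw [hr]
        exact neg_ne_zero.2 hx1
      rw [S0_eq x _ _ hx1 hx2, S0_eq y _ _ hr0 hy, hr]
      have e1 : spcT σ (-r (uu (x : F))) =
          spcT σ (-1 : AdjoinRoot π) + spcT σ (r (uu (x : F))) := by
        rw [← spcT_mul hσ (neg_ne_zero.2 one_ne_zero) hx1, neg_one_mul]
      exact spc_calc _ (spcT_neg_self hσ hst hx1) e1 (hcm' _ hx1) (by rw [hP0, hnegone]) hN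
  have hmul : ∀ x y : Fˣ, S0 (x * y) = S0 x + S0 y := by
    intro x y
    obtain ⟨hx1, hx2⟩ := hmu x x.ne_zero
    obtain ⟨hy1, hy2⟩ := hmu y y.ne_zero
    have h1 : r (uu (x : F) * uu (y : F)) ≠ 0 := by
      rw [map_mul]
      exact mul_ne_zero hx1 hy1
    have h2 : ((x * y : Fˣ) : F) =
        jF F π ^ (mm (x : F) + mm (y : F)) * ((uu (x : F) * uu (y : F) : O) : F) := by
      have : ((uu (x : F) * uu (y : F) : O) : F) = (uu (x : F) : F) * (uu (y : F) : F) := rfl
      rw [this, zpow_add₀ hP, Units.val_mul]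
      calc (x : F) * (y : F) = (jF F π ^ mm (x : F) * (uu (x : F) : F)) *
            (jF F π ^ mm (y : F) * (uu (y : F) : F)) := by rw [← hx2, ← hy2]
        _ = _ := by ring
    rw [S0_eq (x * y) _ _ h1 h2, S0_eq x _ _ hx1 hx2, S0_eq y _ _ hy1 hy2, map_mul,
      spcT_mul hσ hx1 hy1, add_smul]
    abel
  have hrel : ∀ x y, MRel p F x y → FreeAlgebra.lift (ZMod p) S0 x =
      FreeAlgebra.lift (ZMod p) S0 y := by
    intro x y hxy
    cases hxy with
    | mul u v =>
      rw [map_add, FreeAlgebra.lift_ι_apply, FreeAlgebra.lift_ι_apply, FreeAlgebra.lift_ι_apply,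
        hmul]
    | steinberg u v h =>
      rw [map_mul, FreeAlgebra.lift_ι_apply, FreeAlgebra.lift_ι_apply, map_zero,
        hsteinberg u v h]
  have hS : ∀ x : Fˣ, liftKM (FreeAlgebra.lift (ZMod p) S0) hrel (sym p x) = S0 x := by
    intro x
    unfold sym
    rw [liftKM_quo, FreeAlgebra.lift_ι_apply]
  refine ⟨liftKM _ hrel, ?_, ?_⟩
  · unfold psymF
    rw [dif_neg hP, hS]
    have h1 : r (1 : O) ≠ 0 := by
      rw [map_one]
      exact one_ne_zero
    rw [S0_eq (Units.mk0 (jF F π) hP) 1 1 h1 (by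
      rw [Units.val_mk0, zpow_one]
      have : ((1 : O) : F) = 1 := rfl
      rw [this, mul_one]), map_one, spcT_one hσ, one_smul, zero_add]
  · intro q u huq
    obtain ⟨hqO, hqr⟩ := hq q
    have h0 : r ⟨jF F q, hqO⟩ ≠ 0 := by
      rw [hqr, ← huq]
      exact u.ne_zero
    have hq0 : jF F q ≠ 0 := by
      intro hz
      apply h0
      have : (⟨jF F q, hqO⟩ : O) = 0 := Subtype.ext hz
      rw [this, map_zero]
    unfold psymF
    rw [dif_neg hq0, hS, S0_eq (Units.mk0 (jF F q) hq0) 0 ⟨jF F q, hqO⟩ h0 (by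
      rw [Units.val_mk0, zpow_zero, one_mul]), zero_smul, add_zero, spcT_ne σ h0]
    congr 1
    apply Units.ext
    rw [Units.val_mk0, hqr, huq]

end Pool.Agent.KRc
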